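import Mathlib

/-!
# Translation invariant closure operators on finitely generated abelian groups
-/

set_option autoImplicit false

namespace Pool.TFM

/-- A finitary closure operator on `G`, invariant under translations by the subgroup `Γ`. -/
structure Cl (G : Type) [CommGroup G] (Γ : Subgroup G) where
  cl : Set G → Set G
  sub : ∀ S, S ⊆ cl S
  idem : ∀ S T, T ⊆ cl S → cl T ⊆ cl S
  fin : ∀ S x, x ∈ cl S → ∃ F, F ⊆ S ∧ F.Finite ∧ x ∈ cl F
  inv : ∀ g ∈ Γ, ∀ S x, x ∈ cl S → g * x ∈ cl ((fun y => g * y) '' S)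

variable {G : Type} [CommGroup G] {Γ : Subgroup G}

theorem Cl.mono (C : Cl G Γ) {S T : Set G} (h : S ⊆ T) : C.cl S ⊆ C.cl T :=
  C.idem _ _ (h.trans (C.sub T))

/-- total submonoids of the subgroup `Γ` -/
def Tot (Γ : Subgroup G) (P : Submonoid G) : Prop :=
  (∀ x ∈ P, x ∈ Γ) ∧ ∀ g ∈ Γ, g ∈ P ∨ g⁻¹ ∈ P

/-- the positive part -/
def pos (P : Submonoid G) : Set G := {g | g ∈ P ∧ g⁻¹ ∉ P}

/-- scalar product of a real vector with an integer vector -/
noncomputable def dot {n : ℕ} (v : Fin n → ℝ) (z : Fin n → ℤ) : ℝ := ∑ i, v i * (z i : ℝ)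

theorem dot_add {n : ℕ} (v : Fin n → ℝ) (z w : Fin n → ℤ) : dot v (z + w) = dot v z + dot v w := by
  unfold dot
  rw [← Finset.sum_add_distrib]
  refine Finset.sum_congr rfl (fun i _ => ?_)
  rw [Pi.add_apply]; push_cast; ring

theorem dot_neg {n : ℕ} (v : Fin n → ℝ) (z : Fin n → ℤ) : dot v (-z) = - dot v z := by
  unfold dot
  rw [← Finset.sum_neg_distrib]
  refine Finset.sum_congr rfl (fun i _ => ?_)
  rw [Pi.neg_apply]; push_cast; ring

theorem dot_zero {n : ℕ} (v : Fin n → ℝ) : dot v 0 = 0 := by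
  simp [dot]

theorem dot_continuous {n : ℕ} (z : Fin n → ℤ) : Continuous (fun v : Fin n → ℝ => dot v z) := by
  unfold dot
  fun_prop

theorem exists_neg_dot {n : ℕ} (v : Fin n → ℝ) (hv : v ≠ 0) : ∃ z : Fin n → ℤ, dot v z < 0 := by
  obtain ⟨i, hi⟩ := Function.ne_iff.1 hv
  have h1 : ∀ a : ℤ, dot v (Pi.single i a) = v i * a := by
    intro a
    unfold dot
    rw [Finset.sum_eq_single i]
    · simp
    · intro j _ hj
      simp [hj]
    · intro h; exact absurd (Finset.mem_univ i) h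
  rcases lt_or_gt_of_ne hi with h | h
  · exact ⟨Pi.single i 1, by rw [h1]; simpa using h⟩
  · refine ⟨Pi.single i (-1), ?_⟩
    rw [h1]; push_cast
    have : (0 : ℝ) < v i := h
    linarith

/-- the homomorphism from `ℤ ^ n` -/
noncomputable def phi {n : ℕ} (g : Fin n → G) (z : Fin n → ℤ) : G := ∏ i, g i ^ z i

theorem phi_add {n : ℕ} (g : Fin n → G) (z w : Fin n → ℤ) :
    phi g (z + w) = phi g z * phi g w := by
  unfold phi
  rw [← Finset.prod_mul_distrib]
  exact Finset.prod_congr rfl (fun i _ => by rw [Pi.add_apply, zpow_add])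

theorem phi_zero {n : ℕ} (g : Fin n → G) : phi g 0 = 1 := by simp [phi]

theorem phi_neg {n : ℕ} (g : Fin n → G) (z : Fin n → ℤ) : phi g (-z) = (phi g z)⁻¹ := by
  have h := phi_add g (-z) z
  rw [neg_add_cancel, phi_zero] at h
  exact eq_inv_of_mul_eq_one_left h.symm

theorem phi_mem {n : ℕ} (g : Fin n → G) (hg : ∀ i, g i ∈ Γ) (z : Fin n → ℤ) : phi g z ∈ Γ :=
  Subgroup.prod_mem _ (fun i _ => Γ.zpow_mem (hg i) _)

theorem phi_surj {n : ℕ} (g : Fin n → G) (hg : Subgroup.closure (Set.range g) = Γ) (x : G)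
    (hx : x ∈ Γ) : ∃ z, phi g z = x := by
  let R : Subgroup G :=
    { carrier := Set.range (phi g)
      mul_mem' := by
        rintro _ _ ⟨a, rfl⟩ ⟨b, rfl⟩
        exact ⟨a + b, phi_add g a b⟩
      one_mem' := ⟨0, phi_zero g⟩
      inv_mem' := by
        rintro _ ⟨a, rfl⟩
        exact ⟨-a, phi_neg g a⟩ }
  have h : Γ ≤ R := by
    rw [← hg, Subgroup.closure_le]
    rintro _ ⟨i, rfl⟩
    refine ⟨Pi.single i 1, ?_⟩
    unfold phi
    rw [Finset.prod_eq_single i]
    · simp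
    · intro j _ hj
      simp [hj]
    · intro h; exact absurd (Finset.mem_univ i) h
  exact h hx

/-- for every direction there is a relation in the open half space -/
theorem half_space (C : Cl G Γ) {n : ℕ} (g : Fin n → G)
    (hg : Subgroup.closure (Set.range g) = Γ)
    (h : ∀ P : Submonoid G, Tot Γ P → (∃ x ∈ Γ, x ∉ P) → (1 : G) ∈ C.cl (pos P))
    (v : Fin n → ℝ) (hv : v ≠ 0) :
    ∃ F : Finset (Fin n → ℤ), (∀ f ∈ F, 0 < dot v f) ∧ (1 : G) ∈ C.cl (phi g '' (F : Set (Fin n → ℤ))) := by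
  classical
  have hgm : ∀ i, g i ∈ Γ := fun i => by rw [← hg]; exact Subgroup.subset_closure ⟨i, rfl⟩
  let P : Submonoid G :=
    { carrier := {x | ∃ z, phi g z = x ∧ 0 ≤ dot v z}
      mul_mem' := by
        rintro _ _ ⟨a, rfl, ha⟩ ⟨b, rfl, hb⟩
        exact ⟨a + b, phi_add g a b, by rw [dot_add]; exact add_nonneg ha hb⟩
      one_mem' := ⟨0, phi_zero g, by rw [dot_zero]⟩ }
  have hP : Tot Γ P := by
    refine ⟨?_, ?_⟩
    · rintro _ ⟨z, rfl, -⟩
      exact phi_mem g hgm z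
    · intro x hx
      obtain ⟨z, rfl⟩ := phi_surj g hg x hx
      rcases le_total 0 (dot v z) with h1 | h1
      · exact Or.inl ⟨z, rfl, h1⟩
      · exact Or.inr ⟨-z, phi_neg g z, by rw [dot_neg]; linarith⟩
  by_cases hex : ∃ x ∈ Γ, x ∉ P
  · obtain ⟨F, hF, hfin, h1⟩ := C.fin _ _ (h P hP hex)
    have hch : ∀ x ∈ F, ∃ z, phi g z = x ∧ 0 < dot v z := by
      intro x hx
      obtain ⟨⟨z, hz, -⟩, hn⟩ := hF hx
      refine ⟨z, hz, ?_⟩
      by_contra hcon
      refine hn ⟨-z, ?_, ?_⟩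
      · rw [phi_neg, hz]
      · rw [dot_neg]; linarith
    choose! w hw1 hw2 using hch
    refine ⟨hfin.toFinset.image w, ?_, ?_⟩
    · intro f hf
      obtain ⟨x, hx, rfl⟩ := Finset.mem_image.1 hf
      exact hw2 x (hfin.mem_toFinset.1 hx)
    · refine C.mono ?_ h1
      intro x hx
      refine ⟨w x, ?_, hw1 x hx⟩
      rw [Finset.mem_coe]
      exact Finset.mem_image_of_mem _ (hfin.mem_toFinset.2 hx)
  · push Not at hex
    obtain ⟨z0, hz0⟩ := exists_neg_dot v hv
    obtain ⟨z1, hz1, hz1'⟩ := hex (phi g z0) (phi_mem g hgm z0)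
    refine ⟨{z1 - z0}, ?_, ?_⟩
    · intro f hf
      rw [Finset.mem_singleton.1 hf, sub_eq_add_neg, dot_add, dot_neg]
      linarith
    · refine C.sub _ ⟨z1 - z0, by simp, ?_⟩
      rw [sub_eq_add_neg, phi_add, phi_neg, hz1, mul_inv_cancel]

/-- in every open half space there is a relation -/
def HS (C : Cl G Γ) {n : ℕ} (g : Fin n → G) : Prop :=
  ∀ v : Fin n → ℝ, v ≠ 0 → ∃ F : Finset (Fin n → ℤ), (∀ f ∈ F, 0 < dot v f) ∧
    (1 : G) ∈ C.cl (phi g '' (F : Set (Fin n → ℤ)))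

/-- uniform version on the sphere -/
theorem sphere_cover (C : Cl G Γ) {n : ℕ} (g : Fin n → G) (hHS : HS C g) :
    ∃ (K : ℕ) (T : Finset (Finset (Fin n → ℤ))),
      (∀ F ∈ T, (1 : G) ∈ C.cl (phi g '' (F : Set (Fin n → ℤ)))) ∧
      ∀ v : Fin n → ℝ, ‖v‖ = 1 → ∃ F ∈ T, ∀ f ∈ F, 1 / ((K : ℝ) + 1) < dot v f := by
  classical
  let ι := {F : Finset (Fin n → ℤ) // (1 : G) ∈ C.cl (phi g '' (F : Set (Fin n → ℤ)))} × ℕ
  let U : ι → Set (Fin n → ℝ) := fun i => ⋂ f ∈ i.1.1, {v | 1 / ((i.2 : ℝ) + 1) < dot v f}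
  have hUo : ∀ i, IsOpen (U i) := by
    intro i
    refine isOpen_biInter_finset (fun f _ => ?_)
    exact isOpen_lt continuous_const (dot_continuous f)
  have hcov : Metric.sphere (0 : Fin n → ℝ) 1 ⊆ ⋃ i, U i := by
    intro v hv
    have hv1 : ‖v‖ = 1 := by simpa using hv
    have hv0 : v ≠ 0 := by
      intro h0
      rw [h0, norm_zero] at hv1
      exact zero_ne_one hv1
    obtain ⟨F, hF, hF1⟩ := hHS v hv0
    have hk : ∀ f ∈ F, ∃ k : ℕ, 1 / ((k : ℝ) + 1) < dot v f := fun f hf =>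
      exists_nat_one_div_lt (hF f hf)
    choose! k hk' using hk
    refine Set.mem_iUnion.2 ⟨(⟨F, hF1⟩, F.sup k), ?_⟩
    refine Set.mem_iInter₂.2 (fun f hf => ?_)
    change 1 / (((F.sup k : ℕ) : ℝ) + 1) < dot v f
    refine lt_of_le_of_lt ?_ (hk' f hf)
    refine one_div_le_one_div_of_le (by positivity) ?_
    have : k f ≤ F.sup k := Finset.le_sup hf
    have : (k f : ℝ) ≤ ((F.sup k : ℕ) : ℝ) := by exact_mod_cast this
    linarith
  obtain ⟨t, ht⟩ := (isCompact_sphere (0 : Fin n → ℝ) 1).elim_finite_subcover U hUo hcov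
  refine ⟨t.sup (fun i => i.2), t.image (fun i => i.1.1), ?_, ?_⟩
  · intro F hF
    obtain ⟨i, -, rfl⟩ := Finset.mem_image.1 hF
    exact i.1.2
  · intro v hv
    have hv' : v ∈ Metric.sphere (0 : Fin n → ℝ) 1 := by simpa using hv
    obtain ⟨i, hi, hvi⟩ := Set.mem_iUnion₂.1 (ht hv')
    refine ⟨i.1.1, Finset.mem_image_of_mem _ hi, fun f hf => ?_⟩
    refine lt_of_le_of_lt ?_ (Set.mem_iInter₂.1 hvi f hf)
    refine one_div_le_one_div_of_le (by positivity) ?_
    have : i.2 ≤ t.sup (fun i => i.2) := Finset.le_sup (f := fun i : ι => i.2) hi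
    have : (i.2 : ℝ) ≤ ((t.sup (fun i => i.2) : ℕ) : ℝ) := by exact_mod_cast this
    linarith

/-- squared length -/
def sq {n : ℕ} (z : Fin n → ℤ) : ℤ := ∑ i, z i * z i

theorem sq_nonneg' {n : ℕ} (z : Fin n → ℤ) : 0 ≤ sq z :=
  Finset.sum_nonneg (fun _ _ => mul_self_nonneg _)

theorem sq_add {n : ℕ} (z w : Fin n → ℤ) :
    (sq (z + w) : ℝ) = sq z + 2 * dot (fun i => (z i : ℝ)) w + sq w := by
  unfold sq dot
  push_cast
  rw [Finset.mul_sum, ← Finset.sum_add_distrib, ← Finset.sum_add_distrib]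
  refine Finset.sum_congr rfl (fun i _ => ?_)
  rw [Pi.add_apply]; push_cast; ring

theorem dot_smul {n : ℕ} (c : ℝ) (v : Fin n → ℝ) (z : Fin n → ℤ) :
    dot (c • v) z = c * dot v z := by
  unfold dot
  rw [Finset.mul_sum]
  refine Finset.sum_congr rfl (fun i _ => ?_)
  rw [Pi.smul_apply, smul_eq_mul]; ring

/-- generating families of finitely generated subgroups -/
theorem exists_gens (hfg : Γ.FG) :
    ∃ (n : ℕ) (g : Fin n → G), Subgroup.closure (Set.range g) = Γ := by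
  classical
  obtain ⟨S, hS⟩ := hfg
  refine ⟨S.card, fun i => (S.equivFin.symm i).1, ?_⟩
  rw [← hS]
  congr 1
  ext x
  constructor
  · rintro ⟨i, rfl⟩
    exact (S.equivFin.symm i).2
  · intro hx
    exact ⟨S.equivFin ⟨x, hx⟩, by simp⟩

/-- The Bieri-Strebel argument. -/
theorem bsHS (C : Cl G Γ) {n : ℕ} (g : Fin n → G)
    (hg : Subgroup.closure (Set.range g) = Γ) (hHS : HS C g) :
    ∃ F : Set G, F.Finite ∧ F ⊆ Γ ∧ (Γ : Set G) ⊆ C.cl F := by
  classical
  have hgm : ∀ i, g i ∈ Γ := fun i => by rw [← hg]; exact Subgroup.subset_closure ⟨i, rfl⟩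
  obtain ⟨K, T, hT, hcov⟩ := sphere_cover C g hHS
  -- a bound for the squared lengths
  let c : ℕ := T.sup (fun F => F.sup (fun f => (sq f).toNat))
  have hc : ∀ F ∈ T, ∀ f ∈ F, (sq f : ℝ) ≤ c := by
    intro F hF f hf
    have h1 : (sq f).toNat ≤ F.sup (fun f => (sq f).toNat) :=
      Finset.le_sup (f := fun f => (sq f).toNat) hf
    have h2 : F.sup (fun f => (sq f).toNat) ≤ c :=
      Finset.le_sup (f := fun F : Finset (Fin n → ℤ) => F.sup (fun f => (sq f).toNat)) hF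
    have h3 : sq f ≤ ((sq f).toNat : ℤ) := Int.self_le_toNat _
    have h4 : sq f ≤ (c : ℤ) := h3.trans (by exact_mod_cast h1.trans h2)
    exact_mod_cast h4
  let N : ℕ := c * (K + 1)
  let Ball : Set (Fin n → ℤ) := Set.Icc (fun _ => -(N : ℤ)) (fun _ => (N : ℤ))
  have hfin : Ball.Finite := Set.finite_Icc _ _
  refine ⟨phi g '' Ball, hfin.image _, ?_, ?_⟩
  · rintro _ ⟨z, -, rfl⟩
    exact phi_mem g hgm z
  have hmain : ∀ (m : ℕ) (z : Fin n → ℤ), (sq z).toNat = m →
      phi g z ∈ C.cl (phi g '' Ball) := by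
    intro m
    induction m using Nat.strong_induction_on with
    | _ m ih =>
      intro z hz
      by_cases hzB : z ∈ Ball
      · exact C.sub _ ⟨z, hzB, rfl⟩
      let x : Fin n → ℝ := fun i => (z i : ℝ)
      have hx : (N : ℝ) < ‖x‖ := by
        by_contra hcon
        push Not at hcon
        refine hzB ⟨fun i => ?_, fun i => ?_⟩
        · have h1 : |(z i : ℝ)| ≤ N := (norm_le_pi_norm x i).trans hcon
          have h2 := (abs_le.1 h1).1
          exact_mod_cast h2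
        · have h1 : |(z i : ℝ)| ≤ N := (norm_le_pi_norm x i).trans hcon
          have h2 := (abs_le.1 h1).2
          exact_mod_cast h2
      have hx0 : 0 < ‖x‖ := lt_of_le_of_lt (Nat.cast_nonneg _) hx
      have hn : ‖(-(‖x‖)⁻¹) • x‖ = 1 := by
        rw [norm_smul, norm_neg, norm_inv, norm_norm, inv_mul_cancel₀ hx0.ne']
      obtain ⟨F, hFT, hF⟩ := hcov _ hn
      have hdec : ∀ f ∈ F, phi g (z + f) ∈ C.cl (phi g '' Ball) := by
        intro f hf
        refine ih _ ?_ (z + f) rfl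
        rw [← hz]
        have h1 := hF f hf
        rw [dot_smul] at h1
        have h2 : dot x f < - (‖x‖ / ((K : ℝ) + 1)) := by
          have h3 : (‖x‖)⁻¹ * dot x f < - (1 / ((K : ℝ) + 1)) := by linarith
          have h4 := mul_lt_mul_of_pos_left h3 hx0
          rw [← mul_assoc, mul_inv_cancel₀ hx0.ne', one_mul] at h4
          calc dot x f < ‖x‖ * -(1 / ((K : ℝ) + 1)) := h4
            _ = - (‖x‖ / ((K : ℝ) + 1)) := by ring
        have h5 : (c : ℝ) < ‖x‖ / ((K : ℝ) + 1) := by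
          rw [lt_div_iff₀ (by positivity)]
          have : ((N : ℕ) : ℝ) = (c : ℝ) * ((K : ℝ) + 1) := by
            simp only [N]; push_cast; ring
          rw [← this]; exact hx
        have h6 := sq_add z f
        have h7 := hc F hFT f hf
        have h8 : (0 : ℝ) ≤ c := Nat.cast_nonneg _
        have h9 : (sq (z + f) : ℝ) < sq z := by
          rw [h6]
          change (sq z : ℝ) + 2 * dot x f + sq f < sq z
          linarith
        have h10 : sq (z + f) < sq z := by exact_mod_cast h9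
        have h11 := sq_nonneg' (z + f)
        omega
      have h1 := C.inv (phi g z) (phi_mem g hgm z) _ _ (hT F hFT)
      rw [mul_one] at h1
      refine C.idem _ _ ?_ h1
      rintro _ ⟨_, ⟨f, hf, rfl⟩, rfl⟩
      change phi g z * phi g f ∈ _
      rw [← phi_add]
      exact hdec f hf
  intro x hx
  obtain ⟨z, rfl⟩ := phi_surj g hg x hx
  exact hmain _ z rfl

theorem bs (C : Cl G Γ) (hfg : Γ.FG)
    (h : ∀ P : Submonoid G, Tot Γ P → (∃ x ∈ Γ, x ∉ P) → (1 : G) ∈ C.cl (pos P)) :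
    ∃ F : Set G, F.Finite ∧ F ⊆ Γ ∧ (Γ : Set G) ⊆ C.cl F := by
  obtain ⟨n, g, hg⟩ := exists_gens hfg
  exact bsHS C g hg (fun v hv => half_space C g hg h v hv)

end Pool.TFM
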