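import Mathlib
import Pool.Agent.TFM.Cl

/-!
# The dichotomy for translation invariant closure operators
-/

set_option autoImplicit false

namespace Pool.TFM

variable {G : Type} [CommGroup G] {Γ : Subgroup G}

/-- closure relative to a set which is invariant under the smaller group -/
def Cl.rel (C : Cl G Γ) (Θ : Subgroup G) (hΘ : Θ ≤ Γ) (X : Set G)
    (hX : ∀ g ∈ Θ, ∀ x ∈ X, g * x ∈ X) : Cl G Θ where
  cl S := C.cl (S ∪ X)
  sub S := Set.subset_union_left.trans (C.sub _)
  idem S T h := C.idem _ _ (Set.union_subset h (Set.subset_union_right.trans (C.sub _)))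
  fin S x hx := by
    obtain ⟨F, hF, hfin, hxF⟩ := C.fin _ _ hx
    refine ⟨F ∩ S, Set.inter_subset_right, hfin.subset Set.inter_subset_left, ?_⟩
    refine C.mono ?_ hxF
    intro y hy
    rcases hF hy with h | h
    · exact Or.inl ⟨hy, h⟩
    · exact Or.inr h
  inv g hg S x hx := by
    refine C.mono ?_ (C.inv g (hΘ hg) _ _ hx)
    rintro _ ⟨y, hy, rfl⟩
    rcases hy with h | h
    · exact Or.inl ⟨y, h, rfl⟩
    · exact Or.inr (hX g hg y h)

theorem pos_mul {P : Submonoid G} {x y : G} (hx : x ∈ P) (hy : y ∈ pos P) : x * y ∈ pos P := by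
  refine ⟨P.mul_mem hx hy.1, fun h => hy.2 ?_⟩
  have h1 := P.mul_mem h hx
  rwa [mul_inv, mul_comm x⁻¹, inv_mul_cancel_right] at h1

/-- the units of a submonoid, as a subgroup of the ambient group -/
def theta (P : Submonoid G) : Subgroup G where
  carrier := {x | x ∈ P ∧ x⁻¹ ∈ P}
  mul_mem' := by
    rintro a b ⟨ha, ha'⟩ ⟨hb, hb'⟩
    exact ⟨P.mul_mem ha hb, by rw [mul_inv]; exact P.mul_mem ha' hb'⟩
  one_mem' := ⟨P.one_mem, by rw [inv_one]; exact P.one_mem⟩
  inv_mem' := by
    rintro a ⟨ha, ha'⟩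
    exact ⟨ha', by rw [inv_inv]; exact ha⟩

theorem mem_theta {P : Submonoid G} {x : G} : x ∈ theta P ↔ x ∈ P ∧ x⁻¹ ∈ P := Iff.rfl

theorem dich (C : Cl G Γ) (hN : ∀ S : Subgroup G, S ≤ Γ → S.FG) :
    (∃ F : Set G, F.Finite ∧ F ⊆ Γ ∧ (Γ : Set G) ⊆ C.cl F) ∨
    ∃ P : Submonoid G, Tot Γ P ∧ (∃ x ∈ Γ, x ∉ P) ∧ (1 : G) ∉ C.cl (pos P) ∧
      ∃ F : Set G, F.Finite ∧ F ⊆ theta P ∧ (theta P : Set G) ⊆ C.cl (F ∪ pos P) := by
  classical
  by_cases hI : ∃ F : Set G, F.Finite ∧ F ⊆ Γ ∧ (Γ : Set G) ⊆ C.cl F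
  · exact Or.inl hI
  refine Or.inr ?_
  let S : Set (Set G) := {X | ∃ P : Submonoid G, (P : Set G) = X ∧ Tot Γ P ∧ (1 : G) ∉ C.cl (pos P)}
  have htop : (Γ : Set G) ∈ S := by
    refine ⟨Γ.toSubmonoid, rfl, ⟨fun x hx => hx, fun g hg => Or.inl hg⟩, fun h1 => hI ?_⟩
    refine ⟨∅, Set.finite_empty, Set.empty_subset _, fun g hg => ?_⟩
    have h2 : pos Γ.toSubmonoid = ∅ := by
      ext x
      simp only [pos, Set.mem_ofPred_eq, Set.mem_empty_iff_false, iff_false, not_and, not_not]
      intro hx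
      exact Γ.inv_mem hx
    rw [h2] at h1
    have h3 := C.inv g hg _ _ h1
    rwa [Set.image_empty, mul_one] at h3
  obtain ⟨m, -, hm⟩ := zorn_superset_nonempty S (by
    intro c hc hchain hne
    let P : Submonoid G :=
      { carrier := ⋂₀ c
        mul_mem' := by
          intro a b ha hb
          refine Set.mem_sInter.2 (fun X hX => ?_)
          obtain ⟨P, rfl, -⟩ := hc hX
          exact P.mul_mem (Set.mem_sInter.1 ha _ hX) (Set.mem_sInter.1 hb _ hX)
        one_mem' := by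
          refine Set.mem_sInter.2 (fun X hX => ?_)
          obtain ⟨P, rfl, -⟩ := hc hX
          exact P.one_mem }
    refine ⟨⋂₀ c, ⟨P, rfl, ⟨?_, ?_⟩, ?_⟩, fun s hs => Set.sInter_subset_of_mem hs⟩
    · intro x hx
      obtain ⟨X, hX⟩ := hne
      obtain ⟨P', rfl, hP', -⟩ := hc hX
      exact hP'.1 x (Set.mem_sInter.1 hx _ hX)
    · intro g hg
      by_cases h1 : g ∈ P
      · exact Or.inl h1
      · right
        have h2 : ∃ X ∈ c, g ∉ X := by
          by_contra hcon
          push Not at hcon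
          exact h1 (Set.mem_sInter.2 hcon)
        obtain ⟨X, hX, hgX⟩ := h2
        refine Set.mem_sInter.2 (fun Y hY => ?_)
        rcases hchain.total hX hY with h3 | h3
        · obtain ⟨P', rfl, hP', -⟩ := hc hX
          exact h3 ((hP'.2 g hg).resolve_left hgX)
        · obtain ⟨P', rfl, hP', -⟩ := hc hY
          exact (hP'.2 g hg).resolve_left (fun h4 => hgX (h3 h4))
    · intro h1
      obtain ⟨F, hF, hfin, h1F⟩ := C.fin _ _ h1
      -- a member of the chain for which `F` is positive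
      have hfind : ∀ F : Set G, F.Finite → F ⊆ pos P → ∃ X ∈ c, ∀ x ∈ F, x⁻¹ ∉ X := by
        intro F hfin
        refine Set.Finite.induction_on F hfin ?_ ?_
        · intro _
          obtain ⟨X, hX⟩ := hne
          exact ⟨X, hX, fun x hx => absurd hx (Set.notMem_empty x)⟩
        · intro a s _ _ ih has
          obtain ⟨X, hX, hX1⟩ := ih ((Set.subset_insert a s).trans has)
          have h2 : ∃ Y ∈ c, a⁻¹ ∉ Y := by
            by_contra hcon
            push Not at hcon
            exact (has (Set.mem_insert a s)).2 (Set.mem_sInter.2 hcon)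
          obtain ⟨Y, hY, haY⟩ := h2
          rcases hchain.total hX hY with h3 | h3
          · refine ⟨X, hX, fun x hx => ?_⟩
            rcases hx with rfl | hx
            · exact fun h4 => haY (h3 h4)
            · exact hX1 x hx
          · refine ⟨Y, hY, fun x hx => ?_⟩
            rcases hx with rfl | hx
            · exact haY
            · exact fun h4 => hX1 x hx (h3 h4)
      obtain ⟨X, hX, hXF⟩ := hfind F hfin hF
      obtain ⟨P', rfl, hP', h1'⟩ := hc hX
      have hsub : F ⊆ pos P' := fun x hx => ⟨Set.mem_sInter.1 (hF hx).1 _ hX, hXF x hx⟩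
      exact h1' (C.mono hsub h1F)) _ htop
  obtain ⟨⟨P, rfl, hP, h1⟩, hmin⟩ := hm
  have hΘΓ : theta P ≤ Γ := fun x hx => hP.1 x hx.1
  have hrel : ∃ F : Set G, F.Finite ∧ F ⊆ theta P ∧ (theta P : Set G) ⊆ C.cl (F ∪ pos P) := by
    refine bs (C.rel (theta P) hΘΓ (pos P) (fun g hg x hx => pos_mul hg.1 hx)) (hN _ hΘΓ) ?_
    intro P' hP' ⟨x0, hx0, hx0'⟩
    change (1 : G) ∈ C.cl (pos P' ∪ pos P)
    by_contra hcon
    let P'' : Submonoid G :=
      { carrier := {x | x ∈ pos P ∨ x ∈ P'}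
        mul_mem' := by
          rintro a b (ha | ha) (hb | hb)
          · exact Or.inl (pos_mul ha.1 hb)
          · refine Or.inl ?_
            rw [mul_comm]
            exact pos_mul (hP'.1 b hb).1 ha
          · exact Or.inl (pos_mul (hP'.1 a ha).1 hb)
          · exact Or.inr (P'.mul_mem ha hb)
        one_mem' := Or.inr P'.one_mem }
    have hsub : (P'' : Set G) ⊆ P := by
      rintro x (hx | hx)
      · exact hx.1
      · exact (hP'.1 x hx).1
    have hmem : (P'' : Set G) ∈ S := by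
      refine ⟨P'', rfl, ⟨fun x hx => hP.1 x (hsub hx), fun g hg => ?_⟩, fun h2 => hcon ?_⟩
      · by_cases hgΘ : g ∈ theta P
        · rcases hP'.2 g hgΘ with h3 | h3
          · exact Or.inl (Or.inr h3)
          · exact Or.inr (Or.inr h3)
        · rcases hP.2 g hg with h3 | h3
          · exact Or.inl (Or.inl ⟨h3, fun h4 => hgΘ ⟨h3, h4⟩⟩)
          · refine Or.inr (Or.inl ⟨h3, fun h4 => hgΘ ⟨?_, h3⟩⟩)
            rwa [inv_inv] at h4
      · refine C.mono ?_ h2
        rintro x ⟨hx | hx, hx'⟩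
        · exact Or.inr hx
        · exact Or.inl ⟨hx, fun h3 => hx' (Or.inr h3)⟩
    have h3 := hmin hmem hsub
    rcases h3 hx0.1 with h4 | h4
    · exact h4.2 hx0.2
    · exact hx0' h4
  refine ⟨P, hP, ?_, h1, hrel⟩
  by_contra hcon
  push Not at hcon
  apply hI
  obtain ⟨F, hfin, hF, hF'⟩ := hrel
  have hpos : pos P = ∅ := by
    ext x
    simp only [pos, Set.mem_ofPred_eq, Set.mem_empty_iff_false, iff_false, not_and, not_not]
    intro hx
    exact hcon _ (Γ.inv_mem (hP.1 x hx))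
  refine ⟨F, hfin, fun x hx => hΘΓ (hF hx), fun x hx => ?_⟩
  rw [hpos, Set.union_empty] at hF'
  exact hF' ⟨hcon x hx, hcon _ (Γ.inv_mem hx)⟩

end Pool.TFM
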