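import Mathlib
import Pool.Agent.TFM.Dich

/-!
# The Bieri-Strebel argument for abelian groups of finite torsion-free rank
-/

set_option autoImplicit false

namespace Pool.TFM

variable {G : Type} [CommGroup G] {Γ : Subgroup G}

/-- restriction of the group of translations -/
def Cl.restrict (C : Cl G Γ) (Γ' : Subgroup G) (h : Γ' ≤ Γ) : Cl G Γ' where
  cl := C.cl
  sub := C.sub
  idem := C.idem
  fin := C.fin
  inv g hg := C.inv g (h hg)

/-- scalar product as a homomorphism -/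
noncomputable def dotH {n : ℕ} (v : Fin n → ℝ) : (Fin n → ℤ) →+ ℝ where
  toFun := dot v
  map_zero' := dot_zero v
  map_add' := dot_add v

theorem dotH_apply {n : ℕ} (v : Fin n → ℝ) (z : Fin n → ℤ) : dotH v z = dot v z := rfl

/-- the parametrisation as a homomorphism -/
noncomputable def phiH {n : ℕ} (g : Fin n → G) : (Fin n → ℤ) →+ Additive G where
  toFun z := Additive.ofMul (phi g z)
  map_zero' := congrArg Additive.ofMul (phi_zero g)
  map_add' z w := congrArg Additive.ofMul (phi_add g z w)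

theorem phiH_apply {n : ℕ} (g : Fin n → G) (z : Fin n → ℤ) :
    Additive.toMul (phiH g z) = phi g z := rfl

theorem phi_nsmul {n : ℕ} (g : Fin n → G) (m : ℕ) (z : Fin n → ℤ) :
    phi g (m • z) = phi g z ^ m := by
  rw [← phiH_apply, map_nsmul]
  rfl

theorem dot_nsmul {n : ℕ} (v : Fin n → ℝ) (m : ℕ) (z : Fin n → ℤ) :
    dot v (m • z) = m * dot v z := by
  rw [← dotH_apply, map_nsmul, nsmul_eq_mul, dotH_apply]

theorem dot_smul' {n : ℕ} (c : ℝ) (v : Fin n → ℝ) (z : Fin n → ℤ) :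
    dot (c • v) z = c * dot v z := dot_smul c v z

/-- half spaces for groups which are torsion modulo the parametrised subgroup -/
theorem half_space2 (C : Cl G Γ) {n : ℕ} (g : Fin n → G)
    (hgΓ : ∀ i, g i ∈ Γ)
    (htor : ∀ x ∈ Γ, ∃ m : ℕ, 0 < m ∧ ∃ z, x ^ m = phi g z)
    (h : ∀ P : Submonoid G, Tot Γ P → (∃ x ∈ Γ, x ∉ P) → (1 : G) ∈ C.cl (pos P))
    (v : Fin n → ℝ) (hv : v ≠ 0) :
    ∃ F : Finset G, (F : Set G) ⊆ Γ ∧ (1 : G) ∈ C.cl F ∧
      ∀ f ∈ F, ∃ m : ℕ, 0 < m ∧ ∃ z, f ^ m = phi g z ∧ 0 < dot v z := by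
  classical
  let P : Submonoid G :=
    { carrier := {x | x ∈ Γ ∧ ∃ m : ℕ, 0 < m ∧ ∃ z, x ^ m = phi g z ∧ 0 ≤ dot v z}
      mul_mem' := by
        rintro x y ⟨hx, m, hm, z, hz, hz'⟩ ⟨hy, k, hk, w, hw, hw'⟩
        refine ⟨Γ.mul_mem hx hy, m * k, Nat.mul_pos hm hk, k • z + m • w, ?_, ?_⟩
        · rw [phi_add, phi_nsmul, phi_nsmul, ← hz, ← hw, mul_pow, ← pow_mul, ← pow_mul,
            mul_comm k m]
        · rw [dot_add, dot_nsmul, dot_nsmul]
          positivity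
      one_mem' := ⟨Γ.one_mem, 1, one_pos, 0, by rw [phi_zero, one_pow], by rw [dot_zero]⟩ }
  have hP : Tot Γ P := by
    refine ⟨fun x hx => hx.1, fun x hx => ?_⟩
    obtain ⟨m, hm, z, hz⟩ := htor x hx
    rcases le_total 0 (dot v z) with h1 | h1
    · exact Or.inl ⟨hx, m, hm, z, hz, h1⟩
    · refine Or.inr ⟨Γ.inv_mem hx, m, hm, -z, ?_, ?_⟩
      · rw [inv_pow, hz, phi_neg]
      · rw [dot_neg]; linarith
  by_cases hex : ∃ x ∈ Γ, x ∉ P
  · obtain ⟨F, hF, hfin, h1⟩ := C.fin _ _ (h P hP hex)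
    refine ⟨hfin.toFinset, ?_, ?_, ?_⟩
    · intro x hx
      rw [Finset.mem_coe, hfin.mem_toFinset] at hx
      exact (hF hx).1.1
    · rwa [hfin.coe_toFinset]
    · intro f hf
      rw [hfin.mem_toFinset] at hf
      obtain ⟨⟨hfΓ, m, hm, z, hz, -⟩, hn⟩ := hF hf
      refine ⟨m, hm, z, hz, ?_⟩
      by_contra hcon
      refine hn ⟨Γ.inv_mem hfΓ, m, hm, -z, ?_, ?_⟩
      · rw [inv_pow, hz, phi_neg]
      · rw [dot_neg]; linarith
  · push Not at hex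
    obtain ⟨z0, hz0⟩ := exists_neg_dot v hv
    obtain ⟨-, m, hm, z1, hz1, hz1'⟩ := hex (phi g z0) (phi_mem g hgΓ z0)
    refine ⟨{1}, ?_, C.sub _ (by simp), ?_⟩
    · intro x hx
      rw [Finset.mem_coe, Finset.mem_singleton] at hx
      rw [hx]; exact Γ.one_mem
    · intro f hf
      rw [Finset.mem_singleton] at hf
      refine ⟨1, one_pos, z1 + -(m • z0), ?_, ?_⟩
      · rw [hf, one_pow, phi_add, phi_neg, phi_nsmul, hz1, mul_inv_cancel]
      · rw [dot_add, dot_neg, dot_nsmul]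
        have : (0 : ℝ) < m := by exact_mod_cast hm
        nlinarith

/-- finitely many relations suffice for all half spaces -/
theorem finite_relations (C : Cl G Γ) {n : ℕ} (g : Fin n → G)
    (hgΓ : ∀ i, g i ∈ Γ)
    (htor : ∀ x ∈ Γ, ∃ m : ℕ, 0 < m ∧ ∃ z, x ^ m = phi g z)
    (h : ∀ P : Submonoid G, Tot Γ P → (∃ x ∈ Γ, x ∉ P) → (1 : G) ∈ C.cl (pos P)) :
    ∃ T : Finset (Finset G), (∀ F ∈ T, (F : Set G) ⊆ Γ ∧ (1 : G) ∈ C.cl F) ∧
      ∀ v : Fin n → ℝ, v ≠ 0 → ∃ F ∈ T,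
        ∀ f ∈ F, ∃ m : ℕ, 0 < m ∧ ∃ z, f ^ m = phi g z ∧ 0 < dot v z := by
  classical
  let ι := {F : Finset G // (F : Set G) ⊆ Γ ∧ (1 : G) ∈ C.cl F}
  let U : ι → Set (Fin n → ℝ) := fun i => ⋂ f ∈ i.1,
    ⋃ (m : ℕ) (_ : 0 < m) (z : Fin n → ℤ) (_ : f ^ m = phi g z), {v | 0 < dot v z}
  have hmemU : ∀ i v, v ∈ U i ↔ ∀ f ∈ i.1, ∃ m : ℕ, 0 < m ∧ ∃ z, f ^ m = phi g z ∧
      0 < dot v z := by
    intro i v
    simp only [U, Set.mem_iInter, Set.mem_iUnion, Set.mem_ofPred_eq, exists_prop]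
  have hUo : ∀ i, IsOpen (U i) := by
    intro i
    refine isOpen_biInter_finset (fun f _ => ?_)
    refine isOpen_iUnion (fun m => isOpen_iUnion (fun _ => isOpen_iUnion (fun z =>
      isOpen_iUnion (fun _ => ?_))))
    exact isOpen_lt continuous_const (dot_continuous z)
  have hcov : Metric.sphere (0 : Fin n → ℝ) 1 ⊆ ⋃ i, U i := by
    intro v hv
    have hv1 : ‖v‖ = 1 := by simpa using hv
    have hv0 : v ≠ 0 := by
      intro h0
      rw [h0, norm_zero] at hv1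
      exact zero_ne_one hv1
    obtain ⟨F, hF, hF1, hF2⟩ := half_space2 C g hgΓ htor h v hv0
    exact Set.mem_iUnion.2 ⟨⟨F, hF, hF1⟩, (hmemU _ _).2 hF2⟩
  obtain ⟨t, ht⟩ := (isCompact_sphere (0 : Fin n → ℝ) 1).elim_finite_subcover U hUo hcov
  refine ⟨t.image (fun i => i.1), ?_, ?_⟩
  · intro F hF
    obtain ⟨i, -, rfl⟩ := Finset.mem_image.1 hF
    exact i.2
  · intro v hv
    have hpos : 0 < ‖v‖ := norm_pos_iff.2 hv
    have hv' : (‖v‖)⁻¹ • v ∈ Metric.sphere (0 : Fin n → ℝ) 1 := by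
      rw [mem_sphere_zero_iff_norm, norm_smul, norm_inv, norm_norm, inv_mul_cancel₀ hpos.ne']
    obtain ⟨i, hi, hvi⟩ := Set.mem_iUnion₂.1 (ht hv')
    refine ⟨i.1, Finset.mem_image_of_mem _ hi, fun f hf => ?_⟩
    obtain ⟨m, hm, z, hz, hz'⟩ := (hmemU i _).1 hvi f hf
    refine ⟨m, hm, z, hz, ?_⟩
    rw [dot_smul] at hz'
    exact (mul_pos_iff_of_pos_left (inv_pos.2 hpos)).1 hz'

/-- The Bieri-Strebel argument for groups of finite torsion-free rank. -/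
theorem bs2 (C : Cl G Γ) (Γ0 : Subgroup G) (h0 : Γ0 ≤ Γ) (hfg : Γ0.FG)
    (htor : ∀ x ∈ Γ, ∃ m : ℕ, 0 < m ∧ x ^ m ∈ Γ0)
    (h : ∀ P : Submonoid G, Tot Γ P → (∃ x ∈ Γ, x ∉ P) → (1 : G) ∈ C.cl (pos P)) :
    ∃ Γ2 : Subgroup G, Γ2 ≤ Γ ∧ Γ2.FG ∧ ∀ Γ' : Subgroup G, Γ2 ≤ Γ' → Γ' ≤ Γ → Γ'.FG →
      ∃ F : Set G, F.Finite ∧ F ⊆ Γ' ∧ (Γ' : Set G) ⊆ C.cl F := by
  classical
  obtain ⟨n, g, hg⟩ := exists_gens hfg
  have hgΓ0 : ∀ i, g i ∈ Γ0 := fun i => by rw [← hg]; exact Subgroup.subset_closure ⟨i, rfl⟩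
  have hgΓ : ∀ i, g i ∈ Γ := fun i => h0 (hgΓ0 i)
  have htor' : ∀ x ∈ Γ, ∃ m : ℕ, 0 < m ∧ ∃ z, x ^ m = phi g z := by
    intro x hx
    obtain ⟨m, hm, hxm⟩ := htor x hx
    obtain ⟨z, hz⟩ := phi_surj g hg _ hxm
    exact ⟨m, hm, z, hz.symm⟩
  obtain ⟨T, hT, hTv⟩ := finite_relations C g hgΓ htor' h
  let X : Finset G := T.biUnion id
  have hXΓ : (X : Set G) ⊆ Γ := by
    intro x hx
    rw [Finset.mem_coe, Finset.mem_biUnion] at hx
    obtain ⟨F, hF, hx⟩ := hx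
    exact (hT F hF).1 hx
  refine ⟨Γ0 ⊔ Subgroup.closure (X : Set G), sup_le h0 ((Subgroup.closure_le _).2 hXΓ),
    hfg.sup ⟨X, rfl⟩, ?_⟩
  intro Γ' hΓ2 hΓ' hfg'
  obtain ⟨n', g', hg'⟩ := exists_gens hfg'
  refine bsHS (C.restrict Γ' hΓ') g' hg' (fun v' hv' => ?_)
  change ∃ F : Finset (Fin n' → ℤ), (∀ f ∈ F, 0 < dot v' f) ∧
    (1 : G) ∈ C.cl (phi g' '' (F : Set (Fin n' → ℤ)))
  by_cases hker : ∃ k, phi g' k = 1 ∧ 0 < dot v' k
  · obtain ⟨k, hk, hk'⟩ := hker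
    refine ⟨{k}, fun f hf => by rw [Finset.mem_singleton.1 hf]; exact hk', ?_⟩
    refine C.sub _ ⟨k, by simp, hk⟩
  push Not at hker
  have hker0 : ∀ k, phi g' k = 1 → dot v' k = 0 := by
    intro k hk
    refine le_antisymm (hker k hk) ?_
    have h1 := hker (-k) (by rw [phi_neg, hk, inv_one])
    rw [dot_neg] at h1
    linarith
  have hfac : ∀ a b, phi g' a = phi g' b → dot v' a = dot v' b := by
    intro a b hab
    have h1 := hker0 (a + -b) (by rw [phi_add, phi_neg, hab, mul_inv_cancel])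
    rw [dot_add, dot_neg] at h1
    linarith
  -- the restriction to `Γ0`
  have hlift : ∀ i, ∃ z, phi g' z = g i := fun i =>
    phi_surj g' hg' _ (hΓ2 (Subgroup.mem_sup_left (hgΓ0 i)))
  choose zz hzz using hlift
  let v : Fin n → ℝ := fun i => dot v' (zz i)
  let lin : (Fin n → ℤ) → (Fin n' → ℤ) := fun z => ∑ i, z i • zz i
  have hlin1 : ∀ z, phi g' (lin z) = phi g z := by
    intro z
    rw [← phiH_apply]
    change Additive.toMul (phiH g' (∑ i, z i • zz i)) = _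
    rw [map_sum]
    unfold phi
    rw [toMul_sum]
    refine Finset.prod_congr rfl (fun i _ => ?_)
    rw [map_zsmul, toMul_zsmul, phiH_apply, hzz]
  have hlin2 : ∀ z, dot v' (lin z) = dot v z := by
    intro z
    rw [← dotH_apply]
    change dotH v' (∑ i, z i • zz i) = _
    rw [map_sum]
    unfold dot
    refine Finset.sum_congr rfl (fun i _ => ?_)
    rw [map_zsmul, dotH_apply, zsmul_eq_mul, mul_comm]
  have hv : v ≠ 0 := by
    intro hv0
    obtain ⟨w, hw⟩ := exists_neg_dot v' hv'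
    obtain ⟨m, hm, z, hz⟩ := htor' _ (hΓ' (phi_mem g' (fun i => by
      rw [← hg']; exact Subgroup.subset_closure ⟨i, rfl⟩) w))
    have h1 := hfac (m • w) (lin z) (by rw [phi_nsmul, hlin1, hz])
    rw [dot_nsmul, hlin2, hv0] at h1
    have h2 : dot (0 : Fin n → ℝ) z = 0 := by simp [dot]
    rw [h2] at h1
    have h3 : (0 : ℝ) < m := by exact_mod_cast hm
    nlinarith
  obtain ⟨F, hF, hFv⟩ := hTv v hv
  have hFΓ' : ∀ f ∈ F, f ∈ Γ' := fun f hf => hΓ2 (Subgroup.mem_sup_right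
    (Subgroup.subset_closure (Finset.mem_coe.2 (Finset.mem_biUnion.2 ⟨F, hF, hf⟩))))
  have hch : ∀ f ∈ F, ∃ w, phi g' w = f ∧ 0 < dot v' w := by
    intro f hf
    obtain ⟨w, hw⟩ := phi_surj g' hg' f (hFΓ' f hf)
    obtain ⟨m, hm, z, hz, hz'⟩ := hFv f hf
    refine ⟨w, hw, ?_⟩
    have h1 := hfac (m • w) (lin z) (by rw [phi_nsmul, hlin1, hw, hz])
    rw [dot_nsmul, hlin2] at h1
    have h3 : (0 : ℝ) < m := by exact_mod_cast hm
    by_contra hcon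
    nlinarith
  choose! w hw1 hw2 using hch
  refine ⟨F.image w, ?_, ?_⟩
  · intro f hf
    obtain ⟨x, hx, rfl⟩ := Finset.mem_image.1 hf
    exact hw2 x hx
  · refine C.mono ?_ (hT F hF).2
    intro x hx
    refine ⟨w x, ?_, hw1 x hx⟩
    rw [Finset.mem_coe]
    exact Finset.mem_image_of_mem _ hx

end Pool.TFM
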