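import Mathlib
import Pool.Agent.TFM.BSb

/-!
# Minimal total submonoids
-/

set_option autoImplicit false

namespace Pool.TFM

variable {G : Type} [CommGroup G] {Γ : Subgroup G}

theorem zorn_min (C : Cl G Γ)
    (h : ∃ P : Submonoid G, Tot Γ P ∧ (∃ x ∈ Γ, x ∉ P) ∧ (1 : G) ∉ C.cl (pos P)) :
    ∃ P : Submonoid G, Tot Γ P ∧ (∃ x ∈ Γ, x ∉ P) ∧ (1 : G) ∉ C.cl (pos P) ∧
      ∀ P' : Submonoid G, Tot (theta P) P' → (∃ x ∈ theta P, x ∉ P') →
        (1 : G) ∈ C.cl (pos P' ∪ pos P) := by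
  classical
  obtain ⟨P0, hP0, ⟨y0, hy0, hy0'⟩, hP01⟩ := h
  let S : Set (Set G) := {X | ∃ P : Submonoid G, (P : Set G) = X ∧ Tot Γ P ∧ (1 : G) ∉ C.cl (pos P)}
  have hP0S : (P0 : Set G) ∈ S := ⟨P0, rfl, hP0, hP01⟩
  obtain ⟨m, hm0, hm⟩ := zorn_superset_nonempty S (by
    intro c hc hchain hne
    let P : Submonoid G :=
      { carrier := ⋂₀ c
        mul_mem' := by
          intro a b ha hb
          refine Set.mem_sInter.2 (fun X hX => ?_)
          obtain ⟨P, rfl, -⟩ := hc hX
          exact P.mul_mem (Set.mem_sInter.1 ha _ hX) (Set.mem_sInter.1 hb _ hX)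
        one_mem' := by
          refine Set.mem_sInter.2 (fun X hX => ?_)
          obtain ⟨P, rfl, -⟩ := hc hX
          exact P.one_mem }
    refine ⟨⋂₀ c, ⟨P, rfl, ⟨?_, ?_⟩, ?_⟩, fun s hs => Set.sInter_subset_of_mem hs⟩
    · intro x hx
      obtain ⟨X, hX⟩ := hne
      obtain ⟨P', rfl, hP', -⟩ := hc hX
      exact hP'.1 x (Set.mem_sInter.1 hx _ hX)
    · intro g hg
      by_cases h1 : g ∈ P
      · exact Or.inl h1
      · right
        have h2 : ∃ X ∈ c, g ∉ X := by
          by_contra hcon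
          push Not at hcon
          exact h1 (Set.mem_sInter.2 hcon)
        obtain ⟨X, hX, hgX⟩ := h2
        refine Set.mem_sInter.2 (fun Y hY => ?_)
        rcases hchain.total hX hY with h3 | h3
        · obtain ⟨P', rfl, hP', -⟩ := hc hX
          exact h3 ((hP'.2 g hg).resolve_left hgX)
        · obtain ⟨P', rfl, hP', -⟩ := hc hY
          exact (hP'.2 g hg).resolve_left (fun h4 => hgX (h3 h4))
    · intro h1
      obtain ⟨F, hF, hfin, h1F⟩ := C.fin _ _ h1
      -- a member of the chain for which `F` is positive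
      have hfind : ∀ F : Set G, F.Finite → F ⊆ pos P → ∃ X ∈ c, ∀ x ∈ F, x⁻¹ ∉ X := by
        intro F hfin
        refine Set.Finite.induction_on F hfin ?_ ?_
        · intro _
          obtain ⟨X, hX⟩ := hne
          exact ⟨X, hX, fun x hx => absurd hx (Set.notMem_empty x)⟩
        · intro a s _ _ ih has
          obtain ⟨X, hX, hX1⟩ := ih ((Set.subset_insert a s).trans has)
          have h2 : ∃ Y ∈ c, a⁻¹ ∉ Y := by
            by_contra hcon
            push Not at hcon
            exact (has (Set.mem_insert a s)).2 (Set.mem_sInter.2 hcon)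
          obtain ⟨Y, hY, haY⟩ := h2
          rcases hchain.total hX hY with h3 | h3
          · refine ⟨X, hX, fun x hx => ?_⟩
            rcases hx with rfl | hx
            · exact fun h4 => haY (h3 h4)
            · exact hX1 x hx
          · refine ⟨Y, hY, fun x hx => ?_⟩
            rcases hx with rfl | hx
            · exact haY
            · exact fun h4 => hX1 x hx (h3 h4)
      obtain ⟨X, hX, hXF⟩ := hfind F hfin hF
      obtain ⟨P', rfl, hP', h1'⟩ := hc hX
      have hsub : F ⊆ pos P' := fun x hx => ⟨Set.mem_sInter.1 (hF hx).1 _ hX, hXF x hx⟩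
      exact h1' (C.mono hsub h1F)) _ hP0S
  obtain ⟨⟨P, rfl, hP, h1⟩, hmin⟩ := hm
  refine ⟨P, hP, ⟨y0, hy0, fun h2 => hy0' (hm0 h2)⟩, h1, ?_⟩
  intro P' hP' ⟨x0, hx0, hx0'⟩
  by_contra hcon
  let P'' : Submonoid G :=
    { carrier := {x | x ∈ pos P ∨ x ∈ P'}
      mul_mem' := by
        rintro a b (ha | ha) (hb | hb)
        · exact Or.inl (pos_mul ha.1 hb)
        · refine Or.inl ?_
          rw [mul_comm]
          exact pos_mul (hP'.1 b hb).1 ha
        · exact Or.inl (pos_mul (hP'.1 a ha).1 hb)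
        · exact Or.inr (P'.mul_mem ha hb)
      one_mem' := Or.inr P'.one_mem }
  have hsub : (P'' : Set G) ⊆ P := by
    rintro x (hx | hx)
    · exact hx.1
    · exact (hP'.1 x hx).1
  have hmem : (P'' : Set G) ∈ S := by
    refine ⟨P'', rfl, ⟨fun x hx => hP.1 x (hsub hx), fun g hg => ?_⟩, fun h2 => hcon ?_⟩
    · by_cases hgΘ : g ∈ theta P
      · rcases hP'.2 g hgΘ with h3 | h3
        · exact Or.inl (Or.inr h3)
        · exact Or.inr (Or.inr h3)
      · rcases hP.2 g hg with h3 | h3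
        · exact Or.inl (Or.inl ⟨h3, fun h4 => hgΘ ⟨h3, h4⟩⟩)
        · refine Or.inr (Or.inl ⟨h3, fun h4 => hgΘ ⟨?_, h3⟩⟩)
          rwa [inv_inv] at h4
    · refine C.mono ?_ h2
      rintro x ⟨hx | hx, hx'⟩
      · exact Or.inr hx
      · exact Or.inl ⟨hx, fun h3 => hx' (Or.inr h3)⟩
  have h3 := hmin hmem hsub
  rcases h3 hx0.1 with h4 | h4
  · exact h4.2 hx0.2
  · exact hx0' h4

end Pool.TFM
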