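import Mathlib
import Pool.Agent.TFM.Dich
import Pool.Agent.TFR.Rank

/-!
# From total submonoids to ordered groups
-/

set_option autoImplicit false

namespace Pool.TFM

open Cardinal Pool.TFR

theorem exists_order {G : Type} [CommGroup G] (P : Submonoid G) (hP : ∀ g, g ∈ P ∨ g⁻¹ ∈ P) :
    ∃ (Λ : Type) (_ : CommGroup Λ) (_ : LinearOrder Λ) (_ : IsOrderedMonoid Λ) (lv : G →* Λ),
      Function.Surjective lv ∧ ∀ g, 1 ≤ lv g ↔ g ∈ P := by
  classical
  let T : Subgroup G := theta P
  let f : G →* G ⧸ T := QuotientGroup.mk' T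
  have hf : Function.Surjective f := QuotientGroup.mk'_surjective T
  have hker : ∀ x, f x = 1 ↔ x ∈ T := fun x => QuotientGroup.eq_one_iff x
  have hmem : ∀ g, f g ∈ P.map f ↔ g ∈ P := by
    intro g
    refine ⟨?_, fun h => ⟨g, h, rfl⟩⟩
    rintro ⟨x, hx, hxg⟩
    have h1 : f (x⁻¹ * g) = 1 := by rw [map_mul, map_inv, hxg, inv_mul_cancel]
    have h2 := P.mul_mem hx ((hker _).1 h1).1
    rwa [mul_inv_cancel_left] at h2
  let C : GroupCone (G ⧸ T) :=
    { P.map f with
      eq_one_of_mem_of_inv_mem' := by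
        intro a ha ha'
        obtain ⟨x, rfl⟩ := hf a
        refine (hker x).2 ⟨(hmem x).1 ha, (hmem _).1 ?_⟩
        rw [map_inv]; exact ha' }
  have hC : ∀ g, f g ∈ C ↔ g ∈ P := hmem
  have hm : HasMemOrInvMem C := ⟨by
    intro a
    obtain ⟨x, rfl⟩ := hf a
    rcases hP x with h | h
    · exact Or.inl ((hC x).2 h)
    · refine Or.inr ?_
      rw [← map_inv]; exact (hC _).2 h⟩
  let L : LinearOrder (G ⧸ T) := LinearOrder.mkOfGroupCone C
  refine ⟨G ⧸ T, inferInstance, L, IsOrderedMonoid.mkOfCone C, f, hf, fun g => ?_⟩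
  rw [← hC g]
  change f g / 1 ∈ C ↔ f g ∈ C
  rw [div_one]

theorem ra_ordered_ne {Λ : Type} [CommGroup Λ] [LinearOrder Λ] [IsOrderedMonoid Λ] {a : Λ}
    (ha : 1 < a) : ra Λ ≠ 0 := by
  intro h
  unfold ra at h
  rw [rank_eq_zero_iff] at h
  obtain ⟨m, hm, h1⟩ := h (Additive.ofMul a)
  have h2 : a ^ m = 1 := h1
  have h3 : a ^ m.natAbs = 1 := by
    rcases Int.natAbs_eq m with h4 | h4
    · rw [← zpow_natCast, ← h4]; exact h2
    · rw [← zpow_natCast]
      have : ((m.natAbs : ℕ) : ℤ) = -m := by omega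
      rw [this, zpow_neg, h2, inv_one]
  exact absurd h3 (one_lt_pow' ha (Int.natAbs_ne_zero.2 hm)).ne'

/-- subgroups of finitely generated commutative groups -/
theorem fg_of_le {G : Type} [CommGroup G] [Group.FG G] (S : Subgroup G) : S.FG := by
  have h1 : Module.Finite ℤ (Additive G) := inferInstance
  have h2 : IsNoetherian ℤ (Additive G) := inferInstance
  have h3 := h2.noetherian (AddSubgroup.toIntSubmodule S.toAddSubgroup)
  rw [Subgroup.fg_iff_add_fg]
  rw [Submodule.fg_iff_addSubgroup_fg] at h3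
  simpa using h3

theorem ra_lt_of_fg {G : Type} [CommGroup G] [Group.FG G] (S : Subgroup G) : ra ↥S < ℵ₀ := by
  have h1 : Module.Finite ℤ (Additive G) := inferInstance
  exact lt_of_le_of_lt (ra_le_of_injective S.subtype S.subtype_injective)
    (Module.rank_lt_aleph0 ℤ (Additive G))

end Pool.TFM
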