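import Mathlib
import Pool.Agent.TFM.Dich

/-!
# Groups acting transitively on the elements of augmentation one
-/

set_option autoImplicit false

namespace Pool.TFM

/-- A group `H` acts semilinearly on the `R`-module `V`, transitively on the set of elements of
augmentation one.  The ring `R` is an augmented ring whose augmentation ideal is nil.  The map
`q` is the quotient map by the stabiliser of the line through `c`. -/
structure Amb (p : ℕ) (H G R V : Type) [Group H] [CommGroup G] [CommRing R] [AddCommGroup V]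
    [Module R V] where
  act : H →* Module.End ℤ V
  q : H →* G
  q_surj : Function.Surjective q
  eps : V →+ ZMod p
  aug : R →+* ZMod p
  eps_smul : ∀ (r : R) (v : V), eps (r • v) = aug r * eps v
  eps_act : ∀ (h : H) (v : V), eps (act h v) = eps v
  nil : ∀ r, aug r = 0 → IsNilpotent r
  conj : ∀ (h : H) (r : R), ∃ r' : R, ∀ v : V, act h (r • v) = r' • act h v
  c : V
  eps_c : eps c = 1
  trans : ∀ x : V, eps x = 1 → ∃ h, act h c = x
  ker_q : ∀ h : H, q h = 1 ↔ act h c ∈ Submodule.span R {c}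

namespace Amb

variable {p : ℕ} {H G R V : Type} [Group H] [CommGroup G] [CommRing R] [AddCommGroup V]
  [Module R V] (A : Amb p H G R V)

theorem act_inv_act (h : H) (v : V) : A.act h⁻¹ (A.act h v) = v := by
  rw [← Module.End.mul_apply, ← map_mul, inv_mul_cancel, map_one]
  rfl

theorem act_act_inv (h : H) (v : V) : A.act h (A.act h⁻¹ v) = v := by
  rw [← Module.End.mul_apply, ← map_mul, mul_inv_cancel, map_one]
  rfl

theorem act_mul (h h' : H) (v : V) : A.act (h * h') v = A.act h (A.act h' v) := by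
  rw [map_mul, Module.End.mul_apply]

theorem act_one (v : V) : A.act 1 v = v := by
  rw [map_one]; rfl

/-- the augmentation ideal -/
def J : Ideal R := RingHom.ker A.aug

theorem mem_J {r : R} : r ∈ A.J ↔ A.aug r = 0 := RingHom.mem_ker

theorem J_le_nil : A.J ≤ nilradical R := fun r hr => A.nil r (A.mem_J.1 hr)

theorem J_le_jac : A.J ≤ Ideal.jacobson ⊥ :=
  A.J_le_nil.trans (by rw [nilradical]; exact Ideal.radical_le_jacobson)

theorem exists_conj (h : H) (r : R) :
    ∃ r' : R, A.aug r' = A.aug r ∧ ∀ v, A.act h (r • v) = r' • A.act h v := by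
  obtain ⟨r', hr'⟩ := A.conj h r
  refine ⟨r', ?_, hr'⟩
  have h1 := congrArg A.eps (hr' A.c)
  rw [A.eps_act, A.eps_smul, A.eps_smul, A.eps_act, A.eps_c, mul_one, mul_one] at h1
  exact h1.symm

theorem isUnit_of_aug [hp : Fact p.Prime] {r : R} (h : A.aug r ≠ 0) : IsUnit r := by
  obtain ⟨n, hn⟩ := ZMod.natCast_zmod_surjective (A.aug r)⁻¹
  have h1 : A.aug (n * r - 1) = 0 := by
    rw [map_sub, map_mul, map_natCast, hn, map_one, inv_mul_cancel₀ h, sub_self]
  have h2 := A.nil _ h1
  have h3 : IsUnit ((n : R) * r) := by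
    have := h2.isUnit_add_one
    rwa [sub_add_cancel] at this
  exact isUnit_of_mul_isUnit_right h3

/-- translates of submodules -/
def tr (h : H) (N : Submodule R V) : Submodule R V where
  carrier := {v | A.act h⁻¹ v ∈ N}
  add_mem' := by
    intro a b ha hb
    change A.act h⁻¹ (a + b) ∈ N
    rw [map_add]; exact N.add_mem ha hb
  zero_mem' := by
    change A.act h⁻¹ 0 ∈ N
    rw [map_zero]; exact N.zero_mem
  smul_mem' := by
    intro r v hv
    change A.act h⁻¹ (r • v) ∈ N
    obtain ⟨r', hr'⟩ := A.conj h⁻¹ r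
    rw [hr']
    exact N.smul_mem _ hv

theorem mem_tr {h : H} {N : Submodule R V} {v : V} : v ∈ A.tr h N ↔ A.act h⁻¹ v ∈ N := Iff.rfl

theorem act_mem_tr {h : H} {N : Submodule R V} {v : V} : A.act h v ∈ A.tr h N ↔ v ∈ N := by
  rw [mem_tr, act_inv_act]

theorem tr_mul (h h' : H) (N : Submodule R V) : A.tr (h * h') N = A.tr h (A.tr h' N) := by
  ext v
  rw [mem_tr, mem_tr, mem_tr, mul_inv_rev, act_mul]

theorem tr_one (N : Submodule R V) : A.tr 1 N = N := by
  ext v
  rw [mem_tr, inv_one, act_one]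

theorem tr_inv_tr (h : H) (N : Submodule R V) : A.tr h⁻¹ (A.tr h N) = N := by
  rw [← tr_mul, inv_mul_cancel, tr_one]

theorem tr_tr_inv (h : H) (N : Submodule R V) : A.tr h (A.tr h⁻¹ N) = N := by
  rw [← tr_mul, mul_inv_cancel, tr_one]

theorem tr_mono (h : H) {N N' : Submodule R V} (hN : N ≤ N') : A.tr h N ≤ A.tr h N' :=
  fun _ hv => hN hv

/-- translation as an order isomorphism -/
def trI (h : H) : Submodule R V ≃o Submodule R V where
  toFun := A.tr h
  invFun := A.tr h⁻¹
  left_inv := A.tr_inv_tr h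
  right_inv := A.tr_tr_inv h
  map_rel_iff' := by
    intro N N'
    refine ⟨fun h1 => ?_, fun h1 => A.tr_mono h h1⟩
    have := A.tr_mono h⁻¹ h1
    change A.tr h⁻¹ (A.tr h N) ≤ A.tr h⁻¹ (A.tr h N') at this
    rwa [tr_inv_tr, tr_inv_tr] at this

theorem tr_sup (h : H) (N N' : Submodule R V) : A.tr h (N ⊔ N') = A.tr h N ⊔ A.tr h N' :=
  (A.trI h).map_sup N N'

theorem tr_inf (h : H) (N N' : Submodule R V) : A.tr h (N ⊓ N') = A.tr h N ⊓ A.tr h N' :=
  (A.trI h).map_inf N N'

theorem tr_iSup {ι : Sort*} (h : H) (N : ι → Submodule R V) :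
    A.tr h (⨆ i, N i) = ⨆ i, A.tr h (N i) :=
  (A.trI h).map_iSup N

theorem tr_iInf {ι : Sort*} (h : H) (N : ι → Submodule R V) :
    A.tr h (⨅ i, N i) = ⨅ i, A.tr h (N i) :=
  (A.trI h).map_iInf N

theorem tr_inv_eq {h : H} {N : Submodule R V} (e : A.tr h N = N) : A.tr h⁻¹ N = N := by
  conv_lhs => rw [← e]
  exact A.tr_inv_tr h N

theorem tr_span (h : H) (v : V) :
    A.tr h (Submodule.span R {v}) = Submodule.span R {A.act h v} := by
  ext x
  rw [mem_tr, Submodule.mem_span_singleton, Submodule.mem_span_singleton]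
  constructor
  · rintro ⟨r, hr⟩
    obtain ⟨r', hr'⟩ := A.conj h r
    exact ⟨r', by rw [← hr', hr, act_act_inv]⟩
  · rintro ⟨r, hr⟩
    obtain ⟨r', hr'⟩ := A.conj h⁻¹ r
    exact ⟨r', by rw [← hr, hr', act_inv_act]⟩

theorem tr_J_le (h : H) (N : Submodule R V) : A.tr h (A.J • N) ≤ A.J • A.tr h N := by
  have key : ∀ x ∈ A.J • N, A.act h x ∈ A.J • A.tr h N := by
    intro x hx
    refine Submodule.smul_induction_on hx ?_ ?_
    · intro r hr n hn
      obtain ⟨r', hr', h1⟩ := A.exists_conj h r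
      rw [h1]
      refine Submodule.smul_mem_smul (A.mem_J.2 (by rw [hr']; exact A.mem_J.1 hr)) ?_
      exact A.act_mem_tr.2 hn
    · intro x y hx hy
      rw [map_add]
      exact Submodule.add_mem _ hx hy
  intro x hx
  have h1 := key _ hx
  rwa [act_act_inv] at h1

theorem tr_J (h : H) (N : Submodule R V) : A.tr h (A.J • N) = A.J • A.tr h N := by
  refine le_antisymm (A.tr_J_le h N) ?_
  have h1 := A.tr_mono h (A.tr_J_le h⁻¹ (A.tr h N))
  rwa [tr_tr_inv, tr_inv_tr] at h1

/-- the kernel of the augmentation -/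
def M : Submodule R V where
  carrier := {v | A.eps v = 0}
  add_mem' := by
    intro a b ha hb
    change A.eps (a + b) = 0
    rw [map_add, ha, hb, add_zero]
  zero_mem' := map_zero _
  smul_mem' := by
    intro r v hv
    change A.eps (r • v) = 0
    rw [A.eps_smul, hv, mul_zero]

theorem mem_M {v : V} : v ∈ A.M ↔ A.eps v = 0 := Iff.rfl

theorem tr_M (h : H) : A.tr h A.M = A.M := by
  ext v
  rw [mem_tr, mem_M, mem_M, A.eps_act]

theorem J_smul_le_M (N : Submodule R V) : A.J • N ≤ A.M := by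
  rw [Submodule.smul_le]
  intro r hr n _
  rw [mem_M, A.eps_smul, A.mem_J.1 hr, zero_mul]

theorem span_eq_of_mem [Fact p.Prime] {x y : V} (hx : A.eps x ≠ 0)
    (h : x ∈ Submodule.span R {y}) : Submodule.span R {x} = Submodule.span R {y} := by
  obtain ⟨u, rfl⟩ := Submodule.mem_span_singleton.1 h
  have hu : A.aug u ≠ 0 := by
    intro h0
    rw [A.eps_smul, h0, zero_mul] at hx
    exact hx rfl
  exact Submodule.span_singleton_smul_eq (A.isUnit_of_aug hu) y

/-- a section of `q` -/
noncomputable def s (g : G) : H := Function.surjInv A.q_surj g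

theorem q_s (g : G) : A.q (A.s g) = g := Function.surjInv_eq A.q_surj g

/-- representatives of the lines -/
noncomputable def e (g : G) : V := A.act (A.s g) A.c

theorem eps_e (g : G) : A.eps (A.e g) = 1 := by
  rw [e, A.eps_act, A.eps_c]

/-- the lines -/
noncomputable def line (g : G) : Submodule R V := Submodule.span R {A.e g}

theorem e_mem_line (g : G) : A.e g ∈ A.line g := Submodule.mem_span_singleton_self _

theorem line_le {g : G} {N : Submodule R V} : A.line g ≤ N ↔ A.e g ∈ N := by
  rw [line, Submodule.span_singleton_le_iff_mem]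

theorem span_act [Fact p.Prime] (h : H) : Submodule.span R {A.act h A.c} = A.line (A.q h) := by
  have h1 : A.q ((A.s (A.q h))⁻¹ * h) = 1 := by
    rw [map_mul, map_inv, q_s, inv_mul_cancel]
  have h2 := A.span_eq_of_mem (by rw [A.eps_act, A.eps_c]; exact one_ne_zero) ((A.ker_q _).1 h1)
  have h3 := congrArg (A.tr (A.s (A.q h))) h2
  rw [tr_span, tr_span, ← act_mul, mul_inv_cancel_left] at h3
  exact h3

theorem act_mem_iff [Fact p.Prime] {h : H} {N : Submodule R V} :
    A.act h A.c ∈ N ↔ A.line (A.q h) ≤ N := by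
  rw [← span_act, Submodule.span_singleton_le_iff_mem]

theorem tr_line [Fact p.Prime] (h : H) (g : G) : A.tr h (A.line g) = A.line (A.q h * g) := by
  rw [line, tr_span, e, ← act_mul, span_act, map_mul, q_s]

theorem line_one [Fact p.Prime] : A.line 1 = Submodule.span R {A.c} := by
  have := A.span_act 1
  rw [act_one, map_one] at this
  exact this.symm

/-- every element of augmentation one spans a line -/
theorem exists_line [Fact p.Prime] {x : V} (hx : A.eps x = 1) :
    ∃ g : G, A.line g = Submodule.span R {x} := by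
  obtain ⟨h, rfl⟩ := A.trans x hx
  exact ⟨A.q h, (A.span_act h).symm⟩

theorem line_one_le [Fact p.Prime] {g : G} (h : A.line g ≤ Submodule.span R {A.c}) : g = 1 := by
  rw [← A.q_s g, A.ker_q]
  exact A.line_le.1 h

/-- relatively finite index, by means of a finite set of representatives -/
def Fin2 {R V : Type} [CommRing R] [AddCommGroup V] [Module R V] (N1 N2 : Submodule R V) : Prop :=
  ∃ S : Set V, S.Finite ∧ ∀ x ∈ N2, ∃ s ∈ S, x - s ∈ N1

omit [CommGroup G] [Group H] in
theorem Fin2.mono {N1 N2 N1' N2' : Submodule R V} (h : Fin2 N1 N2) (h1 : N1 ≤ N1')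
    (h2 : N2' ≤ N2) : Fin2 N1' N2' := by
  obtain ⟨S, hS, h⟩ := h
  refine ⟨S, hS, fun x hx => ?_⟩
  obtain ⟨s, hs, hxs⟩ := h x (h2 hx)
  exact ⟨s, hs, h1 hxs⟩

omit [CommGroup G] [Group H] in
theorem Fin2.trans {N1 N2 N3 : Submodule R V} (h : Fin2 N1 N2) (h' : Fin2 N2 N3) :
    Fin2 N1 N3 := by
  classical
  obtain ⟨S, hS, h⟩ := h
  obtain ⟨S', hS', h'⟩ := h'
  refine ⟨(fun z : V × V => z.1 + z.2) '' (S ×ˢ S'), (hS.prod hS').image _, fun x hx => ?_⟩
  obtain ⟨s', hs', h1⟩ := h' x hx
  obtain ⟨s, hs, h2⟩ := h _ h1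
  refine ⟨s + s', ⟨(s, s'), ⟨hs, hs'⟩, rfl⟩, ?_⟩
  have : x - (s + s') = x - s' - s := by abel
  rw [this]
  exact h2

/-- a module generated by finitely many elements is finite modulo `J` -/
theorem fin2_of_fg [Fact p.Prime] {N N1 : Submodule R V} (hN : N.FG) (h : A.J • N ≤ N1) :
    Fin2 N1 (N ⊔ N1) := by
  classical
  have := NeZero.of_pos (Fact.out : p.Prime).pos
  obtain ⟨T, rfl⟩ := hN
  have key : ∀ T : Finset V, A.J • Submodule.span R (T : Set V) ≤ N1 →
      Fin2 N1 (Submodule.span R (T : Set V) ⊔ N1) := by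
    intro T
    induction T using Finset.induction_on with
    | empty =>
      intro _
      refine ⟨{0}, Set.finite_singleton _, fun x hx => ⟨0, rfl, ?_⟩⟩
      rw [Finset.coe_empty, Submodule.span_empty, bot_sup_eq] at hx
      rwa [sub_zero]
    | insert t T _ ih =>
      intro h
      obtain ⟨S, hS, hS1⟩ := ih (le_trans (Submodule.smul_mono le_rfl
        (Submodule.span_mono (by rw [Finset.coe_insert]; exact Set.subset_insert t _))) h)
      refine ⟨(fun z : ZMod p × V => z.1.val • t + z.2) '' (Set.univ ×ˢ S),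
        (Set.finite_univ.prod hS).image _, fun x hx => ?_⟩
      rw [Finset.coe_insert, Submodule.span_insert, sup_assoc] at hx
      obtain ⟨y, hy, z, hz, rfl⟩ := Submodule.mem_sup.1 hx
      obtain ⟨r, rfl⟩ := Submodule.mem_span_singleton.1 hy
      obtain ⟨s, hs, hzs⟩ := hS1 z hz
      refine ⟨(A.aug r).val • t + s, ⟨(A.aug r, s), ⟨Set.mem_univ _, hs⟩, rfl⟩, ?_⟩
      have h1 : r • t + z - ((A.aug r).val • t + s) = (r - ((A.aug r).val : R)) • t + (z - s) := by
        rw [sub_smul, Nat.cast_smul_eq_nsmul]; abel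
      rw [h1]
      refine N1.add_mem (h ?_) hzs
      refine Submodule.smul_mem_smul (A.mem_J.2 ?_) (Submodule.subset_span (by simp))
      rw [map_sub, map_natCast, ZMod.natCast_zmod_val, sub_self]
  exact key T h

end Amb

end Pool.TFM
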