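import Mathlib
import Pool.Agent.TFM.Amb

/-!
# Blocks
-/

set_option autoImplicit false

namespace Pool.TFM

namespace Amb

variable {p : ℕ} {H G R V : Type} [Group H] [CommGroup G] [CommRing R] [AddCommGroup V]
  [Module R V] (A : Amb p H G R V)

/-- Blocks of imprimitivity which are submodules. -/
def IsBlock (B : Submodule R V) : Prop :=
  A.c ∈ B ∧ ∀ h, A.act h A.c ∈ B → A.tr h B = B

theorem isBlock_top : A.IsBlock ⊤ :=
  ⟨Submodule.mem_top, fun h _ => (A.trI h).map_top⟩

variable {A}

theorem IsBlock.tr_eq [Fact p.Prime] {B : Submodule R V} (hB : A.IsBlock B) {h : H}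
    (hh : A.line (A.q h) ≤ B) : A.tr h B = B :=
  hB.2 h (A.act_mem_iff.2 hh)

theorem IsBlock.line_one_le [Fact p.Prime] {B : Submodule R V} (hB : A.IsBlock B) :
    A.line 1 ≤ B := by
  rw [A.line_one, Submodule.span_singleton_le_iff_mem]
  exact hB.1

/-- the group of a block -/
def GB [Fact p.Prime] {B : Submodule R V} (hB : A.IsBlock B) : Subgroup G where
  carrier := {g | A.line g ≤ B}
  mul_mem' := by
    intro a b ha hb
    change A.line (a * b) ≤ B
    have h1 := hB.tr_eq (h := A.s a) (by rw [A.q_s]; exact ha)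
    have h2 := A.tr_mono (A.s a) hb
    rwa [h1, A.tr_line, A.q_s] at h2
  one_mem' := hB.line_one_le
  inv_mem' := by
    intro a ha
    change A.line a⁻¹ ≤ B
    have h1 := hB.tr_eq (h := A.s a) (by rw [A.q_s]; exact ha)
    have h2 := A.tr_mono (A.s a)⁻¹ hB.line_one_le
    rwa [A.tr_inv_eq h1, A.tr_line, map_inv, A.q_s, mul_one] at h2

theorem mem_GB [Fact p.Prime] {B : Submodule R V} (hB : A.IsBlock B) {g : G} :
    g ∈ GB hB ↔ A.line g ≤ B := Iff.rfl

theorem IsBlock.tr_GB [Fact p.Prime] {B : Submodule R V} (hB : A.IsBlock B) {h : H}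
    (hh : A.q h ∈ GB hB) : A.tr h B = B := hB.tr_eq hh

theorem GB_mono [Fact p.Prime] {B B' : Submodule R V} (hB : A.IsBlock B) (hB' : A.IsBlock B')
    (h : B ≤ B') : GB hB ≤ GB hB' := fun _ hg => le_trans hg h

/-- an element of augmentation one in a block spans a line of the block -/
theorem IsBlock.exists_line [Fact p.Prime] {B : Submodule R V} (hB : A.IsBlock B) {x : V}
    (hx : x ∈ B) (h1 : A.eps x = 1) : ∃ g ∈ GB hB, A.line g = Submodule.span R {x} := by
  obtain ⟨g, hg⟩ := A.exists_line h1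
  refine ⟨g, ?_, hg⟩
  rw [mem_GB, hg, Submodule.span_singleton_le_iff_mem]
  exact hx

/-- shifting an element to augmentation one -/
theorem exists_shift [Fact p.Prime] (A : Amb p H G R V) (x y : V) (hy : A.eps y = 1) :
    ∃ n : ℕ, A.eps (x + n • y) = 1 := by
  obtain ⟨n, hn⟩ := ZMod.natCast_zmod_surjective (1 - A.eps x)
  refine ⟨n, ?_⟩
  rw [map_add, map_nsmul, hy, nsmul_eq_mul, mul_one, hn]
  abel

/-- a submodule is spanned by the lines it contains, if it contains one -/
theorem IsBlock.le_of_lines [Fact p.Prime] {B N : Submodule R V} (hB : A.IsBlock B)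
    (h : ∀ g ∈ GB hB, A.line g ≤ N) : B ≤ N := by
  intro x hx
  obtain ⟨n, hn⟩ := exists_shift A x A.c A.eps_c
  obtain ⟨g, hg, hgx⟩ := hB.exists_line (B.add_mem hx (B.smul_of_tower_mem n hB.1)) hn
  have h1 : x + n • A.c ∈ N := by
    rw [← Submodule.span_singleton_le_iff_mem, ← hgx]
    exact h g hg
  have h2 : A.c ∈ N := by
    rw [← Submodule.span_singleton_le_iff_mem, ← A.line_one]
    exact h 1 (GB hB).one_mem
  have h3 := N.sub_mem h1 (N.smul_of_tower_mem n h2)
  rwa [add_sub_cancel_right] at h3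

theorem isBlock_sup [Fact p.Prime] {X : Submodule R V} (hX : X ≤ A.M)
    (h : ∀ h, A.act h A.c ∈ Submodule.span R {A.c} ⊔ X → A.tr h X = X) :
    A.IsBlock (Submodule.span R {A.c} ⊔ X) := by
  refine ⟨Submodule.mem_sup_left (Submodule.mem_span_singleton_self _), fun g hg => ?_⟩
  have h1 := h g hg
  obtain ⟨y, hy, z, hz, hyz⟩ := Submodule.mem_sup.1 hg
  have he : A.eps y = 1 := by
    have h2 := congrArg A.eps hyz
    rw [map_add, A.mem_M.1 (hX hz), add_zero, A.eps_act, A.eps_c] at h2
    exact h2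
  have h3 := A.span_eq_of_mem (by rw [he]; exact one_ne_zero) hy
  rw [A.tr_sup, h1, A.tr_span, ← hyz, ← h3]
  refine le_antisymm (sup_le ?_ le_sup_right) (sup_le ?_ le_sup_right)
  · rw [Submodule.span_singleton_le_iff_mem]
    exact Submodule.add_mem _ (Submodule.mem_sup_left (Submodule.mem_span_singleton_self _))
      (Submodule.mem_sup_right hz)
  · rw [Submodule.span_singleton_le_iff_mem]
    have h4 : y = (y + z) - z := by abel
    rw [h4]
    refine Submodule.sub_mem _ (Submodule.mem_sup_left ?_) (Submodule.mem_sup_right hz)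
    rw [add_sub_cancel_right]
    exact Submodule.mem_span_singleton_self _

/-- the next block of the chain -/
theorem isBlock_next [Fact p.Prime] {B : Submodule R V} (hB : A.IsBlock B) :
    A.IsBlock (Submodule.span R {A.c} ⊔ A.J • B) := by
  refine isBlock_sup (A.J_smul_le_M B) (fun h hh => ?_)
  have hle : Submodule.span R {A.c} ⊔ A.J • B ≤ B := by
    refine sup_le ?_ Submodule.smul_le_right
    rw [Submodule.span_singleton_le_iff_mem]
    exact hB.1
  rw [A.tr_J, hB.2 h (hle hh)]

/-- finiteness of the index of the group of a block -/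
theorem coset_finite [Fact p.Prime] {Γ : Subgroup G} {X N : Submodule R V}
    (hX : ∀ h, A.q h ∈ Γ → A.tr h X = X) (hN : ∀ g ∈ Γ, A.e g ∈ N) (hfin : Fin2 X N)
    (h : {g | g ∈ Γ ∧ A.line g ≤ Submodule.span R {A.c} ⊔ X}.Finite) : (Γ : Set G).Finite := by
  classical
  obtain ⟨S, hS, hS1⟩ := hfin
  let t : V → G := fun s => if hs : ∃ g ∈ Γ, A.e g - s ∈ X then hs.choose else 1
  refine Set.Finite.subset ((hS.image t).mul h) ?_
  intro g hg
  obtain ⟨s, hs, hgs⟩ := hS1 _ (hN g hg)
  have hex : ∃ g ∈ Γ, A.e g - s ∈ X := ⟨g, hg, hgs⟩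
  have ht : t s = hex.choose := dif_pos hex
  obtain ⟨h1, h2⟩ := hex.choose_spec
  rw [← ht] at h1 h2
  refine Set.mem_mul.2 ⟨t s, ⟨s, hs, rfl⟩, (t s)⁻¹ * g, ⟨Γ.mul_mem (Γ.inv_mem h1) hg, ?_⟩, by group⟩
  have h3 : A.e g - A.e (t s) ∈ X := by
    have := X.sub_mem hgs h2
    have e : A.e g - s - (A.e (t s) - s) = A.e g - A.e (t s) := by abel
    rwa [e] at this
  have h4 : A.act (A.s (t s))⁻¹ (A.e g - A.e (t s)) ∈ X := by
    have := hX (A.s (t s)) (by rw [A.q_s]; exact h1)
    rw [← A.mem_tr, this]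
    exact h3
  have h5 : A.act (A.s (t s))⁻¹ (A.e (t s)) = A.c := A.act_inv_act _ _
  rw [map_sub, h5] at h4
  have h6 : A.act (A.s (t s))⁻¹ (A.e g) ∈ Submodule.span R {A.c} ⊔ X := by
    have := Submodule.add_mem _ (Submodule.mem_sup_right h4)
      (Submodule.mem_sup_left (Submodule.mem_span_singleton_self A.c))
    rwa [sub_add_cancel] at this
  rw [← Submodule.span_singleton_le_iff_mem, ← A.tr_span, ← line, A.tr_line, map_inv,
    A.q_s] at h6
  exact h6

/-- If the second block of the chain is finitely generated then the chain reaches the line. -/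
theorem exists_pow_le (A : Amb p H G R V) {B : Submodule R V}
    (hfg : (Submodule.span R {A.c} ⊔ A.J • B).FG) :
    ∃ m : ℕ, A.J ^ m • B ≤ Submodule.span R {A.c} := by
  classical
  -- a finitely generated ideal
  have key : ∀ T : Finset V, (T : Set V) ⊆ (Submodule.span R {A.c} ⊔ A.J • B : Submodule R V) →
      ∃ I : Ideal R, I.FG ∧ I ≤ A.J ∧
        (T : Set V) ⊆ (Submodule.span R {A.c} ⊔ I • B : Submodule R V) := by
    intro T
    induction T using Finset.induction_on with
    | empty =>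
      intro _
      exact ⟨⊥, Submodule.fg_bot, bot_le, by simp⟩
    | insert t T _ ih =>
      intro hT
      obtain ⟨I, hI, hIJ, hTI⟩ := ih (fun x hx => hT (by
        rw [Finset.coe_insert]; exact Set.mem_insert_of_mem _ hx))
      obtain ⟨y, hy, z, hz, hyz⟩ := Submodule.mem_sup.1 (hT (show t ∈ _ by simp))
      have h1 : ∀ z ∈ A.J • B, ∃ I' : Ideal R, I'.FG ∧ I' ≤ A.J ∧ z ∈ I' • B := by
        intro z hz
        refine Submodule.smul_induction_on hz ?_ ?_
        · intro r hr n hn
          refine ⟨Ideal.span {r}, ⟨{r}, by simp⟩, ?_, ?_⟩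
          · rw [Ideal.span_singleton_le_iff_mem]; exact hr
          · exact Submodule.smul_mem_smul (Ideal.mem_span_singleton_self r) hn
        · rintro x y ⟨I1, a1, b1, c1⟩ ⟨I2, a2, b2, c2⟩
          refine ⟨I1 ⊔ I2, Submodule.FG.sup a1 a2, sup_le b1 b2, ?_⟩
          exact Submodule.add_mem _ (Submodule.smul_mono le_sup_left le_rfl c1)
            (Submodule.smul_mono le_sup_right le_rfl c2)
      obtain ⟨I', a, b, c⟩ := h1 z hz
      refine ⟨I ⊔ I', Submodule.FG.sup hI a, sup_le hIJ b, ?_⟩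
      rw [Finset.coe_insert]
      rintro x (rfl | hx)
      · rw [← hyz]
        exact Submodule.add_mem_sup hy (Submodule.smul_mono le_sup_right le_rfl c)
      · have h2 : Submodule.span R {A.c} ⊔ I • B ≤ Submodule.span R {A.c} ⊔ (I ⊔ I') • B :=
          sup_le_sup_left (Submodule.smul_mono le_sup_left le_rfl) _
        exact h2 (hTI hx)
  obtain ⟨T, hT⟩ := hfg
  obtain ⟨I, hI, hIJ, hTI⟩ := key T (by rw [← hT]; exact Submodule.subset_span)
  have h1 : A.J • B ≤ Submodule.span R {A.c} ⊔ I • B :=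
    le_sup_right.trans (by rw [← hT]; exact Submodule.span_le.2 hTI)
  have hnil : IsNilpotent I :=
    (Ideal.FG.isNilpotent_iff_le_nilradical hI).2 (hIJ.trans A.J_le_nil)
  obtain ⟨m, hm⟩ := hnil
  have h2 : ∀ k : ℕ, A.J ^ k • B ≤ Submodule.span R {A.c} ⊔ I ^ k • B := by
    intro k
    induction k with
    | zero => rw [pow_zero, pow_zero]; exact le_sup_right
    | succ k ih =>
      rw [pow_succ', ← smul_eq_mul, Submodule.smul_assoc]
      refine (Submodule.smul_mono le_rfl ih).trans ?_
      rw [Submodule.smul_sup]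
      refine sup_le (Submodule.smul_le_right.trans le_sup_left) ?_
      rw [← Submodule.smul_assoc, smul_eq_mul, mul_comm, ← smul_eq_mul, Submodule.smul_assoc]
      refine (Submodule.smul_mono le_rfl h1).trans ?_
      rw [Submodule.smul_sup, ← Submodule.smul_assoc, smul_eq_mul, ← pow_succ]
      exact sup_le_sup_right Submodule.smul_le_right _
  refine ⟨m, ?_⟩
  have h3 := h2 m
  rw [hm, Submodule.zero_eq_bot, Submodule.bot_smul, sup_bot_eq] at h3
  exact h3

/-- **Chain lemma** -/
theorem chain [Fact p.Prime] (m : ℕ) : ∀ {B : Submodule R V} (hB : A.IsBlock B),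
    (∀ B' : Submodule R V, A.IsBlock B' → B' ≤ B → B'.FG) →
    A.J ^ m • B ≤ Submodule.span R {A.c} →
    Fin2 (Submodule.span R {A.c}) B ∧ (GB hB : Set G).Finite := by
  induction m with
  | zero =>
    intro B hB _ h
    rw [pow_zero, Ideal.one_eq_top, Submodule.top_smul] at h
    refine ⟨⟨{0}, Set.finite_singleton _, fun x hx => ⟨0, rfl, by rw [sub_zero]; exact h hx⟩⟩, ?_⟩
    refine (Set.finite_singleton (1 : G)).subset (fun g hg => ?_)
    exact A.line_one_le (le_trans hg h)
  | succ m ih =>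
    intro B hB hfg h
    have hB' := isBlock_next hB
    have hc : Submodule.span R {A.c} ≤ B := by
      rw [Submodule.span_singleton_le_iff_mem]; exact hB.1
    have hle : Submodule.span R {A.c} ⊔ A.J • B ≤ B := sup_le hc Submodule.smul_le_right
    obtain ⟨h1, h2⟩ := ih hB' (fun B' h1 h2 => hfg B' h1 (h2.trans hle)) (by
      rw [Submodule.smul_sup]
      refine sup_le Submodule.smul_le_right ?_
      rw [← Submodule.smul_assoc, smul_eq_mul, ← pow_succ]
      exact h)
    have h3 : Fin2 (A.J • B) B := by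
      have := A.fin2_of_fg (hfg B hB le_rfl) (N1 := A.J • B) le_rfl
      exact this.mono le_rfl le_sup_left
    refine ⟨h1.trans (h3.mono le_sup_right le_rfl), ?_⟩
    refine coset_finite (A := A) (X := A.J • B) (N := B) ?_ ?_ h3 ?_
    · intro g hg
      rw [A.tr_J, hB.tr_GB hg]
    · intro g hg
      exact A.line_le.1 hg
    · exact h2.subset (fun g hg => hg.2)

theorem chain' [Fact p.Prime] {B : Submodule R V} (hB : A.IsBlock B)
    (hfg : ∀ B' : Submodule R V, A.IsBlock B' → B' ≤ B → B'.FG) :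
    Fin2 (Submodule.span R {A.c}) B ∧ (GB hB : Set G).Finite := by
  have hc : Submodule.span R {A.c} ≤ B := by
    rw [Submodule.span_singleton_le_iff_mem]; exact hB.1
  obtain ⟨m, hm⟩ := A.exists_pow_le (B := B)
    (hfg _ (isBlock_next hB) (sup_le hc Submodule.smul_le_right))
  exact chain m hB hfg hm

/-- a block whose group is finite is finitely generated -/
theorem fg_of_lines [Fact p.Prime] {B : Submodule R V} (hB : A.IsBlock B) {F : Set G}
    (hF : F.Finite) (hFB : F ⊆ GB hB) (h : ∀ g ∈ GB hB, A.line g ≤ ⨆ f ∈ F, A.line f) :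
    B.FG := by
  have h1 : B = ⨆ f ∈ F, A.line f := by
    refine le_antisymm (hB.le_of_lines h) ?_
    exact iSup₂_le (fun f hf => hFB hf)
  rw [h1]
  have : (⨆ f ∈ F, A.line f) = ⨆ f ∈ hF.toFinset, A.line f := by simp
  rw [this]
  exact Submodule.fg_biSup _ _ (fun f _ => Submodule.fg_span_singleton _)

theorem fin2_of_finite [Fact p.Prime] {B : Submodule R V} (hB : A.IsBlock B)
    (hfin : (GB hB : Set G).Finite) : Fin2 (Submodule.span R {A.c}) B := by
  refine (chain' hB (fun B' hB' hle => ?_)).1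
  refine fg_of_lines hB' (hfin.subset (GB_mono hB' hB hle)) subset_rfl (fun g hg => ?_)
  exact le_iSup₂_of_le g hg le_rfl

end Amb

end Pool.TFM
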