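import Mathlib
import Pool.Agent.TFM.Blk

/-!
# Blocks with torsion groups and primes
-/

set_option autoImplicit false

namespace Pool.TFM

open scoped Pointwise

section FinCos

variable {G : Type} [CommGroup G]

/-- relatively finite index -/
def FinCos (S' S : Subgroup G) : Prop :=
  ∃ F : Set G, F.Finite ∧ F ⊆ S ∧ ∀ s ∈ S, ∃ f ∈ F, f⁻¹ * s ∈ S'

theorem FinCos.refl (S : Subgroup G) : FinCos S S :=
  ⟨{1}, Set.finite_singleton _, by simp [S.one_mem], fun s hs => ⟨1, rfl, by simpa using hs⟩⟩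

theorem FinCos.trans {S1 S2 S3 : Subgroup G} (h : FinCos S1 S2) (h' : FinCos S2 S3)
    (h23 : S2 ≤ S3) : FinCos S1 S3 := by
  obtain ⟨F, hF, hF1, hF2⟩ := h
  obtain ⟨F', hF', hF1', hF2'⟩ := h'
  refine ⟨F' * F, hF'.mul hF, ?_, ?_⟩
  · rintro _ ⟨a, ha, b, hb, rfl⟩
    exact S3.mul_mem (hF1' ha) (h23 (hF1 hb))
  · intro s hs
    obtain ⟨f', hf', h1⟩ := hF2' s hs
    obtain ⟨f, hf, h2⟩ := hF2 _ h1
    refine ⟨f' * f, ⟨f', hf', f, hf, rfl⟩, ?_⟩
    rwa [mul_inv_rev, mul_assoc]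

theorem FinCos.mono {S1 S2 S3 : Subgroup G} (h : FinCos S1 S3) (h12 : S1 ≤ S2) :
    FinCos S2 S3 := by
  obtain ⟨F, hF, hF1, hF2⟩ := h
  refine ⟨F, hF, hF1, fun s hs => ?_⟩
  obtain ⟨f, hf, h1⟩ := hF2 s hs
  exact ⟨f, hf, h12 h1⟩

theorem FinCos.restrict {S1 S2 S3 : Subgroup G} (h : FinCos S1 S3)
    (h23 : S2 ≤ S3) : FinCos S1 S2 := by
  classical
  obtain ⟨F, hF, hF1, hF2⟩ := h
  let t : G → G := fun f => if hf : ∃ s ∈ S2, f⁻¹ * s ∈ S1 then hf.choose else 1
  refine ⟨t '' F, hF.image t, ?_, ?_⟩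
  · rintro _ ⟨f, -, rfl⟩
    by_cases hf : ∃ s ∈ S2, f⁻¹ * s ∈ S1
    · have : t f = hf.choose := dif_pos hf
      rw [this]; exact hf.choose_spec.1
    · have : t f = 1 := dif_neg hf
      rw [this]; exact S2.one_mem
  · intro s hs
    obtain ⟨f, hf, h1⟩ := hF2 s (h23 hs)
    have hex : ∃ s ∈ S2, f⁻¹ * s ∈ S1 := ⟨s, hs, h1⟩
    have ht : t f = hex.choose := dif_pos hex
    refine ⟨t f, ⟨f, hf, rfl⟩, ?_⟩
    have h2 := hex.choose_spec.2
    rw [← ht] at h2
    have h3 := S1.mul_mem (S1.inv_mem h2) h1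
    have e : (f⁻¹ * t f)⁻¹ * (f⁻¹ * s) = (t f)⁻¹ * s := by group
    rwa [e] at h3

theorem FinCos.finite {S1 S2 : Subgroup G} (h : FinCos S1 S2) (h1 : (S1 : Set G).Finite) :
    (S2 : Set G).Finite := by
  obtain ⟨F, hF, hF1, hF2⟩ := h
  refine (hF.mul h1).subset (fun s hs => ?_)
  obtain ⟨f, hf, h2⟩ := hF2 s hs
  exact ⟨f, hf, _, h2, by group⟩

/-- a uniform exponent -/
theorem FinCos.exists_pow {S1 S2 : Subgroup G} (h : FinCos S1 S2) :
    ∃ m : ℕ, 0 < m ∧ ∀ s ∈ S2, s ^ m ∈ S1 := by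
  classical
  obtain ⟨F, hF, hF1, hF2⟩ := h
  refine ⟨hF.toFinset.card.factorial, Nat.factorial_pos _, fun s hs => ?_⟩
  choose! f hf1 hf2 using hF2
  have hcard : hF.toFinset.card < (Finset.range (hF.toFinset.card + 1)).card := by
    rw [Finset.card_range]; omega
  obtain ⟨i, hi, j, hj, hij, hsij⟩ := Finset.exists_ne_map_eq_of_card_lt_of_maps_to hcard
    (f := fun i => f (s ^ i)) (fun i _ => by
      rw [Finset.mem_coe, hF.mem_toFinset]
      exact hf1 _ (S2.pow_mem hs i))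
  rw [Finset.mem_range] at hi hj
  have key : ∀ i j : ℕ, i < j → j ≤ hF.toFinset.card → f (s ^ i) = f (s ^ j) →
      s ^ hF.toFinset.card.factorial ∈ S1 := by
    intro i j hij hj h
    have h1 := S1.mul_mem (S1.inv_mem (hf2 _ (S2.pow_mem hs i))) (hf2 _ (S2.pow_mem hs j))
    rw [h, mul_inv_rev, inv_inv, mul_assoc, mul_inv_cancel_left] at h1
    have h2 : (s ^ i)⁻¹ * s ^ j = s ^ (j - i) := by
      rw [inv_mul_eq_iff_eq_mul, ← pow_add]; congr 1; omega
    rw [h2] at h1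
    obtain ⟨c, hc⟩ := Nat.dvd_factorial (show 0 < j - i by omega)
      (show j - i ≤ hF.toFinset.card by omega)
    rw [hc, pow_mul]
    exact S1.pow_mem h1 c
  rcases Nat.lt_or_gt_of_ne hij with h1 | h1
  · exact key i j h1 (by omega) hsij
  · exact key j i h1 (by omega) hsij.symm

end FinCos

namespace Amb

variable {p : ℕ} {H G R V : Type} [Group H] [CommGroup G] [CommRing R] [AddCommGroup V]
  [Module R V] {A : Amb p H G R V}

/-- finiteness of the index of the group of a block -/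
theorem coset_cos [Fact p.Prime] {Γ : Subgroup G} {X N : Submodule R V}
    (hX : ∀ h, A.q h ∈ Γ → A.tr h X = X) (hN : ∀ g ∈ Γ, A.e g ∈ N) (hfin : Fin2 X N) :
    ∃ F : Set G, F.Finite ∧ F ⊆ Γ ∧ ∀ g ∈ Γ, ∃ f ∈ F,
      A.line (f⁻¹ * g) ≤ Submodule.span R {A.c} ⊔ X := by
  classical
  obtain ⟨S, hS, hS1⟩ := hfin
  let t : V → G := fun s => if hs : ∃ g ∈ Γ, A.e g - s ∈ X then hs.choose else 1
  refine ⟨t '' S, hS.image t, ?_, ?_⟩
  · rintro _ ⟨s, -, rfl⟩
    by_cases hs : ∃ g ∈ Γ, A.e g - s ∈ X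
    · have : t s = hs.choose := dif_pos hs
      rw [this]; exact hs.choose_spec.1
    · have : t s = 1 := dif_neg hs
      rw [this]; exact Γ.one_mem
  intro g hg
  obtain ⟨s, hs, hgs⟩ := hS1 _ (hN g hg)
  have hex : ∃ g ∈ Γ, A.e g - s ∈ X := ⟨g, hg, hgs⟩
  have ht : t s = hex.choose := dif_pos hex
  obtain ⟨h1, h2⟩ := hex.choose_spec
  rw [← ht] at h1 h2
  refine ⟨t s, ⟨s, hs, rfl⟩, ?_⟩
  have h3 : A.e g - A.e (t s) ∈ X := by
    have := X.sub_mem hgs h2
    have e : A.e g - s - (A.e (t s) - s) = A.e g - A.e (t s) := by abel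
    rwa [e] at this
  have h4 : A.act (A.s (t s))⁻¹ (A.e g - A.e (t s)) ∈ X := by
    have := hX (A.s (t s)) (by rw [A.q_s]; exact h1)
    rw [← A.mem_tr, this]
    exact h3
  have h5 : A.act (A.s (t s))⁻¹ (A.e (t s)) = A.c := A.act_inv_act _ _
  rw [map_sub, h5] at h4
  have h6 : A.act (A.s (t s))⁻¹ (A.e g) ∈ Submodule.span R {A.c} ⊔ X := by
    have := Submodule.add_mem _ (Submodule.mem_sup_right h4)
      (Submodule.mem_sup_left (Submodule.mem_span_singleton_self A.c))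
    rwa [sub_add_cancel] at this
  rw [← Submodule.span_singleton_le_iff_mem, ← A.tr_span, ← line, A.tr_line, map_inv,
    A.q_s] at h6
  exact h6

theorem next_finCos [Fact p.Prime] {B : Submodule R V} (hB : A.IsBlock B) (hfg : B.FG) :
    FinCos (GB (isBlock_next hB)) (GB hB) := by
  have h3 : Fin2 (A.J • B) B := by
    have := A.fin2_of_fg hfg (N1 := A.J • B) le_rfl
    exact this.mono le_rfl le_sup_left
  exact coset_cos (A := A) (X := A.J • B) (N := B)
    (fun g hg => by rw [A.tr_J, hB.tr_GB hg]) (fun g hg => A.line_le.1 hg) h3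

/-- **Chain lemma**, finite index version -/
theorem chain2 [Fact p.Prime] (m : ℕ) : ∀ {B : Submodule R V} (hB : A.IsBlock B),
    (∀ (B' : Submodule R V) (hB' : A.IsBlock B'), B' ≤ B → FinCos (GB hB') (GB hB) → B'.FG) →
    A.J ^ m • B ≤ Submodule.span R {A.c} → (GB hB : Set G).Finite := by
  induction m with
  | zero =>
    intro B hB _ h
    rw [pow_zero, Ideal.one_eq_top, Submodule.top_smul] at h
    refine (Set.finite_singleton (1 : G)).subset (fun g hg => ?_)
    exact A.line_one_le (le_trans hg h)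
  | succ m ih =>
    intro B hB hfg h
    have hB' := isBlock_next hB
    have hc : Submodule.span R {A.c} ≤ B := by
      rw [Submodule.span_singleton_le_iff_mem]; exact hB.1
    have hle : Submodule.span R {A.c} ⊔ A.J • B ≤ B := sup_le hc Submodule.smul_le_right
    have hcos := next_finCos hB (hfg B hB le_rfl (FinCos.refl _))
    refine hcos.finite (ih hB' (fun B' h1 h2 h3 => hfg B' h1 (h2.trans hle)
      (h3.trans hcos (GB_mono _ _ hle))) ?_)
    rw [Submodule.smul_sup]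
    refine sup_le Submodule.smul_le_right ?_
    rw [← Submodule.smul_assoc, smul_eq_mul, ← pow_succ]
    exact h

theorem chain2' [Fact p.Prime] {B : Submodule R V} (hB : A.IsBlock B)
    (hfg : ∀ (B' : Submodule R V) (hB' : A.IsBlock B'), B' ≤ B → FinCos (GB hB') (GB hB) →
      B'.FG) : (GB hB : Set G).Finite := by
  have hc : Submodule.span R {A.c} ≤ B := by
    rw [Submodule.span_singleton_le_iff_mem]; exact hB.1
  obtain ⟨m, hm⟩ := A.exists_pow_le (B := B)
    (hfg _ (isBlock_next hB) (sup_le hc Submodule.smul_le_right)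
      (next_finCos hB (hfg B hB le_rfl (FinCos.refl _))))
  exact chain2 m hB hfg hm

variable (A) in
/-- the span of the lines of a subgroup -/
noncomputable def spn (S : Subgroup G) : Submodule R V := ⨆ g : ↥S, A.line g.1

theorem line_le_spn {S : Subgroup G} {g : G} (hg : g ∈ S) : A.line g ≤ A.spn S :=
  le_iSup (fun g : ↥S => A.line g.1) ⟨g, hg⟩

theorem spn_le {S : Subgroup G} {N : Submodule R V} (h : ∀ g ∈ S, A.line g ≤ N) : A.spn S ≤ N :=
  iSup_le (fun g => h g.1 g.2)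

theorem spn_mono {S S' : Subgroup G} (h : S ≤ S') : A.spn S ≤ A.spn S' :=
  spn_le (fun _ hg => line_le_spn (h hg))

theorem tr_spn_le [Fact p.Prime] {S : Subgroup G} {h : H} (hh : A.q h ∈ S) :
    A.tr h (A.spn S) ≤ A.spn S := by
  unfold spn
  rw [A.tr_iSup]
  refine iSup_le (fun g => ?_)
  rw [A.tr_line]
  exact line_le_spn (S.mul_mem hh g.2)

theorem tr_spn [Fact p.Prime] {S : Subgroup G} {h : H} (hh : A.q h ∈ S) :
    A.tr h (A.spn S) = A.spn S := by
  refine le_antisymm (tr_spn_le hh) ?_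
  have h1 := A.tr_mono h (tr_spn_le (A := A) (S := S) (h := h⁻¹)
    (by rw [map_inv]; exact S.inv_mem hh))
  rwa [A.tr_tr_inv] at h1

theorem IsBlock.eq_spn [Fact p.Prime] {B : Submodule R V} (hB : A.IsBlock B) :
    B = A.spn (GB hB) :=
  le_antisymm (hB.le_of_lines (fun _ hg => line_le_spn hg)) (spn_le (fun _ hg => hg))

theorem isBlock_spn [Fact p.Prime] {B : Submodule R V} (hB : A.IsBlock B) {S : Subgroup G}
    (hS : S ≤ GB hB) (htor : ∀ g ∈ GB hB, ∃ m : ℕ, 0 < m ∧ g ^ m ∈ S) :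
    A.IsBlock (A.spn S) := by
  have hle : A.spn S ≤ B := spn_le (fun g hg => hS hg)
  refine ⟨?_, fun h hh => ?_⟩
  · rw [← Submodule.span_singleton_le_iff_mem, ← A.line_one]
    exact line_le_spn S.one_mem
  · have hγ : A.line (A.q h) ≤ A.spn S := A.act_mem_iff.1 hh
    have h1 : A.tr h (A.spn S) ≤ A.spn S := by
      conv_lhs => unfold spn
      rw [A.tr_iSup]
      refine iSup_le (fun g => ?_)
      rw [A.tr_line]
      have h2 := A.tr_mono (A.s g.1) hγ
      rw [A.tr_line, tr_spn (by rw [A.q_s]; exact g.2), A.q_s, mul_comm] at h2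
      exact h2
    obtain ⟨m, hm, hγm⟩ := htor _ (hγ.trans hle)
    refine le_antisymm h1 ?_
    have h3 : ∀ k : ℕ, A.tr (h ^ k) (A.spn S) ≤ A.spn S := by
      intro k
      induction k with
      | zero => rw [pow_zero, A.tr_one]
      | succ k ih =>
        rw [pow_succ', A.tr_mul]
        exact (A.tr_mono h ih).trans h1
    obtain ⟨k, rfl⟩ : ∃ k, m = k + 1 := ⟨m - 1, by omega⟩
    have h4 : A.tr (h ^ (k + 1)) (A.spn S) = A.spn S := tr_spn (by rw [map_pow]; exact hγm)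
    conv_lhs => rw [← h4]
    rw [pow_succ', A.tr_mul]
    exact A.tr_mono h (h3 k)

theorem le_GB_spn [Fact p.Prime] {S : Subgroup G} (h : A.IsBlock (A.spn S)) : S ≤ GB h :=
  fun _ hg => line_le_spn hg

/-- no torsion prime to `p` -/
theorem next_isolated [Fact p.Prime] {B : Submodule R V} (hB : A.IsBlock B) {g : G}
    (hg : g ∈ GB hB) {k : ℕ} (hk : ¬ p ∣ k) (hgk : g ^ k ∈ GB (isBlock_next hB)) :
    g ∈ GB (isBlock_next hB) := by
  classical
  set h : H := A.s g with hh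
  have hq : A.q h = g := A.q_s g
  have hkne : (k : ZMod p) ≠ 0 := by
    intro h0
    exact hk ((ZMod.natCast_eq_zero_iff k p).1 h0)
  obtain ⟨n, hn⟩ := ZMod.natCast_zmod_surjective (k : ZMod p)⁻¹
  have htrJ : ∀ h' : H, A.q h' ∈ GB hB → A.tr h' (A.J • B) = A.J • B := by
    intro h' hh'
    rw [A.tr_J, hB.tr_GB hh']
  let w : V := ∑ i ∈ Finset.range k, A.act (h ^ i) A.c
  have hwB : w ∈ B := by
    refine Submodule.sum_mem _ (fun i _ => ?_)
    rw [A.act_mem_iff, map_pow, hq]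
    exact (GB hB).pow_mem hg i
  have hw1 : A.eps w = k := by
    rw [map_sum, Finset.sum_congr rfl (fun i _ => by rw [A.eps_act, A.eps_c]),
      Finset.sum_const, Finset.card_range, nsmul_eq_mul, mul_one]
  have hz1 : A.eps (n • w) = 1 := by
    rw [map_nsmul, hw1, nsmul_eq_mul, hn, inv_mul_cancel₀ hkne]
  have hzB : n • w ∈ B := B.smul_of_tower_mem n hwB
  obtain ⟨h', hh'⟩ := A.trans _ hz1
  have hq' : A.q h' ∈ GB hB := by
    rw [mem_GB, ← A.act_mem_iff, hh']
    exact hzB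
  -- the difference
  have hdiff : A.act h w - w = A.act (h ^ k) A.c - A.c := by
    have h1 : A.act h w = ∑ i ∈ Finset.range k, A.act (h ^ (i + 1)) A.c := by
      rw [map_sum]
      refine Finset.sum_congr rfl (fun i _ => ?_)
      rw [pow_succ', A.act_mul]
    rw [h1, ← Finset.sum_sub_distrib, Finset.sum_range_sub (fun i => A.act (h ^ i) A.c),
      pow_zero, A.act_one]
  have hk2 : A.act (h ^ k) A.c - A.c ∈ A.J • B := by
    have h1 : A.act (h ^ k) A.c ∈ Submodule.span R {A.c} ⊔ A.J • B := by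
      rw [A.act_mem_iff, map_pow, hq]
      exact hgk
    obtain ⟨y, hy, z, hz, hyz⟩ := Submodule.mem_sup.1 h1
    obtain ⟨u, rfl⟩ := Submodule.mem_span_singleton.1 hy
    have h2 : A.aug (u - 1) = 0 := by
      have h3 := congrArg A.eps hyz
      rw [map_add, A.mem_M.1 (A.J_smul_le_M _ hz), add_zero, A.eps_act, A.eps_smul, A.eps_c,
        mul_one] at h3
      rw [map_sub, h3, map_one, sub_self]
    have h4 : A.act (h ^ k) A.c - A.c = (u - 1) • A.c + z := by
      rw [← hyz, sub_smul, one_smul]; abel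
    rw [h4]
    exact Submodule.add_mem _ (Submodule.smul_mem_smul (A.mem_J.2 h2) hB.1) hz
  have h5 : A.act h (A.act h' A.c) - A.act h' A.c ∈ A.J • B := by
    rw [hh', map_nsmul, ← smul_sub, hdiff]
    exact Submodule.smul_of_tower_mem _ n hk2
  have h6 : A.act h'⁻¹ (A.act h (A.act h' A.c) - A.act h' A.c) ∈ A.J • B := by
    rw [← A.mem_tr, htrJ h' hq']
    exact h5
  rw [map_sub, A.act_inv_act, ← A.act_mul, ← A.act_mul] at h6
  have h7 : A.act (h'⁻¹ * (h * h')) A.c ∈ Submodule.span R {A.c} ⊔ A.J • B := by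
    have := Submodule.add_mem _ (Submodule.mem_sup_right h6)
      (Submodule.mem_sup_left (Submodule.mem_span_singleton_self A.c))
    rwa [sub_add_cancel, mul_assoc] at this
  rw [A.act_mem_iff, map_mul, map_mul, map_inv, hq] at h7
  rw [mem_GB]
  have h8 : (A.q h')⁻¹ * (g * A.q h') = g := by rw [mul_comm g, inv_mul_cancel_left]
  rwa [h8] at h7

/-- a power of `p` lands in the next block -/
theorem next_pow [Fact p.Prime] {B : Submodule R V} (hB : A.IsBlock B) (hfg : B.FG) {g : G}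
    (hg : g ∈ GB hB) : ∃ e : ℕ, g ^ p ^ e ∈ GB (isBlock_next hB) := by
  obtain ⟨m, hm, h⟩ := (next_finCos hB hfg).exists_pow
  obtain ⟨e, k, hk, rfl⟩ := Nat.exists_eq_pow_mul_and_not_dvd hm.ne' p
    (Fact.out : p.Prime).ne_one
  refine ⟨e, next_isolated hB ((GB hB).pow_mem hg _) hk ?_⟩
  rw [← pow_mul]
  exact h g hg

/-- lines of index prime to `p` are superfluous -/
theorem primeto [Fact p.Prime] {B : Submodule R V} (hB : A.IsBlock B) (hfg : B.FG)
    {S3 S2 : Subgroup G} (hS3 : S3 ≤ GB hB) (hle : B ≤ A.spn S3)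
    (h : ∀ g ∈ S3, ∃ k : ℕ, ¬ p ∣ k ∧ g ^ k ∈ S2) : B ≤ A.spn S2 := by
  refine Submodule.le_of_le_smul_of_le_jacobson_bot hfg A.J_le_jac ?_
  refine hle.trans (spn_le (fun g hg => ?_))
  obtain ⟨k, hk, hgk⟩ := h g hg
  obtain ⟨e, he⟩ := next_pow hB hfg (hS3 hg)
  have hcop : IsCoprime (k : ℤ) ((p ^ e : ℕ) : ℤ) := by
    rw [Nat.isCoprime_iff_coprime]
    refine Nat.Coprime.pow_right _ ?_
    exact ((Fact.out : p.Prime).coprime_iff_not_dvd.2 hk).symm
  obtain ⟨a, b, hab⟩ := hcop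
  have hg1 : (g ^ k) ^ a * (g ^ p ^ e) ^ b = g := by
    rw [← zpow_natCast, ← zpow_natCast, ← zpow_mul, ← zpow_mul, ← zpow_add, mul_comm _ a,
      mul_comm _ b, hab, zpow_one]
  have hx : (g ^ k) ^ a ∈ S2 := S2.zpow_mem hgk a
  have hs : (g ^ p ^ e) ^ b ∈ GB (isBlock_next hB) := (GB _).zpow_mem he b
  set x := (g ^ k) ^ a with hxdef
  set s := (g ^ p ^ e) ^ b with hsdef
  have hx' : x ∈ GB hB := (GB hB).zpow_mem ((GB hB).pow_mem (hS3 hg) k) a
  have h1 := A.tr_mono (A.s x) hs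
  rw [A.tr_line, A.q_s, hg1, A.tr_sup, A.tr_J, hB.tr_GB (by rw [A.q_s]; exact hx'), ← A.line_one,
    A.tr_line, A.q_s, mul_one] at h1
  exact h1.trans (sup_le_sup_right (line_le_spn hx) _)

theorem spn_fg_of_finite {S : Subgroup G} (h : (S : Set G).Finite) : (A.spn S).FG := by
  have := h.to_subtype
  exact Submodule.fg_iSup _ (fun g => Submodule.fg_span_singleton _)

/-- the group of a block is a `p`-group if it is a torsion group -/
theorem ptorsion [Fact p.Prime] {B : Submodule R V} (hB : A.IsBlock B)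
    (htor : ∀ g ∈ GB hB, ∃ m : ℕ, 0 < m ∧ g ^ m = 1) :
    ∀ g ∈ GB hB, ∃ e : ℕ, g ^ p ^ e = 1 := by
  intro g hg
  obtain ⟨m, hm, hgm⟩ := htor g hg
  obtain ⟨e, k, hk, rfl⟩ := Nat.exists_eq_pow_mul_and_not_dvd hm.ne' p
    (Fact.out : p.Prime).ne_one
  refine ⟨e, ?_⟩
  set x := g ^ p ^ e with hx
  have hxk : x ^ k = 1 := by rw [hx, ← pow_mul]; exact hgm
  have hxB : x ∈ GB hB := (GB hB).pow_mem hg _
  have hk0 : k ≠ 0 := by rintro rfl; exact hk (dvd_zero p)
  have hle : Subgroup.zpowers x ≤ GB hB := by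
    rw [Subgroup.zpowers_le]; exact hxB
  have hfinS : ((Subgroup.zpowers x : Subgroup G) : Set G).Finite := by
    have h1 : IsOfFinOrder x := isOfFinOrder_iff_pow_eq_one.2 ⟨k, Nat.pos_of_ne_zero hk0, hxk⟩
    exact h1.finite_zpowers
  have hblk := isBlock_spn hB hle (fun g hg => by
    obtain ⟨m, hm, h⟩ := htor g hg
    exact ⟨m, hm, by rw [h]; exact Subgroup.one_mem _⟩)
  have h1 := primeto hblk (spn_fg_of_finite hfinS) (S3 := Subgroup.zpowers x) (S2 := ⊥)
    (le_GB_spn hblk) le_rfl (by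
      rintro _ ⟨t, rfl⟩
      refine ⟨k, hk, ?_⟩
      change (x ^ t) ^ k ∈ (⊥ : Subgroup G)
      rw [← zpow_natCast, ← zpow_mul, mul_comm, zpow_mul, zpow_natCast, hxk, one_zpow]
      exact Subgroup.one_mem _)
  refine A.line_one_le ?_
  have h2 : A.spn (⊥ : Subgroup G) ≤ Submodule.span R {A.c} := by
    refine spn_le (fun g hg => ?_)
    rw [Subgroup.mem_bot.1 hg, A.line_one]
  exact ((line_le_spn (Subgroup.mem_zpowers x)).trans h1).trans h2

theorem tr_fg {h : H} {N : Submodule R V} (hN : N.FG) : (A.tr h N).FG := by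
  classical
  obtain ⟨T, rfl⟩ := hN
  refine ⟨T.image (A.act h), ?_⟩
  refine le_antisymm ?_ ?_
  · rw [Submodule.span_le]
    intro x hx
    rw [Finset.mem_coe, Finset.mem_image] at hx
    obtain ⟨t, ht, rfl⟩ := hx
    exact A.act_mem_tr.2 (Submodule.subset_span ht)
  · have h1 : Submodule.span R (T : Set V) ≤
        A.tr h⁻¹ (Submodule.span R ((T.image (A.act h) : Finset V) : Set V)) := by
      rw [Submodule.span_le]
      intro t ht
      rw [SetLike.mem_coe, A.mem_tr, inv_inv]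
      exact Submodule.subset_span (Finset.mem_coe.2 (Finset.mem_image_of_mem _ ht))
    have h2 := A.tr_mono h h1
    rwa [A.tr_tr_inv] at h2

end Amb

end Pool.TFM
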