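import Mathlib
import Pool.Agent.TFM.Blk2
import Pool.Agent.TFM.Ord

/-!
# Descending chains of subgroups
-/

set_option autoImplicit false

namespace Pool.TFM

/-- Minimal condition for the subgroups in the `p`-torsion sections. -/
def DCC (p : ℕ) (G : Type) [CommGroup G] : Prop :=
  ∀ (W : Subgroup G) (F : Set (Subgroup G)), F.Nonempty →
    (∀ S ∈ F, W ≤ S ∧ ∀ x ∈ S, ∃ e : ℕ, x ^ p ^ e ∈ W) →
    ∃ S ∈ F, ∀ S' ∈ F, S' ≤ S → S' = S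

theorem DCC.of_injective {p : ℕ} {G G' : Type} [CommGroup G] [CommGroup G'] (f : G →* G')
    (hf : Function.Injective f) (h : DCC p G') : DCC p G := by
  intro W F hF hS
  obtain ⟨_, ⟨S, hSF, rfl⟩, hmin⟩ := h (W.map f) ((fun S => S.map f) '' F) (hF.image _) (by
    rintro _ ⟨S, hSF, rfl⟩
    obtain ⟨h1, h2⟩ := hS S hSF
    refine ⟨Subgroup.map_mono h1, ?_⟩
    rintro _ ⟨x, hx, rfl⟩
    obtain ⟨e, he⟩ := h2 x hx
    exact ⟨e, _, he, map_pow f x _⟩)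
  refine ⟨S, hSF, fun S' hS' hle => ?_⟩
  have := hmin _ ⟨S', hS', rfl⟩ (Subgroup.map_mono hle)
  exact Subgroup.map_injective hf this

theorem DCC.of_surjective {p : ℕ} {G G' : Type} [CommGroup G] [CommGroup G'] (f : G →* G')
    (hf : Function.Surjective f) (h : DCC p G) : DCC p G' := by
  intro W F hF hS
  obtain ⟨_, ⟨S, hSF, rfl⟩, hmin⟩ := h (W.comap f) ((fun S => S.comap f) '' F) (hF.image _) (by
    rintro _ ⟨S, hSF, rfl⟩
    obtain ⟨h1, h2⟩ := hS S hSF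
    refine ⟨Subgroup.comap_mono h1, ?_⟩
    intro x hx
    obtain ⟨e, he⟩ := h2 (f x) hx
    exact ⟨e, by rw [Subgroup.mem_comap, map_pow]; exact he⟩)
  refine ⟨S, hSF, fun S' hS' hle => ?_⟩
  have := hmin _ ⟨S', hS', rfl⟩ (Subgroup.comap_mono hle)
  exact Subgroup.comap_injective hf this

/-- finite torsion-free rank -/
def FR (G : Type) [CommGroup G] : Prop :=
  ∃ G0 : Subgroup G, G0.FG ∧ ∀ g, ∃ m : ℕ, 0 < m ∧ g ^ m ∈ G0

theorem fg_map {G G' : Type} [CommGroup G] [CommGroup G'] (f : G →* G') {S : Subgroup G}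
    (h : S.FG) : (S.map f).FG := by
  classical
  obtain ⟨T, hT⟩ := h
  refine ⟨T.image f, ?_⟩
  rw [← hT, MonoidHom.map_closure, Finset.coe_image]

theorem fg_of_le_fg {G : Type} [CommGroup G] {S S' : Subgroup G} (h : S.FG) (hle : S' ≤ S) :
    S'.FG := by
  have h1 : Group.FG ↥S := (Group.fg_iff_subgroup_fg S).2 h
  have h2 := fg_map S.subtype (fg_of_le (S'.subgroupOf S))
  rwa [Subgroup.subgroupOf_map_subtype, inf_eq_left.2 hle] at h2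

theorem FR.sub {G : Type} [CommGroup G] (h : FR G) (S : Subgroup G) :
    ∃ S0 : Subgroup G, S0 ≤ S ∧ S0.FG ∧ ∀ g ∈ S, ∃ m : ℕ, 0 < m ∧ g ^ m ∈ S0 := by
  obtain ⟨G0, hG0, h⟩ := h
  refine ⟨G0 ⊓ S, inf_le_right, fg_of_le_fg hG0 inf_le_left, fun g hg => ?_⟩
  obtain ⟨m, hm, h1⟩ := h g
  exact ⟨m, hm, h1, S.pow_mem hg m⟩

theorem FR.of_surjective {G G' : Type} [CommGroup G] [CommGroup G'] (f : G →* G')
    (hf : Function.Surjective f) (h : FR G) : FR G' := by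
  obtain ⟨G0, hG0, h⟩ := h
  refine ⟨G0.map f, fg_map f hG0, fun g => ?_⟩
  obtain ⟨x, rfl⟩ := hf g
  obtain ⟨m, hm, h1⟩ := h x
  exact ⟨m, hm, _, h1, map_pow f x m⟩

theorem FR.subgroup {G : Type} [CommGroup G] (h : FR G) (S : Subgroup G) : FR ↥S := by
  obtain ⟨S0, hle, hfg, h1⟩ := h.sub S
  refine ⟨S0.subgroupOf S, ?_, fun g => ?_⟩
  · have h2 : Group.FG ↥S0 := (Group.fg_iff_subgroup_fg S0).2 hfg
    have h3 : Group.FG ↥(S0.subgroupOf S) :=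
      Group.fg_of_surjective (f := (Subgroup.subgroupOfEquivOfLe hle).symm.toMonoidHom)
        (Subgroup.subgroupOfEquivOfLe hle).symm.surjective
    exact (Group.fg_iff_subgroup_fg _).1 h3
  · obtain ⟨m, hm, h2⟩ := h1 g.1 g.2
    exact ⟨m, hm, h2⟩

/-- a subgroup of finite index if finitely generated and torsion modulo it -/
theorem finCos_of_torsion {G : Type} [CommGroup G] {S T : Subgroup G} (hfg : T.FG)
    (h : ∀ x ∈ T, ∃ m : ℕ, 0 < m ∧ x ^ m ∈ S) :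
    ∃ F : Set G, F.Finite ∧ F ⊆ T ∧ ∀ t ∈ T, ∃ f ∈ F, f⁻¹ * t ∈ S := by
  classical
  have h1 : Group.FG ↥T := (Group.fg_iff_subgroup_fg T).2 hfg
  have h3 : Finite (↥T ⧸ S.subgroupOf T) := by
    refine CommGroup.finite_of_fg_isMulTorsion _ (fun x => ?_)
    obtain ⟨y, rfl⟩ := QuotientGroup.mk_surjective x
    obtain ⟨m, hm, hy⟩ := h y.1 y.2
    refine isOfFinOrder_iff_pow_eq_one.2 ⟨m, hm, ?_⟩
    rw [← QuotientGroup.mk_pow, QuotientGroup.eq_one_iff]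
    exact hy
  refine ⟨Set.range (fun x : ↥T ⧸ S.subgroupOf T => (x.out : G)), Set.finite_range _, ?_, ?_⟩
  · rintro _ ⟨x, rfl⟩
    exact x.out.2
  · intro t ht
    refine ⟨_, ⟨(QuotientGroup.mk (⟨t, ht⟩ : ↥T) : ↥T ⧸ S.subgroupOf T), rfl⟩, ?_⟩
    have h4 := QuotientGroup.out_eq' (QuotientGroup.mk (⟨t, ht⟩ : ↥T) : ↥T ⧸ S.subgroupOf T)
    rw [QuotientGroup.eq] at h4
    exact h4

/-- Eventually the indices in a descending chain with `p`-group factors are finite. -/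
theorem chainA {p : ℕ} (hp : p.Prime) {G : Type} [CommGroup G] (hD : DCC p G)
    (S : ℕ → Subgroup G) (hS : Antitone S) (Γ0 : Subgroup G) (hΓ : Γ0 ≤ S 0) (hfg : Γ0.FG)
    (htor : ∀ x ∈ S 0, ∃ m : ℕ, 0 < m ∧ x ^ m ∈ Γ0)
    (hpg : ∀ j, ∀ x ∈ S 0, ∃ e : ℕ, x ^ p ^ e ∈ S j) :
    ∃ i, ∀ j, i ≤ j → FinCos (S j) (S i) := by
  have hne : ∀ {a b : ℕ}, ¬ p ∣ a → ¬ p ∣ b → ¬ p ∣ a * b := fun ha hb h =>
    (hp.dvd_mul.1 h).elim ha hb
  let W : Subgroup G :=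
    { carrier := {x | x ∈ S 0 ∧ ∃ k : ℕ, ¬ p ∣ k ∧ x ^ k ∈ Γ0}
      mul_mem' := by
        rintro a b ⟨ha, k, hk, hk'⟩ ⟨hb, l, hl, hl'⟩
        refine ⟨(S 0).mul_mem ha hb, k * l, hne hk hl, ?_⟩
        rw [mul_pow, pow_mul, mul_comm k l, pow_mul]
        exact Γ0.mul_mem (Γ0.pow_mem hk' l) (Γ0.pow_mem hl' k)
      one_mem' := ⟨(S 0).one_mem, 1, hp.one_lt.not_ge ∘ Nat.le_of_dvd one_pos,
        by rw [one_pow]; exact Γ0.one_mem⟩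
      inv_mem' := by
        rintro a ⟨ha, k, hk, hk'⟩
        exact ⟨(S 0).inv_mem ha, k, hk, by rw [inv_pow]; exact Γ0.inv_mem hk'⟩ }
  have hW0 : W ≤ S 0 := fun x hx => hx.1
  obtain ⟨_, ⟨i, rfl⟩, hmin⟩ := hD W (Set.range (fun j => S j ⊔ W)) (Set.range_nonempty _) (by
    rintro _ ⟨j, rfl⟩
    refine ⟨le_sup_right, fun x hx => ?_⟩
    have hx0 : x ∈ S 0 := (sup_le (hS (Nat.zero_le j)) hW0) hx
    obtain ⟨m, hm, hxm⟩ := htor x hx0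
    obtain ⟨e, k, hk, rfl⟩ := Nat.exists_eq_pow_mul_and_not_dvd hm.ne' p hp.ne_one
    exact ⟨e, (S 0).pow_mem hx0 _, k, hk, by rw [← pow_mul]; exact hxm⟩)
  refine ⟨i, fun j hij => ?_⟩
  have heq : S j ⊔ W = S i ⊔ W := hmin _ ⟨j, rfl⟩ (sup_le_sup_right (hS hij) W)
  have htor2 : ∀ x ∈ Γ0 ⊓ S i, ∃ m : ℕ, 0 < m ∧ x ^ m ∈ S j := by
    intro x hx
    obtain ⟨e, he⟩ := hpg j x (hΓ hx.1)
    exact ⟨p ^ e, pow_pos hp.pos e, he⟩
  obtain ⟨F, hF, hF1, hF2⟩ := finCos_of_torsion (fg_of_le_fg hfg inf_le_left) htor2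
  refine ⟨F, hF, fun f hf => (hF1 hf).2, fun s hs => ?_⟩
  -- `s = t * w`
  have hs' : s ∈ S j ⊔ W := by rw [heq]; exact Subgroup.mem_sup_left hs
  obtain ⟨t, ht, w, hw, rfl⟩ := Subgroup.mem_sup.1 hs'
  have hwi : w ∈ S i := by
    have h1 := (S i).mul_mem ((S i).inv_mem (hS hij ht)) hs
    rwa [inv_mul_cancel_left] at h1
  obtain ⟨hw0, k, hk, hwk⟩ := hw
  obtain ⟨e, he⟩ := hpg j w hw0
  have hcop : IsCoprime (k : ℤ) ((p ^ e : ℕ) : ℤ) := by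
    rw [Nat.isCoprime_iff_coprime]
    exact Nat.Coprime.pow_right _ (hp.coprime_iff_not_dvd.2 hk).symm
  obtain ⟨a, b, hab⟩ := hcop
  have hg1 : (w ^ k) ^ a * (w ^ p ^ e) ^ b = w := by
    rw [← zpow_natCast, ← zpow_natCast, ← zpow_mul, ← zpow_mul, ← zpow_add, mul_comm _ a,
      mul_comm _ b, hab, zpow_one]
  obtain ⟨f, hf, h2⟩ := hF2 ((w ^ k) ^ a) ⟨Γ0.zpow_mem hwk a,
    (S i).zpow_mem ((S i).pow_mem hwi k) a⟩
  refine ⟨f, hf, ?_⟩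
  have h3 : f⁻¹ * (t * w) = t * (f⁻¹ * (w ^ k) ^ a) * (w ^ p ^ e) ^ b := by
    calc f⁻¹ * (t * w) = f⁻¹ * (t * ((w ^ k) ^ a * (w ^ p ^ e) ^ b)) := by rw [hg1]
      _ = t * (f⁻¹ * (w ^ k) ^ a) * (w ^ p ^ e) ^ b := by
        rw [mul_left_comm f⁻¹ t, ← mul_assoc f⁻¹, ← mul_assoc t]
  rw [h3]
  exact (S j).mul_mem ((S j).mul_mem ht h2) ((S j).zpow_mem he b)

end Pool.TFM
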