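import Mathlib
import Pool.Agent.TFM.Art
import Pool.Agent.TFR.Irr

/-!
# Minimal conditions in abelian groups
-/

set_option autoImplicit false

namespace Pool.TFM

open Cardinal Pool.TFR

/-- the generalised heights -/
noncomputable def hgt {Y : Type} [CommGroup Y] (p : ℕ) (S : Subgroup Y) (e : Y) : ℕ∞ :=
  ⨆ (n : ℕ) (_ : ∃ s ∈ S, s ^ p ^ n = e), ((n : ℕ∞) + 1)

theorem lt_hgt {Y : Type} [CommGroup Y] {p : ℕ} {S : Subgroup Y} {e : Y} {n : ℕ} :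
    (n : ℕ∞) < hgt p S e ↔ ∃ s ∈ S, s ^ p ^ n = e := by
  unfold hgt
  rw [lt_iSup_iff]
  constructor
  · rintro ⟨m, h1⟩
    rw [lt_iSup_iff] at h1
    obtain ⟨⟨s, hs, rfl⟩, h2⟩ := h1
    have h3 : n < m + 1 := by exact_mod_cast h2
    refine ⟨s ^ p ^ (m - n), S.pow_mem hs _, ?_⟩
    rw [← pow_mul, ← pow_add]
    congr 2
    omega
  · intro h
    refine ⟨n, ?_⟩
    rw [lt_iSup_iff]
    refine ⟨h, ?_⟩
    exact_mod_cast Nat.lt_succ_self n

theorem hgt_mono {Y : Type} [CommGroup Y] {p : ℕ} {S S' : Subgroup Y} (h : S' ≤ S) (e : Y) :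
    hgt p S' e ≤ hgt p S e := by
  refine iSup₂_le (fun n hn => ?_)
  obtain ⟨s, hs, rfl⟩ := hn
  exact le_iSup₂_of_le n ⟨s, h hs, rfl⟩ le_rfl

/-- minimal condition for `p`-groups with finite socle -/
theorem minp {Y : Type} [CommGroup Y] {p : ℕ} (hfin : {y : Y | y ^ p = 1}.Finite)
    (F : Set (Subgroup Y)) (hF : F.Nonempty)
    (hS : ∀ S ∈ F, ∀ x ∈ S, ∃ e : ℕ, x ^ p ^ e = 1) :
    ∃ S ∈ F, ∀ S' ∈ F, S' ≤ S → S' = S := by
  classical
  have hE : Finite {y : Y | y ^ p = 1} := hfin.to_subtype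
  let H : Subgroup Y → ({y : Y | y ^ p = 1} → ℕ∞) := fun S e => hgt p S e.1
  have hwf : WellFounded (fun a b : ({y : Y | y ^ p = 1} → ℕ∞) => a < b) := wellFounded_lt
  obtain ⟨_, ⟨S, hSF, rfl⟩, hmin⟩ := hwf.has_min (H '' F) (hF.image H)
  refine ⟨S, hSF, fun S' hS' hle => ?_⟩
  have h1 : H S' ≤ H S := fun e => hgt_mono hle e.1
  have h2 : H S' = H S := by
    by_contra hne
    exact hmin _ ⟨S', hS', rfl⟩ (lt_of_le_of_ne h1 hne)
  refine le_antisymm hle ?_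
  have key : ∀ k : ℕ, ∀ x ∈ S, x ^ p ^ k = 1 → x ∈ S' := by
    intro k
    induction k with
    | zero =>
      intro x _ hx
      rw [pow_zero, pow_one] at hx
      rw [hx]; exact S'.one_mem
    | succ k ih =>
      intro x hx hxk
      have h3 : (x ^ p ^ k) ^ p = 1 := by rw [← pow_mul, ← pow_succ]; exact hxk
      have h4 : (k : ℕ∞) < H S ⟨x ^ p ^ k, h3⟩ := lt_hgt.2 ⟨x, hx, rfl⟩
      rw [← h2] at h4
      obtain ⟨y, hy, hyx⟩ := lt_hgt.1 h4
      have h5 : (x * y⁻¹) ^ p ^ k = 1 := by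
        rw [mul_pow, inv_pow, hyx, mul_inv_cancel]
      have h6 := ih _ (S.mul_mem hx (S.inv_mem (hle hy))) h5
      have h7 := S'.mul_mem h6 hy
      rwa [inv_mul_cancel_right] at h7
  intro x hx
  obtain ⟨e, he⟩ := hS S hSF x hx
  exact key e x hx he

/-- minimal condition in torsion groups with finite `p`-socle -/
theorem dcc_torsion {Y : Type} [CommGroup Y] {p : ℕ} (hp : p.Prime)
    (htor : ∀ y : Y, ∃ m : ℕ, 0 < m ∧ y ^ m = 1) (hfin : {y : Y | y ^ p = 1}.Finite) :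
    DCC p Y := by
  classical
  intro W F hF hS
  let pp : Subgroup Y → Subgroup Y := fun S =>
    { carrier := {x | x ∈ S ∧ ∃ e : ℕ, x ^ p ^ e = 1}
      mul_mem' := by
        rintro a b ⟨ha, k, hk⟩ ⟨hb, l, hl⟩
        refine ⟨S.mul_mem ha hb, k + l, ?_⟩
        rw [mul_pow, pow_add, pow_mul, hk, one_pow, mul_comm (p ^ k), pow_mul, hl, one_pow,
          one_mul]
      one_mem' := ⟨S.one_mem, 0, one_pow _⟩
      inv_mem' := by
        rintro a ⟨ha, k, hk⟩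
        exact ⟨S.inv_mem ha, k, by rw [inv_pow, hk, inv_one]⟩ }
  obtain ⟨_, ⟨S, hSF, rfl⟩, hmin⟩ := minp hfin (pp '' F) (hF.image pp) (by
    rintro _ ⟨S, -, rfl⟩ x hx
    exact hx.2)
  refine ⟨S, hSF, fun S' hS' hle => le_antisymm hle ?_⟩
  have h1 : pp S' = pp S := hmin _ ⟨S', hS', rfl⟩ (fun x hx => ⟨hle hx.1, hx.2⟩)
  intro s hs
  obtain ⟨e, he⟩ := (hS S hSF).2 s hs
  obtain ⟨m, hm, hsm⟩ := htor s
  obtain ⟨a, k, hk, rfl⟩ := Nat.exists_eq_pow_mul_and_not_dvd hm.ne' p hp.ne_one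
  have hcop : IsCoprime (k : ℤ) ((p ^ (a + e) : ℕ) : ℤ) := by
    rw [Nat.isCoprime_iff_coprime]
    exact Nat.Coprime.pow_right _ (hp.coprime_iff_not_dvd.2 hk).symm
  obtain ⟨u, v, huv⟩ := hcop
  have hg1 : (s ^ k) ^ u * (s ^ p ^ (a + e)) ^ v = s := by
    rw [← zpow_natCast, ← zpow_natCast, ← zpow_mul, ← zpow_mul, ← zpow_add, mul_comm _ u,
      mul_comm _ v, huv, zpow_one]
  rw [← hg1]
  refine S'.mul_mem ?_ ?_
  · have h2 : (s ^ k) ^ u ∈ pp S := by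
      refine ⟨S.zpow_mem (S.pow_mem hs k) u, a, ?_⟩
      rw [← zpow_natCast, ← zpow_mul, mul_comm, zpow_mul, zpow_natCast, ← pow_mul, mul_comm k,
        hsm, one_zpow]
    rw [← h1] at h2
    exact h2.1
  · refine S'.zpow_mem ?_ v
    refine (hS S' hS').1 ?_
    rw [pow_add, mul_comm, pow_mul]
    exact W.pow_mem he _

theorem dcc_of {Γ : Type} [CommGroup Γ] (hFR : FR Γ) {p : ℕ} (hp : p.Prime)
    (hfin : {y : Γ | y ^ p = 1}.Finite) : DCC p Γ := by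
  classical
  obtain ⟨Γ0, hΓ0, htor⟩ := hFR
  let f : Γ →* Γ ⧸ Γ0 := QuotientGroup.mk' Γ0
  have hf : Function.Surjective f := QuotientGroup.mk'_surjective Γ0
  have hker : ∀ x, f x = 1 ↔ x ∈ Γ0 := fun x => QuotientGroup.eq_one_iff x
  have htorY : ∀ y : Γ ⧸ Γ0, ∃ m : ℕ, 0 < m ∧ y ^ m = 1 := by
    intro y
    obtain ⟨x, rfl⟩ := hf y
    obtain ⟨m, hm, h⟩ := htor x
    exact ⟨m, hm, by rw [← map_pow]; exact (hker _).2 h⟩
  -- the socle of the quotient is finite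
  have hfinY : {y : Γ ⧸ Γ0 | y ^ p = 1}.Finite := by
    let S1 : Subgroup Γ := Γ0.map (powMonoidHom p)
    obtain ⟨F, hF, hF1, hF2⟩ := finCos_of_torsion (S := S1) hΓ0 (fun x hx =>
      ⟨p, hp.pos, x, hx, rfl⟩)
    -- choose roots
    let t : Γ → Γ := fun c => if h : ∃ x, x ^ p ∈ Γ0 ∧ c⁻¹ * x ^ p ∈ S1 then h.choose else 1
    refine ((hF.image t).mul hfin |>.image f).subset ?_
    intro y hy
    obtain ⟨x, rfl⟩ := hf y
    have hx : x ^ p ∈ Γ0 := by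
      rw [← hker, map_pow]; exact hy
    obtain ⟨c, hc, h1⟩ := hF2 _ hx
    have hex : ∃ x, x ^ p ∈ Γ0 ∧ c⁻¹ * x ^ p ∈ S1 := ⟨x, hx, h1⟩
    have ht : t c = hex.choose := dif_pos hex
    obtain ⟨h2, h3⟩ := hex.choose_spec
    rw [← ht] at h2 h3
    have h4 := S1.mul_mem (S1.inv_mem h3) h1
    have h5 : (c⁻¹ * t c ^ p)⁻¹ * (c⁻¹ * x ^ p) = ((t c)⁻¹ * x) ^ p := by
      rw [mul_pow, inv_pow]; group
    rw [h5] at h4
    obtain ⟨z, hz, hzp⟩ := h4
    have hzp' : z ^ p = ((t c)⁻¹ * x) ^ p := hzp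
    refine ⟨t c * ((t c)⁻¹ * x * z⁻¹), ⟨t c, ⟨c, hc, rfl⟩, _, ?_, rfl⟩, ?_⟩
    · change ((t c)⁻¹ * x * z⁻¹) ^ p = 1
      rw [mul_pow, ← hzp', inv_pow, mul_inv_cancel]
    · rw [mul_assoc (t c)⁻¹, mul_inv_cancel_left, map_mul, map_inv, (hker z).2 hz, inv_one,
        mul_one]
  have hD := dcc_torsion hp htorY hfinY
  intro W F hF hS
  obtain ⟨_, ⟨S1, hS1F, rfl⟩, hmin1⟩ := hD (W.map f) ((fun S => S.map f) '' F) (hF.image _) (by
    rintro _ ⟨S, hSF, rfl⟩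
    obtain ⟨h1, h2⟩ := hS S hSF
    refine ⟨Subgroup.map_mono h1, ?_⟩
    rintro _ ⟨x, hx, rfl⟩
    obtain ⟨e, he⟩ := h2 x hx
    exact ⟨e, _, he, map_pow f x _⟩)
  -- the intersection with the finitely generated subgroup
  let X : Subgroup Γ :=
    { carrier := {x | x ∈ Γ0 ∧ ∃ e : ℕ, x ^ p ^ e ∈ W}
      mul_mem' := by
        rintro a b ⟨ha, k, hk⟩ ⟨hb, l, hl⟩
        refine ⟨Γ0.mul_mem ha hb, k + l, ?_⟩
        rw [mul_pow]
        refine W.mul_mem ?_ ?_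
        · rw [pow_add, pow_mul]; exact W.pow_mem hk _
        · rw [pow_add, mul_comm, pow_mul]; exact W.pow_mem hl _
      one_mem' := ⟨Γ0.one_mem, 0, by rw [one_pow]; exact W.one_mem⟩
      inv_mem' := by
        rintro a ⟨ha, k, hk⟩
        exact ⟨Γ0.inv_mem ha, k, by rw [inv_pow]; exact W.inv_mem hk⟩ }
  have hXle : X ≤ Γ0 := fun x hx => hx.1
  obtain ⟨C, hC, hC1, hC2⟩ := finCos_of_torsion (S := W) (fg_of_le_fg hΓ0 hXle) (fun x hx => by
    obtain ⟨e, he⟩ := hx.2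
    exact ⟨p ^ e, pow_pos hp.pos e, he⟩)
  let N : Subgroup Γ → ℕ := fun S => (hC.toFinset.filter (fun c => c ∈ S)).card
  have hex : ∃ n, ∃ S ∈ F, S.map f = S1.map f ∧ N S = n := ⟨_, S1, hS1F, rfl, rfl⟩
  obtain ⟨S, hSF, hSmap, hSN⟩ := Nat.find_spec hex
  refine ⟨S, hSF, fun S' hS' hle => le_antisymm hle ?_⟩
  have hmap : S'.map f = S.map f := by
    rw [hSmap]
    exact hmin1 _ ⟨S', hS', rfl⟩ (by
      change S'.map f ≤ S1.map f
      rw [← hSmap]; exact Subgroup.map_mono hle)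
  have hcard : N S ≤ N S' := by
    rw [hSN]
    exact Nat.find_min' hex ⟨S', hS', hmap.trans hSmap, rfl⟩
  have hsub : hC.toFinset.filter (fun c => c ∈ S') ⊆ hC.toFinset.filter (fun c => c ∈ S) := by
    intro c hc
    rw [Finset.mem_filter] at hc ⊢
    exact ⟨hc.1, hle hc.2⟩
  have heq := Finset.eq_of_subset_of_card_le hsub hcard
  intro x hx
  have h1 : f x ∈ S'.map f := by rw [hmap]; exact ⟨x, hx, rfl⟩
  obtain ⟨y, hy, hyx⟩ := h1
  have h2 : y⁻¹ * x ∈ Γ0 := by rw [← hker, map_mul, map_inv, hyx, inv_mul_cancel]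
  have h3 : y⁻¹ * x ∈ S := S.mul_mem (S.inv_mem (hle hy)) hx
  have h4 : y⁻¹ * x ∈ X := ⟨h2, (hS S hSF).2 _ h3⟩
  obtain ⟨c, hc, hc'⟩ := hC2 _ h4
  have h5 : c ∈ S := by
    have h6 := S.mul_mem h3 (S.inv_mem ((hS S hSF).1 hc'))
    rwa [mul_inv_rev, inv_inv, mul_inv_cancel_left] at h6
  have h6 : c ∈ S' := by
    have h7 : c ∈ hC.toFinset.filter (fun c => c ∈ S) :=
      Finset.mem_filter.2 ⟨hC.mem_toFinset.2 hc, h5⟩
    rw [← heq] at h7
    exact (Finset.mem_filter.1 h7).2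
  have h7 := S'.mul_mem h6 ((hS S' hS').1 hc')
  rw [mul_inv_cancel_left] at h7
  have h8 := S'.mul_mem hy h7
  rwa [mul_inv_cancel_left] at h8

/-- groups of finite torsion-free rank -/
theorem FR_of_ra {Γ : Type} [CommGroup Γ] (h : ra Γ < ℵ₀) : FR Γ := by
  classical
  obtain ⟨ι, hι, v, hv⟩ := exists_family (M := Additive Γ) h
  refine ⟨Subgroup.closure (Set.range (fun i => (v i).toMul)), ⟨Finset.univ.image
    (fun i => (v i).toMul), by simp⟩, fun g => ?_⟩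
  obtain ⟨n, hn, hm⟩ := hv (Additive.ofMul g)
  have key : ∀ x ∈ Submodule.span ℤ (Set.range v),
      x.toMul ∈ Subgroup.closure (Set.range (fun i => (v i).toMul)) := by
    intro x hx
    refine Submodule.span_induction (p := fun x _ => x.toMul ∈
      Subgroup.closure (Set.range (fun i => (v i).toMul))) ?_ ?_ ?_ ?_ hx
    · rintro _ ⟨i, rfl⟩
      exact Subgroup.subset_closure ⟨i, rfl⟩
    · exact Subgroup.one_mem _
    · intro x y _ _ hx hy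
      exact Subgroup.mul_mem _ hx hy
    · intro a x _ hx
      exact Subgroup.zpow_mem _ hx a
  have h1 : g ^ n ∈ Subgroup.closure (Set.range (fun i => (v i).toMul)) := key _ hm
  refine ⟨n.natAbs, Int.natAbs_pos.2 hn, ?_⟩
  rcases Int.natAbs_eq n with h4 | h4
  · rw [← zpow_natCast, ← h4]; exact h1
  · rw [← zpow_natCast]
    have : ((n.natAbs : ℕ) : ℤ) = -n := by omega
    rw [this, zpow_neg]; exact Subgroup.inv_mem _ h1

end Pool.TFM
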