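import Mathlib
import Pool.Agent.TFM.Art
import Pool.Agent.TFM.Dich2

/-!
# Blocks without valuations
-/

set_option autoImplicit false

namespace Pool.TFM

namespace Amb

variable {p : ℕ} [Fact p.Prime] {H G R V : Type} [Group H] [CommGroup G] [CommRing R]
  [AddCommGroup V] [Module R V] (A : Amb p H G R V)

/-- the closure operator given by the lines -/
noncomputable def lineCl (Γ : Subgroup G) : Cl G Γ where
  cl S := {g | A.line g ≤ ⨆ s : S, A.line s.1}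
  sub S g hg := le_iSup (fun s : S => A.line s.1) ⟨g, hg⟩
  idem S T h g hg := by
    have h1 : (⨆ s : T, A.line s.1) ≤ ⨆ s : S, A.line s.1 := iSup_le (fun s => h s.2)
    exact le_trans hg h1
  fin S g hg := by
    classical
    have h1 : A.e g ∈ ⨆ s : S, A.line s.1 := hg (A.e_mem_line g)
    obtain ⟨F, hF⟩ := (Submodule.mem_iSup_iff_exists_finset).1 h1
    refine ⟨Subtype.val '' (F : Set S), ?_, (F.finite_toSet).image _, ?_⟩
    · rintro _ ⟨x, -, rfl⟩
      exact x.2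
    · change A.line g ≤ _
      rw [A.line_le]
      refine (iSup₂_le (fun i hi => ?_) : (⨆ i ∈ F, A.line i.1) ≤ _) hF
      exact le_iSup (fun s : (Subtype.val '' (F : Set S) : Set G) => A.line s.1) ⟨i.1, i, hi, rfl⟩
  inv g _ S x hx := by
    change A.line (g * x) ≤ _
    have h1 := A.tr_mono (A.s g) hx
    rw [A.tr_line, A.q_s, A.tr_iSup] at h1
    refine h1.trans (iSup_le (fun s => ?_))
    rw [A.tr_line, A.q_s]
    exact le_iSup (fun s : ((fun y => g * y) '' S : Set G) => A.line s.1) ⟨g * s.1, s.1, s.2, rfl⟩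

theorem mem_lineCl {Γ : Subgroup G} {S : Set G} {g : G} :
    g ∈ (A.lineCl Γ).cl S ↔ A.line g ≤ ⨆ s : S, A.line s.1 := Iff.rfl


/-- no valuation on any block contained in `B` -/
def NoVal (B : Submodule R V) : Prop :=
  ∀ (B' : Submodule R V) (hB' : A.IsBlock B'), B' ≤ B → ∀ P : Submonoid G, Tot (GB hB') P →
    (∃ x ∈ GB hB', x ∉ P) → (1 : G) ∈ (A.lineCl (GB hB')).cl (pos P)

variable {A}

theorem NoVal.mono {B B' : Submodule R V} (h : A.NoVal B) (hle : B' ≤ B) : A.NoVal B' :=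
  fun B'' hB'' h1 => h B'' hB'' (h1.trans hle)

/-- without valuations a block spanned by the lines of a finitely generated group is finitely
generated -/
theorem fg_of_spn {B : Submodule R V} (hB : A.IsBlock B) (hI : A.NoVal B) {G' : Subgroup G}
    (hG' : G' ≤ GB hB) (hfg : G'.FG) (htor : ∀ g ∈ GB hB, ∃ m : ℕ, 0 < m ∧ g ^ m ∈ G')
    (hle : B ≤ A.spn G') : B.FG := by
  obtain ⟨Γ2, h1, h2, h3⟩ := bs2 (A.lineCl (GB hB)) G' hG' hfg htor (hI B hB le_rfl)
  obtain ⟨F, hF, hF1, hF2⟩ := h3 (Γ2 ⊔ G') le_sup_left (sup_le h1 hG') (h2.sup hfg)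
  have hle2 : Γ2 ⊔ G' ≤ GB hB := sup_le h1 hG'
  have h4 : B = ⨆ f ∈ F, A.line f := by
    refine le_antisymm ?_ (iSup₂_le (fun f hf => hle2 (hF1 hf)))
    refine hle.trans (spn_le (fun g hg => ?_))
    have h5 := hF2 (Subgroup.mem_sup_right hg)
    rw [A.mem_lineCl, iSup_subtype] at h5
    exact h5
  rw [h4]
  have : (⨆ f ∈ F, A.line f) = ⨆ f ∈ hF.toFinset, A.line f := by simp
  rw [this]
  exact Submodule.fg_biSup _ _ (fun f _ => Submodule.fg_span_singleton _)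

/-- powers in a subgroup -/
def pw (m : ℕ) (S : Subgroup G) : Subgroup G := S.map (powMonoidHom m)

omit [Fact p.Prime] in
theorem mem_pw {G : Type} [CommGroup G] {m : ℕ} {S : Subgroup G} {x : G} :
    x ∈ pw m S ↔ ∃ y ∈ S, y ^ m = x := Iff.rfl

theorem pw_le {G : Type} [CommGroup G] (m : ℕ) (S : Subgroup G) : pw m S ≤ S := by
  rintro _ ⟨y, hy, rfl⟩
  exact S.pow_mem hy m

theorem pw_pw {G : Type} [CommGroup G] (m n : ℕ) (S : Subgroup G) :
    pw m (pw n S) = pw (n * m) S := by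
  ext x
  constructor
  · rintro ⟨_, ⟨y, hy, rfl⟩, rfl⟩
    exact ⟨y, hy, pow_mul y n m⟩
  · rintro ⟨y, hy, rfl⟩
    exact ⟨_, ⟨y, hy, rfl⟩, (pow_mul y n m).symm⟩

theorem pw_dvd {G : Type} [CommGroup G] {m n : ℕ} (h : m ∣ n) (S : Subgroup G) :
    pw n S ≤ pw m S := by
  obtain ⟨c, rfl⟩ := h
  rintro _ ⟨y, hy, rfl⟩
  exact ⟨y ^ c, S.pow_mem hy c, by
    change (y ^ c) ^ m = y ^ (m * c)
    rw [← pow_mul, mul_comm]⟩

theorem pow_mem_pw {G : Type} [CommGroup G] (m : ℕ) {S : Subgroup G} {x : G} (hx : x ∈ S) :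
    x ^ m ∈ pw m S := ⟨x, hx, rfl⟩

/-- **Case I**: without valuations the group of a block is a torsion group -/
theorem caseI (hFR : FR G) (hD : DCC p G) {B : Submodule R V} (hB : A.IsBlock B)
    (hI : A.NoVal B) : ∀ g ∈ GB hB, ∃ m : ℕ, 0 < m ∧ g ^ m = 1 := by
  classical
  have hp : p.Prime := Fact.out
  obtain ⟨G', hG', hfg, htor⟩ := hFR.sub (GB hB)
  -- the blocks generated by the `p ^ j`-th powers
  have hGjle : ∀ m, pw m G' ≤ GB hB := fun m => (pw_le m G').trans hG'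
  have hGjfg : ∀ m, (pw m G').FG := fun m => fg_map _ hfg
  have htorj : ∀ m, 0 < m → ∀ g ∈ GB hB, ∃ k : ℕ, 0 < k ∧ g ^ k ∈ pw m G' := by
    intro m hm g hg
    obtain ⟨k, hk, h1⟩ := htor g hg
    exact ⟨k * m, Nat.mul_pos hk hm, by rw [pow_mul]; exact pow_mem_pw m h1⟩
  have hblk : ∀ m, 0 < m → A.IsBlock (A.spn (pw m G')) := fun m hm =>
    isBlock_spn hB (hGjle m) (htorj m hm)
  have hspnB : ∀ m, A.spn (pw m G') ≤ B := fun m => spn_le (fun g hg => hGjle m hg)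
  have hGBle : ∀ m (hm : 0 < m), GB (hblk m hm) ≤ GB hB := fun m hm => GB_mono _ _ (hspnB m)
  -- any subgroup containing one of them gives a finitely generated module
  have hfgmod : ∀ (T : Subgroup G), T ≤ GB hB → T.FG → (∃ m, 0 < m ∧ pw m G' ≤ T) →
      ∃ hT : A.IsBlock (A.spn T), (A.spn T).FG ∧ T ≤ GB hT := by
    rintro T hT hTfg ⟨m, hm, hmT⟩
    have htorT : ∀ g ∈ GB hB, ∃ k : ℕ, 0 < k ∧ g ^ k ∈ T := fun g hg => by
      obtain ⟨k, hk, h1⟩ := htorj m hm g hg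
      exact ⟨k, hk, hmT h1⟩
    have hTb := isBlock_spn hB hT htorT
    have hTB : A.spn T ≤ B := spn_le (fun g hg => hT hg)
    exact ⟨hTb, fg_of_spn hTb (hI.mono hTB) (le_GB_spn hTb) hTfg
      (fun g hg => htorT g (GB_mono hTb hB hTB hg)) le_rfl, le_GB_spn hTb⟩
  have hpj : ∀ j, 0 < p ^ j := fun j => pow_pos hp.pos j
  let S : ℕ → Subgroup G := fun j => GB (hblk (p ^ j) (hpj j))
  have hanti : Antitone S := by
    exact antitone_nat_of_succ_le (fun j => GB_mono _ _ (spn_mono (pw_dvd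
      (pow_dvd_pow p (Nat.le_succ j)) _)))
  have hjS : ∀ j, pw (p ^ j) G' ≤ S j := fun j => le_GB_spn _
  have hfgj : ∀ j, (A.spn (pw (p ^ j) G')).FG := fun j => by
    obtain ⟨-, h, -⟩ := hfgmod (pw (p ^ j) G') (hGjle _) (hGjfg _) ⟨p ^ j, hpj j, le_rfl⟩
    exact h
  have hpg : ∀ j, ∀ x ∈ S 0, ∃ e : ℕ, x ^ p ^ e ∈ S j := by
    intro j x hx
    have hxB : x ∈ GB hB := hGBle _ (hpj 0) hx
    obtain ⟨k, hk, h1⟩ := htorj (p ^ j) (hpj j) x hxB
    obtain ⟨e, k', hk', rfl⟩ := Nat.exists_eq_pow_mul_and_not_dvd hk.ne' p hp.ne_one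
    refine ⟨e, ?_⟩
    set y := x ^ p ^ e with hy
    have hyk : y ^ k' ∈ pw (p ^ j) G' := by rw [hy, ← pow_mul]; exact h1
    have hyB : y ∈ GB hB := (GB hB).pow_mem hxB _
    obtain ⟨hT, hTfg, hTle⟩ := hfgmod (pw (p ^ j) G' ⊔ Subgroup.zpowers y)
      (sup_le (hGjle _) (by rw [Subgroup.zpowers_le]; exact hyB))
      ((hGjfg _).sup ⟨{y}, by rw [Finset.coe_singleton, Subgroup.zpowers_eq_closure]⟩)
      ⟨p ^ j, hpj j, le_sup_left⟩
    have h2 := primeto hT hTfg hTle le_rfl (S2 := pw (p ^ j) G') (by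
      intro g hg
      refine ⟨k', hk', ?_⟩
      obtain ⟨a, ha, z, hz, rfl⟩ := Subgroup.mem_sup.1 hg
      obtain ⟨t, rfl⟩ := hz
      rw [mul_pow]
      refine Subgroup.mul_mem _ (Subgroup.pow_mem _ ha _) ?_
      change (y ^ t) ^ k' ∈ _
      rw [← zpow_natCast, ← zpow_mul, mul_comm, zpow_mul, zpow_natCast]
      exact Subgroup.zpow_mem _ hyk t)
    exact (line_le_spn (Subgroup.mem_sup_right (Subgroup.mem_zpowers y))).trans h2
  obtain ⟨i, hi⟩ := chainA hp hD S hanti (pw (p ^ 0) G') (hjS 0) (hGjfg _)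
    (fun x hx => htorj _ (hpj 0) x (hGBle _ (hpj 0) hx)) hpg
  have hfin : (S i : Set G).Finite := by
    refine chain2' (hblk (p ^ i) (hpj i)) (fun B' hB' hle hcos => ?_)
    obtain ⟨m0, hm0, hpow⟩ := hcos.exists_pow
    obtain ⟨a, k, hk, rfl⟩ := Nat.exists_eq_pow_mul_and_not_dvd hm0.ne' p hp.ne_one
    have h2 : pw (p ^ (i + a) * k) G' ≤ GB hB' := by
      rintro _ ⟨y, hy, rfl⟩
      change y ^ (p ^ (i + a) * k) ∈ GB hB'
      rw [pow_add, mul_assoc, pow_mul]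
      exact hpow _ (hjS i (pow_mem_pw _ hy))
    have h3 := primeto (hblk (p ^ (i + a)) (hpj _)) (hfgj _) (hjS (i + a)) le_rfl
      (S2 := pw (p ^ (i + a) * k) G') (by
        rintro _ ⟨y, hy, rfl⟩
        refine ⟨k, hk, y, hy, ?_⟩
        exact pow_mul y _ _)
    have h4 : A.spn (pw (p ^ (i + a)) G') ≤ B' := h3.trans (spn_le (fun g hg => h2 hg))
    have h5 : FinCos (S (i + a)) (GB hB') := (hi (i + a) (Nat.le_add_right _ _)).restrict
      (GB_mono _ _ hle)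
    obtain ⟨F, hF, hF1, hF2⟩ := h5
    have h6 : B' = ⨆ f ∈ hF.toFinset, A.tr (A.s f) (A.spn (pw (p ^ (i + a)) G')) := by
      refine le_antisymm (hB'.le_of_lines (fun g hg => ?_)) (iSup₂_le (fun f hf => ?_))
      · obtain ⟨f, hf, hfg⟩ := hF2 g hg
        have h7 := A.tr_mono (A.s f) (show A.line (f⁻¹ * g) ≤ A.spn (pw (p ^ (i + a)) G') from hfg)
        rw [A.tr_line, A.q_s, mul_inv_cancel_left] at h7
        exact h7.trans (le_iSup₂_of_le f (hF.mem_toFinset.2 hf) le_rfl)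
      · have h7 := A.tr_mono (A.s f) h4
        rwa [hB'.tr_GB (by rw [A.q_s]; exact hF1 (hF.mem_toFinset.1 hf))] at h7
    rw [h6]
    exact Submodule.fg_biSup _ _ (fun f _ => tr_fg (hfgj _))
  intro g hg
  obtain ⟨k, hk, h1⟩ := htorj (p ^ i) (hpj i) g hg
  have h2 : Finite ↥(S i) := hfin.to_subtype
  obtain ⟨n, hn, h3⟩ := isOfFinOrder_iff_pow_eq_one.1
    (isOfFinOrder_of_finite (⟨g ^ k, hjS i h1⟩ : ↥(S i)))
  refine ⟨k * n, Nat.mul_pos hk hn, ?_⟩
  rw [pow_mul]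
  exact congrArg Subtype.val h3

end Amb

end Pool.TFM
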