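import Mathlib
import Pool.Agent.TFM.KillB
import Pool.Agent.TFM.CaseI

/-!
# The group of lines is a torsion group
-/

set_option autoImplicit false

namespace Pool.TFM

open Cardinal Pool.TFR

namespace VD

open Amb

variable {p : ℕ} [Fact p.Prime] {H G R V : Type} [Group H] [CommGroup G] [CommRing R]
  [AddCommGroup V] [Module R V] {A : Amb p H G R V} {B : Submodule R V} {Λ : Type}
  [CommGroup Λ] [LinearOrder Λ] [IsOrderedMonoid Λ] (D : VD A B Λ)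

theorem lv_of_mem {h : H}
    (hh : A.act h A.c ∈ Submodule.span R {A.c} ⊔ (A.M ⊓ D.Vgt 1)) :
    ∃ g : D.Gam, A.q h = g.1 ∧ D.lv g = 1 := by
  have hc : Submodule.span R {A.c} ≤ D.Vge 1 := by
    rw [← A.line_one]
    refine D.line_le_Vge (g := 1) ?_
    rw [map_one]
  have h1 : A.act h A.c ∈ D.Vge 1 :=
    (sup_le hc (inf_le_right.trans (D.Vgt_le_Vge 1))) hh
  have h2 := A.act_mem_iff.1 (D.Vge_le_B 1 h1)
  refine ⟨⟨A.q h, h2⟩, rfl, ?_⟩
  refine le_antisymm (not_lt.1 (fun h3 => ?_)) ?_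
  · -- otherwise `c` has positive value
    have h4 : A.act h A.c ∈ D.Vgt 1 := by
      rw [A.act_mem_iff]
      exact D.line_le_Vgt (g := ⟨A.q h, h2⟩) h3
    obtain ⟨y, hy, z, hz, hyz⟩ := Submodule.mem_sup.1 hh
    have h5 : y ∈ D.Vgt 1 := by
      have : y = A.act h A.c - z := by rw [← hyz, add_sub_cancel_right]
      rw [this]
      exact (D.Vgt 1).sub_mem h4 hz.2
    have h6 : A.eps y = 1 := by
      have h7 := congrArg A.eps hyz
      rw [map_add, A.mem_M.1 hz.1, add_zero, A.eps_act, A.eps_c] at h7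
      exact h7
    have h7 := A.span_eq_of_mem (by rw [h6]; exact one_ne_zero) hy
    refine D.no ?_
    change A.line 1 ≤ D.Vgt 1
    rw [A.line_one, ← h7, Submodule.span_singleton_le_iff_mem]
    exact h5
  · rw [← D.line_le_Vge_iff]
    exact A.act_mem_iff.1 h1

theorem isBlock0 : A.IsBlock (Submodule.span R {A.c} ⊔ (A.M ⊓ D.Vgt 1)) := by
  refine isBlock_sup inf_le_left (fun h hh => ?_)
  obtain ⟨g, hg, hg1⟩ := D.lv_of_mem hh
  rw [A.tr_inf, A.tr_M, D.tr_Vgt g h hg, hg1, one_mul]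

/-- the elements of value one, as a subgroup of `G` -/
def ThG : Subgroup G := D.lv.ker.map (GB D.hB).subtype

theorem mem_ThG {g : G} : g ∈ D.ThG ↔ ∃ x : D.Gam, x.1 = g ∧ D.lv x = 1 := by
  constructor
  · rintro ⟨x, hx, rfl⟩
    exact ⟨x, rfl, hx⟩
  · rintro ⟨x, rfl, hx⟩
    exact ⟨x, hx, rfl⟩

theorem GB0_le : GB D.isBlock0 ≤ D.ThG := by
  intro g hg
  rw [mem_GB, A.line_le] at hg
  obtain ⟨x, hx, hx1⟩ := D.lv_of_mem hg
  rw [A.q_s] at hx
  exact D.mem_ThG.2 ⟨x, hx.symm, hx1⟩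

/-- the far blocks -/
theorem isBlockA {a : Λ} (ha : 1 < a) : A.IsBlock (Submodule.span R {A.c} ⊔ (A.M ⊓ D.Vge a)) := by
  refine isBlock_sup inf_le_left (fun h hh => ?_)
  have hle : Submodule.span R {A.c} ⊔ (A.M ⊓ D.Vge a) ≤
      Submodule.span R {A.c} ⊔ (A.M ⊓ D.Vgt 1) :=
    sup_le_sup_left (inf_le_inf_left _ (D.Vge_le_Vgt ha)) _
  obtain ⟨g, hg, hg1⟩ := D.lv_of_mem (hle hh)
  rw [A.tr_inf, A.tr_M, D.tr_Vge g h hg, hg1, one_mul]

/-- stability follows from the minimal condition -/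
theorem exists_stab (hD : DCC p G)
    (htor : ∀ g ∈ GB D.isBlock0, ∃ m : ℕ, 0 < m ∧ g ^ m = 1) : ∃ a0, D.Stab a0 := by
  have hpt := ptorsion D.isBlock0 htor
  have hle : ∀ {a : Λ}, 1 < a → Submodule.span R {A.c} ⊔ (A.M ⊓ D.Vge a) ≤
      Submodule.span R {A.c} ⊔ (A.M ⊓ D.Vgt 1) := fun ha =>
    sup_le_sup_left (inf_le_inf_left _ (D.Vge_le_Vgt ha)) _
  obtain ⟨_, ⟨a0, ha0, rfl⟩, hmin⟩ := hD ⊥ {S | ∃ (a : Λ) (ha : 1 < a), GB (D.isBlockA ha) = S}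
    (by
      obtain ⟨a, ha⟩ := D.pos
      exact ⟨_, a, ha, rfl⟩) (by
      rintro _ ⟨a, ha, rfl⟩
      refine ⟨bot_le, fun x hx => ?_⟩
      obtain ⟨e, he⟩ := hpt x (GB_mono _ _ (hle ha) hx)
      exact ⟨e, Subgroup.mem_bot.2 he⟩)
  refine ⟨a0, fun a => ?_⟩
  rcases le_or_gt a a0 with h | h
  · exact (inf_le_inf_left _ (D.Vge_mono h)).trans le_sup_right
  · have ha : 1 < a := ha0.trans h
    have h1 := hmin _ ⟨a, ha, rfl⟩ (GB_mono _ _ (sup_le_sup_left (inf_le_inf_left _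
      (D.Vge_mono h.le)) _))
    have h2 : Submodule.span R {A.c} ⊔ (A.M ⊓ D.Vge a0) ≤
        Submodule.span R {A.c} ⊔ (A.M ⊓ D.Vge a) := by
      refine (D.isBlockA ha0).le_of_lines (fun g hg => ?_)
      rw [← h1] at hg
      exact hg
    rw [A.line_one]
    exact le_sup_right.trans h2

omit [Fact p.Prime] in
theorem supR {N1 N2 K : Submodule R V} {x : V} (h : N1 ≤ N2) (hx : x ∈ N1 ⊔ K) : x ∈ N2 ⊔ K :=
  (sup_le_sup_right h K : N1 ⊔ K ≤ N2 ⊔ K) hx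

/-- the lines of value one are locally finitely generated modulo those of larger value -/
def FGen2 : Prop :=
  ∃ Θ2 : Subgroup G, Θ2 ≤ D.ThG ∧ Θ2.FG ∧ ∀ Θ' : Subgroup G, Θ2 ≤ Θ' → Θ' ≤ D.ThG → Θ'.FG →
    ∃ F : Set G, F.Finite ∧ F ⊆ Θ' ∧ ∀ θ ∈ Θ', A.line θ ≤ (⨆ f ∈ F, A.line f) ⊔ D.Vgt 1

theorem ext1 : ∀ n ∈ D.Vge 1, ∃ Θ' : Subgroup G, Θ' ≤ D.ThG ∧ Θ'.FG ∧
    n ∈ A.spn Θ' ⊔ D.Vgt 1 := by
  let T : Submodule R V :=
    { carrier := {n | ∃ Θ' : Subgroup G, Θ' ≤ D.ThG ∧ Θ'.FG ∧ n ∈ A.spn Θ' ⊔ D.Vgt 1}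
      add_mem' := by
        rintro a b ⟨Θ1, h1, h1', ha⟩ ⟨Θ2, h2, h2', hb⟩
        refine ⟨Θ1 ⊔ Θ2, sup_le h1 h2, h1'.sup h2', ?_⟩
        exact Submodule.add_mem _ (supR (spn_mono le_sup_left) ha)
          (supR (spn_mono le_sup_right) hb)
      zero_mem' := ⟨⊥, bot_le, ⟨∅, by simp⟩, Submodule.zero_mem _⟩
      smul_mem' := by
        rintro r a ⟨Θ1, h1, h1', ha⟩
        exact ⟨Θ1, h1, h1', Submodule.smul_mem _ _ ha⟩ }
  have hT : D.Vge 1 ≤ T := by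
    refine iSup₂_le (fun g hg => ?_)
    rw [A.line_le]
    rcases hg.eq_or_lt with h1 | h1
    · refine ⟨Subgroup.zpowers g.1, ?_, ⟨{g.1}, ?_⟩, ?_⟩
      · rw [Subgroup.zpowers_le]
        exact D.mem_ThG.2 ⟨g, rfl, h1.symm⟩
      · rw [Finset.coe_singleton, Subgroup.zpowers_eq_closure]
      · exact Submodule.mem_sup_left (line_le_spn (Subgroup.mem_zpowers g.1) (A.e_mem_line _))
    · exact ⟨⊥, bot_le, ⟨∅, by simp⟩, Submodule.mem_sup_right (D.e_mem_Vgt h1)⟩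
  exact fun n hn => hT hn

theorem ext2 : ∀ x ∈ A.J • D.Vge 1, ∃ Θ' : Subgroup G, Θ' ≤ D.ThG ∧ Θ'.FG ∧
    x ∈ A.J • A.spn Θ' ⊔ D.Vgt 1 := by
  intro x hx
  refine Submodule.smul_induction_on hx ?_ ?_
  · intro r hr n hn
    obtain ⟨Θ', h1, h2, h3⟩ := D.ext1 n hn
    refine ⟨Θ', h1, h2, ?_⟩
    have h4 : r • n ∈ A.J • (A.spn Θ' ⊔ D.Vgt 1) := Submodule.smul_mem_smul hr h3
    rw [Submodule.smul_sup, sup_comm] at h4
    rw [sup_comm]
    exact supR Submodule.smul_le_right h4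
  · rintro a b ⟨Θ1, h1, h1', ha⟩ ⟨Θ2, h2, h2', hb⟩
    refine ⟨Θ1 ⊔ Θ2, sup_le h1 h2, h1'.sup h2', ?_⟩
    exact Submodule.add_mem _
      (supR (Submodule.smul_mono le_rfl (spn_mono le_sup_left)) ha)
      (supR (Submodule.smul_mono le_rfl (spn_mono le_sup_right)) hb)

theorem J_Vge (hF : D.FGen2) : A.J • D.Vge 1 ≤ D.Vgt 1 := by
  by_contra hcon
  obtain ⟨x, hx, hx'⟩ := Set.not_subset.1 hcon
  set X : Submodule R V := A.J • D.Vge 1 ⊔ D.Vgt 1 with hX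
  have hXle : X ≤ D.Vge 1 := sup_le Submodule.smul_le_right (D.Vgt_le_Vge 1)
  obtain ⟨g0, hg0⟩ := D.exists_gt 1
  have h0 : A.e g0.1 ∈ D.Vgt 1 := D.e_mem_Vgt hg0
  have h1 : x + A.e g0.1 ∈ X :=
    Submodule.add_mem _ (Submodule.mem_sup_left hx) (Submodule.mem_sup_right h0)
  have h2 : A.eps (x + A.e g0.1) = 1 := by
    rw [map_add, A.mem_M.1 (A.J_smul_le_M _ hx), A.eps_e, zero_add]
  have h3 : x + A.e g0.1 ∉ D.Vgt 1 := by
    intro h
    have := (D.Vgt 1).sub_mem h h0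
    rw [add_sub_cancel_right] at this
    exact hx' this
  obtain ⟨θ', hθ'⟩ := D.state (D.Vge_le_B 1 (hXle h1)) h2
  have h4 : D.lv θ' = 1 := by
    refine le_antisymm (not_lt.1 (fun h => h3 ?_)) ?_
    · rw [← D.state_mem hθ']
      exact D.line_le_Vgt h
    · rw [← D.line_le_Vge_iff, D.state_mem hθ']
      exact hXle h1
  have h5 : D.Vge 1 ≤ X := by
    refine iSup₂_le (fun θ hθ => ?_)
    rcases hθ.eq_or_lt with h6 | h6
    · set γ : D.Gam := θ * θ'⁻¹ with hγ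
      have hγ1 : D.lv γ = 1 := by rw [hγ, map_mul, map_inv, h4, ← h6, inv_one, one_mul]
      have hq : A.q (A.s γ.1) = γ.1 := A.q_s _
      have h7 : A.tr (A.s γ.1) X = X := by
        rw [hX, A.tr_sup, A.tr_J, D.tr_Vge γ _ hq, D.tr_Vgt γ _ hq, hγ1, one_mul]
      have h8 : A.line θ'.1 ≤ X := by
        rw [D.state_mem hθ']; exact h1
      have h9 := A.tr_mono (A.s γ.1) h8
      rw [h7, A.tr_line, hq] at h9
      have h10 : γ.1 * θ'.1 = θ.1 := by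
        change ((γ * θ' : D.Gam) : G) = θ.1
        rw [hγ, inv_mul_cancel_right]
      rwa [h10] at h9
    · exact (D.line_le_Vgt h6).trans le_sup_right
  have hc : A.e ((1 : D.Gam) : G) ∈ D.Vge 1 := D.e_mem_Vge (by rw [map_one])
  obtain ⟨y, hy, z, hz, hyz⟩ := Submodule.mem_sup.1 (h5 hc)
  obtain ⟨Θ1, hΘ1, hΘ1', hy'⟩ := D.ext2 y hy
  obtain ⟨Θ2, hΘ2, hΘ2', hgen⟩ := hF
  obtain ⟨F, hFfin, hF1, hF2⟩ := hgen (Θ2 ⊔ Θ1) le_sup_left (sup_le hΘ2 hΘ1) (hΘ2'.sup hΘ1')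
  have hΘle : Θ2 ⊔ Θ1 ≤ D.ThG := sup_le hΘ2 hΘ1
  have h6 : A.line 1 ≤ A.J • A.spn (Θ2 ⊔ Θ1) ⊔ D.Vgt 1 := by
    rw [A.line_le]
    change A.e ((1 : D.Gam) : G) ∈ _
    rw [← hyz]
    refine Submodule.add_mem _ ?_ (Submodule.mem_sup_right hz)
    exact supR (Submodule.smul_mono le_rfl (spn_mono le_sup_right)) hy'
  have h7 : A.spn (Θ2 ⊔ Θ1) ≤ A.J • A.spn (Θ2 ⊔ Θ1) ⊔ D.Vgt 1 := by
    refine spn_le (fun g hg => ?_)
    obtain ⟨γ, hγ, hγ1⟩ := D.mem_ThG.1 (hΘle hg)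
    have h8 := A.tr_mono (A.s g) h6
    rw [A.tr_line, A.q_s, mul_one, A.tr_sup, A.tr_J, tr_spn (by rw [A.q_s]; exact hg),
      D.tr_Vgt γ _ (by rw [A.q_s]; exact hγ.symm), hγ1, one_mul] at h8
    exact h8
  have h8 : A.spn (Θ2 ⊔ Θ1) ≤ (⨆ f ∈ F, A.line f) ⊔ D.Vgt 1 := spn_le hF2
  have hFG : (⨆ f ∈ F, A.line f).FG := by
    have : (⨆ f ∈ F, A.line f) = ⨆ f ∈ hFfin.toFinset, A.line f := by simp
    rw [this]
    exact Submodule.fg_biSup _ _ (fun f _ => Submodule.fg_span_singleton _)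
  have h9 : (⨆ f ∈ F, A.line f) ≤ D.Vgt 1 := by
    refine Submodule.le_of_le_smul_of_le_jacobson_bot hFG A.J_le_jac ?_
    refine (iSup₂_le (fun f hf => line_le_spn (hF1 hf)) : _ ≤ A.spn (Θ2 ⊔ Θ1)).trans
      (h7.trans (sup_le ?_ le_sup_left))
    refine (Submodule.smul_mono le_rfl h8).trans ?_
    rw [Submodule.smul_sup]
    exact sup_le le_sup_right (Submodule.smul_le_right.trans le_sup_left)
  refine D.line_not_le 1 ?_
  rw [map_one]
  exact (line_le_spn (Subgroup.one_mem _)).trans (h8.trans (sup_le h9 le_rfl))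

theorem hJ_of (hF : D.FGen2) :
    ∀ r ∈ A.J, ∀ g : D.Gam, r • A.e g.1 ∈ D.Vgt (D.lv g) := by
  intro r hr g
  have h1 := A.tr_mono (A.s g.1) (D.J_Vge hF)
  rw [A.tr_J, D.tr_Vge g _ (A.q_s _), D.tr_Vgt g _ (A.q_s _), mul_one] at h1
  exact h1 (Submodule.smul_mem_smul hr (D.e_mem_Vge le_rfl))

theorem false_of (hF : D.FGen2) (hD : DCC p G)
    (htor : ∀ g ∈ GB D.isBlock0, ∃ m : ℕ, 0 < m ∧ g ^ m = 1) : False := by
  obtain ⟨a0, ha0⟩ := D.exists_stab hD htor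
  exact D.no_valuation ha0 (D.hJ_of hF)

end VD

namespace Amb

variable {p : ℕ} [Fact p.Prime] {H G R V : Type} [Group H] [CommGroup G] [CommRing R]
  [AddCommGroup V] [Module R V] {A : Amb p H G R V}

theorem block_torsion (hFR : FR G) (hD : DCC p G) (n : ℕ) :
    ∀ {B : Submodule R V} (hB : A.IsBlock B),
    ra ↥(GB hB) < n → ∀ g ∈ GB hB, ∃ m : ℕ, 0 < m ∧ g ^ m = 1 := by
  induction n with
  | zero =>
    intro B hB h
    rw [Nat.cast_zero] at h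
    exact absurd h (not_lt_of_ge zero_le)
  | succ n ih =>
    intro B hB h
    refine caseI hFR hD hB (fun B' hB' hle P0 hP0 hex0 => ?_)
    by_contra h10
    have h' : ra ↥(GB hB') < (n + 1 : ℕ) :=
      lt_of_le_of_lt (ra_le_of_injective (Subgroup.inclusion (GB_mono hB' hB hle))
        (Subgroup.inclusion_injective _)) h
    obtain ⟨P, hP, ⟨x0, hx0, hx0'⟩, h1, hprop⟩ := zorn_min (A.lineCl (GB hB'))
      ⟨P0, hP0, hex0, h10⟩
    let Pc : Submonoid ↥(GB hB') := P.comap (GB hB').subtype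
    obtain ⟨Λ, i1, i2, i3, lv, hsurj, hlv⟩ := exists_order Pc (fun g => hP.2 g.1 g.2)
    have hlv' : ∀ g : ↥(GB hB'), 1 ≤ lv g ↔ g.1 ∈ P := hlv
    have hlt : ∀ g : ↥(GB hB'), 1 < lv g ↔ g.1 ∈ pos P := by
      intro g
      rw [← not_le, ← Left.one_le_inv_iff, ← map_inv, hlv']
      constructor
      · intro h2
        exact ⟨(hP.2 g.1 g.2).resolve_right h2, h2⟩
      · intro h2
        exact h2.2
    have heq : ∀ g : ↥(GB hB'), lv g = 1 ↔ g.1 ∈ theta P := by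
      intro g
      constructor
      · intro hg
        refine ⟨(hlv' g).1 hg.ge, ?_⟩
        have h3 : (1 : Λ) ≤ lv g⁻¹ := by
          rw [map_inv, hg, inv_one]
        exact (hlv' g⁻¹).1 h3
      · intro hg
        refine le_antisymm ?_ ((hlv' g).2 hg.1)
        rw [← Left.one_le_inv_iff, ← map_inv, hlv']
        exact hg.2
    have hsup : (⨆ g : ↥(GB hB'), ⨆ (_ : 1 < lv g), A.line g.1) = ⨆ s : pos P, A.line s.1 := by
      refine le_antisymm (iSup₂_le (fun g hg => ?_)) (iSup_le (fun s => ?_))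
      · exact le_iSup (fun s : pos P => A.line s.1) ⟨g.1, (hlt g).1 hg⟩
      · exact le_iSup₂_of_le (⟨s.1, hP.1 _ s.2.1⟩ : ↥(GB hB')) ((hlt _).2 s.2) le_rfl
    let D : VD A B' Λ :=
      { hB := hB'
        lv := lv
        surj := hsurj
        no := by
          rw [hsup]
          exact h1
        pos := by
          refine ⟨lv ⟨x0⁻¹, (GB hB').inv_mem hx0⟩, (hlt _).2 ⟨?_, ?_⟩⟩
          · exact (hP.2 x0 hx0).resolve_left hx0'
          · change x0⁻¹⁻¹ ∉ P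
            rw [inv_inv]; exact hx0' }
    have hsup' : D.Vgt 1 = ⨆ s : pos P, A.line s.1 := hsup
    have hTh : D.ThG = theta P := by
      ext g
      rw [D.mem_ThG]
      constructor
      · rintro ⟨x, rfl, hx⟩
        exact (heq x).1 hx
      · intro hg
        exact ⟨⟨g, hP.1 _ hg.1⟩, rfl, (heq _).2 hg⟩
    have hΘΓ : theta P ≤ GB hB' := fun x hx => hP.1 x hx.1
    have hFG : D.FGen2 := by
      obtain ⟨Γ0, hΓ0, hΓ0fg, hΓ0t⟩ := hFR.sub (theta P)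
      obtain ⟨Θ2, hΘ2, hΘ2', hgen⟩ := bs2 ((A.lineCl (GB hB')).rel (theta P) hΘΓ (pos P)
        (fun g hg x hx => pos_mul hg.1 hx)) Γ0 hΓ0 hΓ0fg hΓ0t hprop
      refine ⟨Θ2, by rw [hTh]; exact hΘ2, hΘ2', fun Θ' h3 h4 h5 => ?_⟩
      rw [hTh] at h4
      obtain ⟨F, hF, hF1, hF2⟩ := hgen Θ' h3 h4 h5
      refine ⟨F, hF, hF1, fun θ hθ => ?_⟩
      have h6 : A.line θ ≤ ⨆ s : (F ∪ pos P : Set G), A.line s.1 := hF2 hθ
      refine h6.trans (iSup_le (fun s => ?_))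
      rcases s.2 with h7 | h7
      · refine le_trans ?_ le_sup_left
        exact le_iSup₂_of_le s.1 h7 le_rfl
      · rw [hsup']
        refine le_trans ?_ le_sup_right
        exact le_iSup (fun s : pos P => A.line s.1) ⟨s.1, h7⟩
    refine D.false_of hFG hD (ih D.isBlock0 ?_)
    -- the rank decreases
    have r1 : ra ↥(GB hB') = ra lv.ker + ra Λ := ra_add lv hsurj
    obtain ⟨a, ha⟩ := D.pos
    have r2 : ra Λ ≠ 0 := ra_ordered_ne ha
    have r3 : ra ↥(GB D.isBlock0) ≤ ra ↥D.ThG :=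
      ra_le_of_injective (Subgroup.inclusion D.GB0_le) (Subgroup.inclusion_injective _)
    have r4 : ra ↥D.ThG = ra lv.ker :=
      ra_congr (Subgroup.equivMapOfInjective _ _ (Subgroup.subtype_injective _)).symm
    rw [r4] at r3
    have r5 : ra ↥(GB hB') < ℵ₀ := lt_trans h' (Cardinal.natCast_lt_aleph0)
    rw [r1] at h' r5
    obtain ⟨k1, hk1⟩ := Cardinal.lt_aleph0.1 (lt_of_le_of_lt (self_le_add_right _ _) r5)
    obtain ⟨k2, hk2⟩ := Cardinal.lt_aleph0.1 (lt_of_le_of_lt (self_le_add_left _ _) r5)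
    rw [hk1, hk2] at h'
    rw [hk2] at r2
    refine lt_of_le_of_lt r3 ?_
    rw [hk1]
    have h3 : k1 + k2 < n + 1 := by exact_mod_cast h'
    have h4 : k2 ≠ 0 := by exact_mod_cast r2
    have h5 : k1 < n := by omega
    exact_mod_cast h5

theorem _root_.Pool.TFM.FR.ra_lt {G : Type} [CommGroup G] (h : FR G) : ra G < ℵ₀ := by
  obtain ⟨G0, hG0, h⟩ := h
  have h1 : Group.FG ↥G0 := (Group.fg_iff_subgroup_fg G0).2 hG0
  have h2 := ra_eq_of_powers G0.subtype G0.subtype_injective (fun b => by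
    obtain ⟨m, hm, hb⟩ := h b
    exact ⟨m, hm, by rw [Subgroup.range_subtype]; exact hb⟩)
  rw [← h2]
  have h3 : Module.Finite ℤ (Additive ↥G0) := inferInstance
  exact Module.rank_lt_aleph0 ℤ (Additive ↥G0)

/-- **Main result on transitive actions.** -/
theorem torsion_lines (A : Amb p H G R V) (hFR : FR G) (hD : DCC p G) :
    ∀ g : G, ∃ m : ℕ, 0 < m ∧ g ^ m = 1 := by
  intro g
  obtain ⟨n, hn⟩ := Cardinal.lt_aleph0.1 (hFR.subgroup (GB A.isBlock_top)).ra_lt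
  refine block_torsion hFR hD (n + 1) A.isBlock_top
    (by rw [hn]; exact_mod_cast Nat.lt_succ_self n) g ?_
  change A.line g ≤ ⊤
  exact le_top

end Amb

end Pool.TFM
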