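import Mathlib
import Pool.Agent.TFM.CoreB
import Pool.Agent.TFR.Sub

/-!
# Transitive actions over periodic commutative rings
-/

set_option autoImplicit false

namespace Pool.TFM

open Cardinal Pool.TFR
open scoped commutatorElement

theorem exists_idem {R : Type} [CommRing R] {r : R} {i j : ℕ} (hij : i < j) (h : r ^ i = r ^ j) :
    ∃ m : ℕ, 0 < m ∧ r ^ m * r ^ m = r ^ m := by
  obtain ⟨d, rfl⟩ : ∃ d, j = i + (d + 1) := ⟨j - i - 1, by omega⟩
  have h1 : ∀ n, i ≤ n → r ^ (n + (d + 1)) = r ^ n := by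
    intro n hn
    obtain ⟨k, rfl⟩ := Nat.exists_eq_add_of_le hn
    rw [add_right_comm, pow_add, ← h, ← pow_add]
  have h2 : ∀ k n, i ≤ n → r ^ (n + k * (d + 1)) = r ^ n := by
    intro k
    induction k with
    | zero => intro n _; rw [zero_mul, add_zero]
    | succ k ih =>
      intro n hn
      have e : n + (k + 1) * (d + 1) = (n + k * (d + 1)) + (d + 1) := by ring
      rw [e, h1 _ (by omega), ih n hn]
  refine ⟨(i + 1) * (d + 1), by positivity, ?_⟩
  rw [← pow_add]
  refine h2 (i + 1) _ ?_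
  nlinarith [Nat.zero_le (i * d), Nat.zero_le d]

/-- A group acting semilinearly and transitively on the elements of augmentation one. -/
structure TrR (p : ℕ) (Q Γ R V : Type) [Group Q] [CommGroup Γ] [CommRing R] [AddCommGroup V]
    [Module R V] where
  act : Q →* Module.End ℤ V
  κ : Q →* Γ
  eps : V →+ ZMod p
  aug : R →+* ZMod p
  eps_smul : ∀ (r : R) (v : V), eps (r • v) = aug r * eps v
  eps_act : ∀ (h : Q) (v : V), eps (act h v) = eps v
  conj : ∀ (h : Q) (r : R), ∃ r' : R, ∀ v : V, act h (r • v) = r' • act h v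
  c : V
  eps_c : eps c = 1
  trans : ∀ x : V, eps x = 1 → ∃ h, act h c = x
  K_act : ∀ k, κ k = 1 → ∃ u : R, ∀ v : V, act k v = u • v
  per : ∀ r : R, ∃ i j : ℕ, i < j ∧ r ^ i = r ^ j
  faith : ∀ r : R, (∀ v : V, r • v = 0) → r = 0

namespace TrR

variable {p : ℕ} {Q Γ R V : Type} [Group Q] [CommGroup Γ] [CommRing R] [AddCommGroup V]
  [Module R V] (T : TrR p Q Γ R V)

theorem act_inv_act (h : Q) (v : V) : T.act h⁻¹ (T.act h v) = v := by
  rw [← Module.End.mul_apply, ← map_mul, inv_mul_cancel, map_one]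
  rfl

theorem act_act_inv (h : Q) (v : V) : T.act h (T.act h⁻¹ v) = v := by
  rw [← Module.End.mul_apply, ← map_mul, mul_inv_cancel, map_one]
  rfl

theorem act_mul (h h' : Q) (v : V) : T.act (h * h') v = T.act h (T.act h' v) := by
  rw [map_mul, Module.End.mul_apply]

theorem act_one (v : V) : T.act 1 v = v := by
  rw [map_one]; rfl

include T in
theorem eq_of_smul {a b : R} (h : ∀ v : V, a • v = b • v) : a = b := by
  rw [← sub_eq_zero]
  exact T.faith _ (fun v => by rw [sub_smul, h v, sub_self])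

include T in
theorem eq_of_smul_act {a b : R} (g : Q) (h : ∀ v : V, a • T.act g v = b • T.act g v) :
    a = b := by
  refine T.eq_of_smul (fun v => ?_)
  have := h (T.act g⁻¹ v)
  rwa [T.act_act_inv] at this

/-- conjugation -/
noncomputable def cj (h : Q) (r : R) : R := (T.conj h r).choose

theorem cj_spec (h : Q) (r : R) (v : V) : T.act h (r • v) = T.cj h r • T.act h v :=
  (T.conj h r).choose_spec v

theorem aug_cj (h : Q) (r : R) : T.aug (T.cj h r) = T.aug r := by
  have h1 := congrArg T.eps (T.cj_spec h r T.c)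
  rw [T.eps_act, T.eps_smul, T.eps_smul, T.eps_act, T.eps_c, mul_one, mul_one] at h1
  exact h1.symm

theorem cj_one_right (h : Q) : T.cj h 1 = 1 :=
  T.eq_of_smul_act h (fun v => by rw [← T.cj_spec, one_smul, one_smul])

theorem cj_mul_right (h : Q) (a b : R) : T.cj h (a * b) = T.cj h a * T.cj h b :=
  T.eq_of_smul_act h (fun v => by
    rw [← T.cj_spec, mul_smul, mul_smul, T.cj_spec, T.cj_spec])

theorem cj_zero_right (h : Q) : T.cj h 0 = 0 :=
  T.eq_of_smul_act h (fun v => by rw [← T.cj_spec, zero_smul, zero_smul, map_zero])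

theorem cj_add_right (h : Q) (a b : R) : T.cj h (a + b) = T.cj h a + T.cj h b :=
  T.eq_of_smul_act h (fun v => by
    rw [← T.cj_spec, add_smul, add_smul, map_add, T.cj_spec, T.cj_spec])

theorem cj_mul (h h' : Q) (r : R) : T.cj (h * h') r = T.cj h (T.cj h' r) :=
  T.eq_of_smul_act (h * h') (fun v => by
    rw [← T.cj_spec, T.act_mul, T.act_mul, T.cj_spec, T.cj_spec])

theorem cj_of_K {k : Q} (hk : T.κ k = 1) (r : R) : T.cj k r = r := by
  obtain ⟨u, hu⟩ := T.K_act k hk
  refine T.eq_of_smul_act k (fun v => ?_)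
  rw [← T.cj_spec, hu, hu, smul_comm]

theorem cj_one (r : R) : T.cj 1 r = r := T.cj_of_K (map_one _) r

theorem exists_move {x y : V} (hx : T.eps x = 1) (hy : T.eps y = 1) : ∃ h, T.act h x = y := by
  obtain ⟨g1, rfl⟩ := T.trans x hx
  obtain ⟨g2, rfl⟩ := T.trans y hy
  exact ⟨g2 * g1⁻¹, by rw [T.act_mul, T.act_inv_act]⟩

/-- The idempotent lemma. -/
theorem idem_fix {e : R} (he : e * e = e) (ha : T.aug e = 1) {x : V} (hx : T.eps x = 1) :
    e • x = x := by
  obtain ⟨h, hh⟩ := T.exists_move hx (y := e • x) (by rw [T.eps_smul, ha, hx, one_mul])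
  set eh := T.cj h e with heh
  have heh2 : eh * eh = eh := by rw [heh, ← T.cj_mul_right, he]
  set f : R := 1 - e * (1 - eh) with hf
  have hfa : T.aug f = 1 := by
    rw [hf, map_sub, map_mul, map_sub, map_one, heh, T.aug_cj, ha, sub_self, mul_zero, sub_zero]
  have hff : (1 - f) * f = 0 := by
    have h1 : (1 - f) * f = (e * e) * (1 - eh) - (e * e) * ((1 - eh) * (1 - eh)) +
        (e - e * e) * (1 - eh) := by rw [hf]; ring
    have h2 : (1 - eh) * (1 - eh) = 1 - eh := by
      have : (1 - eh) * (1 - eh) = 1 - 2 * eh + eh * eh := by ring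
      rw [this, heh2]; ring
    rw [h1, h2, he]; ring
  obtain ⟨h', hh'⟩ := T.exists_move hx (y := f • x) (by rw [T.eps_smul, hfa, hx, one_mul])
  obtain ⟨u, hu⟩ := T.K_act (h * h' * (h' * h)⁻¹) (by
    rw [map_mul, map_inv, map_mul, map_mul, mul_comm (T.κ h'), mul_inv_cancel])
  have e1 : T.act (h * h') x = u • T.act (h' * h) x := by
    rw [← hu, ← T.act_mul, inv_mul_cancel_right]
  rw [T.act_mul, T.act_mul, hh', hh, T.cj_spec, T.cj_spec, hh, hh'] at e1
  -- multiply by `1 - f`
  have e2 : (1 - f) • (T.cj h f • e • x) = 0 := by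
    rw [e1, smul_smul, smul_smul, smul_smul]
    have h3 : (1 - f) * u * T.cj h' e * f = u * T.cj h' e * ((1 - f) * f) := by ring
    rw [h3, hff, mul_zero, zero_smul]
  have e3 : T.cj h f = 1 - eh * (1 - T.cj h eh) := by
    refine T.eq_of_smul_act h (fun v => ?_)
    rw [← T.cj_spec, hf, sub_smul, one_smul, mul_smul, sub_smul, one_smul, map_sub, T.cj_spec,
      map_sub, T.cj_spec, sub_smul, one_smul, mul_smul, sub_smul, one_smul]
  have e4 : (1 - f) * (T.cj h f * e) = e - eh * e := by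
    have h5 : 1 - f = e * (1 - eh) := by rw [hf]; ring
    rw [h5, e3]
    have h6 : e * (1 - eh) * ((1 - eh * (1 - T.cj h eh)) * e) =
        (e * e) * (1 - eh) - (e * e) * (1 - T.cj h eh) * (eh - eh * eh) := by ring
    rw [h6, heh2, he]; ring
  have e5 : e • x = eh • e • x := by
    rw [smul_smul, smul_smul] at e2
    have h7 : (1 - f) * T.cj h f * e = e - eh * e := by rw [← e4]; ring
    rw [h7, sub_smul, mul_smul, sub_eq_zero] at e2
    exact e2
  have e6 : eh • e • x = T.act h (T.act h x) := by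
    rw [← hh, heh, ← T.cj_spec, ← hh]
  rw [e6, ← hh] at e5
  have e7 := congrArg (T.act h⁻¹) e5
  rw [T.act_inv_act, T.act_inv_act] at e7
  rw [← hh, ← e7]

theorem exists_shift [Fact p.Prime] (x : V) : ∃ n : ℕ, T.eps (x + n • T.c) = 1 := by
  obtain ⟨n, hn⟩ := ZMod.natCast_zmod_surjective (1 - T.eps x)
  refine ⟨n, ?_⟩
  rw [map_add, map_nsmul, T.eps_c, nsmul_eq_mul, mul_one, hn]
  abel

/-- idempotents of augmentation one are trivial -/
theorem idem_one [Fact p.Prime] {e : R} (he : e * e = e) (ha : T.aug e = 1) : e = 1 := by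
  refine T.eq_of_smul (fun v => ?_)
  obtain ⟨n, hn⟩ := T.exists_shift v
  have h1 := T.idem_fix he ha hn
  have h2 := T.idem_fix he ha T.eps_c
  rw [smul_add, smul_comm, h2] at h1
  rw [one_smul]
  exact add_right_cancel h1

theorem nil [Fact p.Prime] {r : R} (hr : T.aug r = 0) : IsNilpotent r := by
  obtain ⟨i, j, hij, h⟩ := T.per r
  obtain ⟨m, hm, hmm⟩ := exists_idem hij h
  refine ⟨m, ?_⟩
  have h1 : (1 - r ^ m) * (1 - r ^ m) = 1 - r ^ m := by
    have : (1 - r ^ m) * (1 - r ^ m) = 1 - 2 * r ^ m + r ^ m * r ^ m := by ring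
    rw [this, hmm]; ring
  have h2 := T.idem_one h1 (by
    rw [map_sub, map_one, map_pow, hr, zero_pow hm.ne', sub_zero])
  have h3 : r ^ m = 1 - (1 - r ^ m) := by ring
  rw [h3, h2, sub_self]

theorem isUnit_of_aug [Fact p.Prime] {r : R} (h : T.aug r = 1) : IsUnit r := by
  have h1 : T.aug (r - 1) = 0 := by rw [map_sub, h, map_one, sub_self]
  have := (T.nil h1).isUnit_add_one
  rwa [sub_add_cancel] at this

/-- the stabiliser of the line through the base point -/
def L [Fact p.Prime] : Subgroup Q where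
  carrier := {h | T.act h T.c ∈ Submodule.span R {T.c}}
  mul_mem' := by
    intro a b ha hb
    change T.act (a * b) T.c ∈ Submodule.span R {T.c}
    obtain ⟨u, hu⟩ := Submodule.mem_span_singleton.1 hb
    rw [T.act_mul, ← hu, T.cj_spec]
    exact Submodule.smul_mem _ _ ha
  one_mem' := by
    change T.act 1 T.c ∈ Submodule.span R {T.c}
    rw [T.act_one]
    exact Submodule.mem_span_singleton_self _
  inv_mem' := by
    intro a ha
    change T.act a⁻¹ T.c ∈ Submodule.span R {T.c}
    obtain ⟨u, hu⟩ := Submodule.mem_span_singleton.1 ha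
    have h1 : T.aug u = 1 := by
      have := congrArg T.eps hu
      rwa [T.eps_smul, T.eps_act, T.eps_c, mul_one] at this
    have h2 := congrArg (T.act a⁻¹) hu
    rw [T.act_inv_act, T.cj_spec] at h2
    have h3 : IsUnit (T.cj a⁻¹ u) := T.isUnit_of_aug (by rw [T.aug_cj, h1])
    obtain ⟨w, hw⟩ := h3
    rw [← hw] at h2
    rw [Submodule.mem_span_singleton]
    refine ⟨((w⁻¹ : Rˣ) : R), ?_⟩
    conv_lhs => rw [← h2]
    rw [smul_smul, Units.inv_mul, one_smul]

theorem mem_L [Fact p.Prime] {h : Q} :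
    h ∈ T.L ↔ T.act h T.c ∈ Submodule.span R {T.c} := Iff.rfl

theorem K_le_L [Fact p.Prime] {k : Q} (hk : T.κ k = 1) : k ∈ T.L := by
  obtain ⟨u, hu⟩ := T.K_act k hk
  rw [T.mem_L, hu]
  exact Submodule.smul_mem _ _ (Submodule.mem_span_singleton_self _)

/-- the group of lines -/
abbrev Gr [Fact p.Prime] : Type := ↥T.κ.range ⧸ (T.L.map T.κ.rangeRestrict)

/-- the map to the group of lines -/
def toGr [Fact p.Prime] : Q →* T.Gr :=
  (QuotientGroup.mk' (T.L.map T.κ.rangeRestrict)).comp T.κ.rangeRestrict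

theorem toGr_eq_one [Fact p.Prime] {h : Q} : T.toGr h = 1 ↔ h ∈ T.L := by
  have h1 : T.toGr h = 1 ↔ T.κ.rangeRestrict h ∈ T.L.map T.κ.rangeRestrict :=
    QuotientGroup.eq_one_iff _
  rw [h1]
  constructor
  · rintro ⟨l, hl, hlh⟩
    have h2 : T.κ l = T.κ h := congrArg Subtype.val hlh
    have h3 : T.κ (l⁻¹ * h) = 1 := by rw [map_mul, map_inv, h2, inv_mul_cancel]
    have h4 := T.L.mul_mem hl (T.K_le_L h3)
    rwa [mul_inv_cancel_left] at h4
  · intro hh
    exact ⟨h, hh, rfl⟩

/-- the associated ambient structure -/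
def toAmb [Fact p.Prime] : Amb p Q T.Gr R V where
  act := T.act
  q := T.toGr
  q_surj := (QuotientGroup.mk'_surjective _).comp T.κ.rangeRestrict_surjective
  eps := T.eps
  aug := T.aug
  eps_smul := T.eps_smul
  eps_act := T.eps_act
  nil := fun _ hr => T.nil hr
  conj := T.conj
  c := T.c
  eps_c := T.eps_c
  trans := T.trans
  ker_q := fun _ => T.toGr_eq_one

theorem pow_mem_L [Fact p.Prime] (hFR : FR Γ) (hD : DCC p Γ) (h : Q) :
    ∃ m : ℕ, 0 < m ∧ h ^ m ∈ T.L := by
  have h1 : FR T.Gr := (hFR.subgroup T.κ.range).of_surjective (QuotientGroup.mk' _)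
    (QuotientGroup.mk'_surjective _)
  have h2 : DCC p T.Gr := (hD.of_injective T.κ.range.subtype
    T.κ.range.subtype_injective).of_surjective (QuotientGroup.mk' _)
    (QuotientGroup.mk'_surjective _)
  obtain ⟨m, hm, h3⟩ := T.toAmb.torsion_lines h1 h2 (T.toGr h)
  refine ⟨m, hm, ?_⟩
  rw [← T.toGr_eq_one, map_pow]
  exact h3

end TrR

end Pool.TFM
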