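import Mathlib
import Pool.Agent.TFM.RingB

/-!
# The multiplicative derivation of the stabiliser of a line
-/

set_option autoImplicit false

namespace Pool.TFM

open Cardinal Pool.TFR
open scoped commutatorElement

namespace TrR

variable {p : ℕ} [Fact p.Prime] {Q Γ R V : Type} [Group Q] [CommGroup Γ] [CommRing R]
  [AddCommGroup V] [Module R V] (T : TrR p Q Γ R V)

/-- units of augmentation one -/
def U : Subgroup Rˣ where
  carrier := {u | T.aug (u : R) = 1}
  mul_mem' := by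
    intro a b ha hb
    change T.aug ((a * b : Rˣ) : R) = 1
    have ha' : T.aug (a : R) = 1 := ha
    have hb' : T.aug (b : R) = 1 := hb
    rw [Units.val_mul, map_mul, ha', hb', mul_one]
  one_mem' := by
    change T.aug ((1 : Rˣ) : R) = 1
    rw [Units.val_one, map_one]
  inv_mem' := by
    intro a ha
    change T.aug ((a⁻¹ : Rˣ) : R) = 1
    have ha' : T.aug (a : R) = 1 := ha
    have h1 := congrArg T.aug (Units.inv_mul a)
    rwa [map_mul, map_one, ha', mul_one] at h1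

theorem mem_U {u : Rˣ} : u ∈ T.U ↔ T.aug (u : R) = 1 := Iff.rfl

/-- those fixing the base point -/
def Uc : Subgroup ↥T.U where
  carrier := {u | ((u : Rˣ) : R) • T.c = T.c}
  mul_mem' := by
    intro a b ha hb
    change (((a * b : ↥T.U) : Rˣ) : R) • T.c = T.c
    have ha' : ((a : Rˣ) : R) • T.c = T.c := ha
    have hb' : ((b : Rˣ) : R) • T.c = T.c := hb
    rw [Subgroup.coe_mul, Units.val_mul, mul_smul, hb', ha']
  one_mem' := by
    change (((1 : ↥T.U) : Rˣ) : R) • T.c = T.c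
    rw [Subgroup.coe_one, Units.val_one, one_smul]
  inv_mem' := by
    intro a ha
    change (((a⁻¹ : ↥T.U) : Rˣ) : R) • T.c = T.c
    have ha' : ((a : Rˣ) : R) • T.c = T.c := ha
    rw [Subgroup.coe_inv]
    conv_lhs => rw [← ha']
    rw [smul_smul, Units.inv_mul, one_smul]

theorem mem_Uc {u : ↥T.U} : u ∈ T.Uc ↔ ((u : Rˣ) : R) • T.c = T.c := Iff.rfl

/-- the conjugation homomorphism -/
noncomputable def cjH (h : Q) : R →+* R where
  toFun := T.cj h
  map_one' := T.cj_one_right h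
  map_mul' := T.cj_mul_right h
  map_zero' := T.cj_zero_right h
  map_add' := T.cj_add_right h

/-- conjugation on the units -/
noncomputable def cjU (h : Q) : ↥T.U →* ↥T.U where
  toFun u := ⟨Units.map (T.cjH h : R →* R) u.1, by
    rw [mem_U]
    change T.aug (T.cj h (u.1 : R)) = 1
    rw [T.aug_cj]
    exact u.2⟩
  map_one' := Subtype.ext (map_one _)
  map_mul' a b := Subtype.ext (map_mul _ _ _)

theorem coe_cjU (h : Q) (u : ↥T.U) : (((T.cjU h u : ↥T.U) : Rˣ) : R) = T.cj h ((u : Rˣ) : R) := rfl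

theorem exists_unit {h : Q} (hh : h ∈ T.L) : ∃ u : ↥T.U, ((u : Rˣ) : R) • T.c = T.act h T.c := by
  obtain ⟨u, hu⟩ := Submodule.mem_span_singleton.1 hh
  have h1 : T.aug u = 1 := by
    have := congrArg T.eps hu
    rwa [T.eps_smul, T.eps_act, T.eps_c, mul_one] at this
  obtain ⟨w, rfl⟩ := T.isUnit_of_aug h1
  exact ⟨⟨w, h1⟩, hu⟩

theorem cjU_le {h : Q} (hh : h ∈ T.L) : T.Uc ≤ T.Uc.comap (T.cjU h) := by
  intro u hu
  change (((T.cjU h u : ↥T.U) : Rˣ) : R) • T.c = T.c
  obtain ⟨w, hw⟩ := T.exists_unit hh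
  have h1 : T.act h (((u : Rˣ) : R) • T.c) = T.act h T.c := congrArg _ hu
  rw [T.cj_spec, ← hw, smul_comm] at h1
  have h2 : (((w.1)⁻¹ : Rˣ) : R) • (((w : Rˣ) : R) • (T.cj h ((u : Rˣ) : R) • T.c)) =
      (((w.1)⁻¹ : Rˣ) : R) • (((w : Rˣ) : R) • T.c) := congrArg _ h1
  rw [smul_smul, Units.inv_mul, one_smul, smul_smul, Units.inv_mul, one_smul] at h2
  exact h2

/-- the quotient of the unit group -/
def MU : Type := Additive (↥T.U ⧸ T.Uc)

noncomputable instance : AddCommGroup T.MU :=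
  (inferInstance : AddCommGroup (Additive (↥T.U ⧸ T.Uc)))

/-- the class of a unit -/
def cls (u : ↥T.U) : T.MU := Additive.ofMul (QuotientGroup.mk u)

theorem cls_surj : Function.Surjective T.cls := by
  intro y
  obtain ⟨u, hu⟩ := QuotientGroup.mk_surjective (Additive.toMul y : ↥T.U ⧸ T.Uc)
  exact ⟨u, congrArg Additive.ofMul hu⟩

theorem mk_eq {u w : ↥T.U} (h : ((u : Rˣ) : R) • T.c = ((w : Rˣ) : R) • T.c) :
    (QuotientGroup.mk u : ↥T.U ⧸ T.Uc) = QuotientGroup.mk w := by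
  rw [QuotientGroup.eq]
  change (((u⁻¹ * w : ↥T.U) : Rˣ) : R) • T.c = T.c
  rw [Subgroup.coe_mul, Units.val_mul, mul_smul, ← h, smul_smul, Subgroup.coe_inv,
    Units.inv_mul, one_smul]

theorem mk_eq' {u w : ↥T.U} (h : (QuotientGroup.mk u : ↥T.U ⧸ T.Uc) = QuotientGroup.mk w) :
    ((u : Rˣ) : R) • T.c = ((w : Rˣ) : R) • T.c := by
  rw [QuotientGroup.eq] at h
  have h1 : (((u⁻¹ * w : ↥T.U) : Rˣ) : R) • T.c = T.c := h
  rw [Subgroup.coe_mul, Units.val_mul, mul_smul, Subgroup.coe_inv] at h1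
  conv_lhs => rw [← h1]
  rw [smul_smul, Units.mul_inv, one_smul]

/-- the action on the quotient -/
noncomputable def mapQ (h : ↥T.L) : (↥T.U ⧸ T.Uc) →* (↥T.U ⧸ T.Uc) :=
  QuotientGroup.map T.Uc T.Uc (T.cjU h.1) (T.cjU_le h.2)

theorem mapQ_mk (h : ↥T.L) (u : ↥T.U) :
    T.mapQ h (QuotientGroup.mk u) = QuotientGroup.mk (T.cjU h.1 u) := rfl

theorem cjU_mul (a b : Q) (u : ↥T.U) : T.cjU (a * b) u = T.cjU a (T.cjU b u) := by
  refine Subtype.ext (Units.ext ?_)
  rw [coe_cjU, coe_cjU, coe_cjU, T.cj_mul]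

theorem cjU_K {k : Q} (hk : T.κ k = 1) (u : ↥T.U) : T.cjU k u = u := by
  refine Subtype.ext (Units.ext ?_)
  rw [coe_cjU, T.cj_of_K hk]

/-- the linear action on the additive quotient of the unit group -/
noncomputable def rhoU : ↥T.L →* Module.End ℤ T.MU where
  toFun h := AddMonoidHom.toIntLinearMap (MonoidHom.toAdditive (T.mapQ h) : T.MU →+ T.MU)
  map_one' := by
    refine LinearMap.ext (fun x => ?_)
    obtain ⟨u, rfl⟩ := T.cls_surj x
    change T.cls (T.cjU 1 u) = T.cls u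
    rw [T.cjU_K (map_one _)]
  map_mul' a b := by
    refine LinearMap.ext (fun x => ?_)
    obtain ⟨u, rfl⟩ := T.cls_surj x
    change T.cls (T.cjU (a.1 * b.1) u) = T.cls (T.cjU a.1 (T.cjU b.1 u))
    rw [T.cjU_mul]

theorem rhoU_cls (h : ↥T.L) (u : ↥T.U) : T.rhoU h (T.cls u) = T.cls (T.cjU h.1 u) := rfl

/-- the unit attached to an element of the stabiliser of the line -/
noncomputable def un (h : ↥T.L) : ↥T.U := (T.exists_unit h.2).choose

theorem un_spec (h : ↥T.L) : ((T.un h : Rˣ) : R) • T.c = T.act h.1 T.c :=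
  (T.exists_unit h.2).choose_spec

theorem cls_eq {u w : ↥T.U} (h : ((u : Rˣ) : R) • T.c = ((w : Rˣ) : R) • T.c) :
    T.cls u = T.cls w := congrArg Additive.ofMul (T.mk_eq h)

theorem cls_eq' {u w : ↥T.U} (h : T.cls u = T.cls w) :
    ((u : Rˣ) : R) • T.c = ((w : Rˣ) : R) • T.c := T.mk_eq' h

theorem cls_mul (u w : ↥T.U) : T.cls (u * w) = T.cls u + T.cls w := rfl

theorem cls_one : T.cls 1 = 0 := rfl

/-- the multiplicative derivation -/
noncomputable def derU : Der ↥T.L T.MU where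
  ρ := T.rhoU
  π h := T.cls (T.un h)
  map_mul a b := by
    rw [T.rhoU_cls, ← T.cls_mul]
    refine T.cls_eq ?_
    have h1 : (((T.un a * T.cjU a.1 (T.un b) : ↥T.U) : Rˣ) : R) =
        T.cj a.1 ((T.un b : Rˣ) : R) * ((T.un a : Rˣ) : R) := by
      rw [Subgroup.coe_mul, Units.val_mul, mul_comm, coe_cjU]
    rw [h1, mul_smul, T.un_spec, T.un_spec, ← T.cj_spec, T.un_spec, ← T.act_mul]
    rfl

theorem derU_surj : Function.Surjective T.derU.π := by
  intro y
  obtain ⟨u, rfl⟩ := T.cls_surj y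
  obtain ⟨h, hh⟩ := T.trans (((u : Rˣ) : R) • T.c) (by
    rw [T.eps_smul, T.eps_c, mul_one]
    exact u.2)
  have hL : h ∈ T.L := by
    rw [T.mem_L, hh]
    exact Submodule.smul_mem _ _ (Submodule.mem_span_singleton_self _)
  refine ⟨⟨h, hL⟩, ?_⟩
  exact T.cls_eq (by rw [T.un_spec]; exact hh)

theorem MU_torsion (m : T.MU) : m ∈ Der.tors T.MU := by
  obtain ⟨u, rfl⟩ := T.cls_surj m
  obtain ⟨i, j, hij, h⟩ := T.per ((u : Rˣ) : R)
  have h1 : (u : Rˣ) ^ (j - i) = 1 := by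
    have h2 : (u : Rˣ) ^ i = (u : Rˣ) ^ j := Units.ext (by
      rw [Units.val_pow_eq_pow_val, Units.val_pow_eq_pow_val]; exact h)
    have h3 : (u : Rˣ) ^ j = (u : Rˣ) ^ i * (u : Rˣ) ^ (j - i) := by
      rw [← pow_add]; congr 1; omega
    rw [h3] at h2
    exact (mul_eq_left.1 h2.symm)
  have hcls : ∀ n : ℕ, n • T.cls u = T.cls (u ^ n) := by
    intro n
    induction n with
    | zero => rw [zero_smul, pow_zero, T.cls_one]
    | succ n ih => rw [succ_nsmul, ih, ← T.cls_mul, pow_succ]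
  refine ⟨j - i, by omega, ?_⟩
  rw [natCast_zsmul, hcls]
  have : u ^ (j - i) = 1 := Subtype.ext (by rw [Subgroup.coe_pow, h1]; rfl)
  rw [this, T.cls_one]

/-- the stabiliser of the base point -/
def stc : Subgroup Q where
  carrier := {h | T.act h T.c = T.c}
  mul_mem' := by
    intro a b ha hb
    change T.act (a * b) T.c = T.c
    have ha' : T.act a T.c = T.c := ha
    have hb' : T.act b T.c = T.c := hb
    rw [T.act_mul, hb', ha']
  one_mem' := T.act_one _
  inv_mem' := by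
    intro a ha
    change T.act a⁻¹ T.c = T.c
    have ha' : T.act a T.c = T.c := ha
    conv_lhs => rw [← ha']
    rw [T.act_inv_act]

omit [Fact p.Prime] in
theorem mem_stc {h : Q} : h ∈ T.stc ↔ T.act h T.c = T.c := Iff.rfl

theorem r0_L [Group.IsSolvable Q] (hr : r0 Q < ℵ₀) : r0 ↥T.L = r0 ↥T.stc := by
  have h1 := T.derU.star_torsion (lt_of_le_of_lt (r0_subgroup_le T.L) hr) T.derU_surj
    T.MU_torsion (fun z => Or.inr ⟨1, one_pos, ⊤, inferInstance, fun y _ => by
      refine LinearMap.ext (fun x => ?_)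
      obtain ⟨u, rfl⟩ := T.cls_surj x
      change T.cls (T.cjU (⁅z ^ 1, y⁆ : ↥T.L).1 u) = T.cls u
      have h2 : T.κ ((⁅z ^ 1, y⁆ : ↥T.L) : Q) = 1 := by
        change T.κ (T.L.subtype ⁅z ^ 1, y⁆) = 1
        rw [map_commutatorElement, map_commutatorElement, commutatorElement_eq_one_iff_mul_comm,
          mul_comm]
      rw [T.cjU_K h2]⟩)
  rw [h1]
  refine r0_congr ?_
  refine
    { toFun := fun x => ⟨x.1.1, ?_⟩
      invFun := fun x => ⟨⟨x.1, ?_⟩, ?_⟩
      left_inv := fun x => rfl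
      right_inv := fun x => rfl
      map_mul' := fun x y => rfl }
  · have h2 : T.derU.π x.1 ∈ (⊥ : Submodule ℤ T.MU) := x.2
    rw [Submodule.mem_bot] at h2
    have h3 : T.cls (T.un x.1) = T.cls 1 := h2
    have h4 := T.cls_eq' h3
    rw [T.un_spec, Subgroup.coe_one, Units.val_one, one_smul] at h4
    exact h4
  · rw [T.mem_L, T.mem_stc.1 x.2]
    exact Submodule.mem_span_singleton_self _
  · change T.derU.π _ ∈ (⊥ : Submodule ℤ T.MU)
    rw [Submodule.mem_bot]
    change T.cls (T.un _) = T.cls 1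
    refine T.cls_eq ?_
    rw [T.un_spec, Subgroup.coe_one, Units.val_one, one_smul]
    exact x.2

/-- **The rank of the stabiliser.** -/
theorem r0_stc [Group.IsSolvable Q] (hr : r0 Q < ℵ₀) (hFR : FR Γ) (hD : DCC p Γ) :
    r0 ↥T.stc = r0 Q := by
  rw [← T.r0_L hr]
  exact r0_eq_of_powers _ (fun g => T.pow_mem_L hFR hD g)

end TrR

end Pool.TFM
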