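import Mathlib
import Pool.Agent.TFM.MultB

/-!
# Surjective derivations into elementary abelian groups
-/

set_option autoImplicit false

namespace Pool.TFM

open Cardinal Pool.TFR
open scoped commutatorElement

section

variable {p : ℕ} [Fact p.Prime] {Q M Γ : Type} [Group Q] [AddCommGroup M] [CommGroup Γ]

/-- the extended module -/
abbrev Ext (p : ℕ) (M : Type) : Type := M × ZMod p

variable (D : Der Q M) (hpM : ∀ m : M, p • m = 0)

/-- the scalar action of `ZMod p` -/
noncomputable def sca (hpM : ∀ m : M, p • m = 0) (m : M) : ZMod p →+ M :=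
  ZMod.lift p ⟨zmultiplesHom M m, by
    change (p : ℤ) • m = 0
    rw [natCast_zsmul, hpM]⟩

theorem sca_natCast (m : M) (n : ℕ) : sca hpM m (n : ZMod p) = n • m := by
  have h1 : sca hpM m ((n : ℤ) : ZMod p) = (n : ℤ) • m := ZMod.lift_coe p _ _
  rw [natCast_zsmul] at h1
  rw [← h1]
  congr 1
  push_cast
  rfl

theorem sca_one (m : M) : sca hpM m 1 = m := by
  have := sca_natCast hpM m 1
  rwa [Nat.cast_one, one_smul] at this

theorem sca_add (m m' : M) (t : ZMod p) : sca hpM (m + m') t = sca hpM m t + sca hpM m' t := by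
  obtain ⟨n, rfl⟩ := ZMod.natCast_zmod_surjective t
  rw [sca_natCast, sca_natCast, sca_natCast, smul_add]

theorem sca_map (f : Module.End ℤ M) (m : M) (t : ZMod p) :
    f (sca hpM m t) = sca hpM (f m) t := by
  obtain ⟨n, rfl⟩ := ZMod.natCast_zmod_surjective t
  rw [sca_natCast, sca_natCast, map_nsmul]

theorem sca_zero (t : ZMod p) : sca hpM 0 t = 0 := by
  obtain ⟨n, rfl⟩ := ZMod.natCast_zmod_surjective t
  rw [sca_natCast, smul_zero]

/-- the action on the extended module -/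
noncomputable def eact : Q →* Module.End ℤ (Ext p M) where
  toFun q := AddMonoidHom.toIntLinearMap
    { toFun := fun v => (D.ρ q v.1 + sca hpM (D.π q) v.2, v.2)
      map_zero' := by
        rw [Prod.fst_zero, Prod.snd_zero, map_zero, map_zero, add_zero]
        rfl
      map_add' := by
        intro v w
        refine Prod.ext ?_ rfl
        change D.ρ q (v.1 + w.1) + sca hpM (D.π q) (v.2 + w.2) =
          D.ρ q v.1 + sca hpM (D.π q) v.2 + (D.ρ q w.1 + sca hpM (D.π q) w.2)
        rw [map_add, map_add]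
        abel }
  map_one' := by
    refine LinearMap.ext (fun v => ?_)
    refine Prod.ext ?_ rfl
    change D.ρ 1 v.1 + sca hpM (D.π 1) v.2 = v.1
    rw [D.map_one, sca_zero, add_zero, map_one]
    rfl
  map_mul' := by
    intro a b
    refine LinearMap.ext (fun v => ?_)
    refine Prod.ext ?_ rfl
    change D.ρ (a * b) v.1 + sca hpM (D.π (a * b)) v.2 =
      D.ρ a (D.ρ b v.1 + sca hpM (D.π b) v.2) + sca hpM (D.π a) v.2
    rw [D.map_mul, sca_add, map_mul, map_add, sca_map]
    change D.ρ a (D.ρ b v.1) + _ = _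
    abel

theorem eact_apply (q : Q) (v : Ext p M) :
    eact D hpM q v = (D.ρ q v.1 + sca hpM (D.π q) v.2, v.2) := rfl

theorem eact_base (q : Q) : eact D hpM q ((0 : M), (1 : ZMod p)) = (D.π q, 1) := by
  rw [eact_apply, map_zero, sca_one, zero_add]

/-- the ring generated by the kernel of `κ` -/
def RS (κ : Q →* Γ) : Subring (Module.End ℤ (Ext p M)) :=
  Subring.closure {x | ∃ a, κ a = 1 ∧ eact D hpM a = x}

end

section Ring

variable {p : ℕ} [Fact p.Prime] {Q M Γ : Type} [Group Q] [AddCommGroup M] [CommGroup Γ]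
  (D : Der Q M) (hpM : ∀ m : M, p • m = 0) (κ : Q →* Γ)

theorem RS_conj (h : Q) {r : Module.End ℤ (Ext p M)} (hr : r ∈ RS D hpM κ) :
    eact D hpM h * r * eact D hpM h⁻¹ ∈ RS D hpM κ := by
  have hinv : eact D hpM h⁻¹ * eact D hpM h = 1 := by rw [← map_mul, inv_mul_cancel, map_one]
  have hinv' : eact D hpM h * eact D hpM h⁻¹ = 1 := by rw [← map_mul, mul_inv_cancel, map_one]
  refine Subring.closure_induction (p := fun r _ => eact D hpM h * r * eact D hpM h⁻¹ ∈
    RS D hpM κ) ?_ ?_ ?_ ?_ ?_ ?_ hr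
  · rintro _ ⟨a, ha, rfl⟩
    refine Subring.subset_closure ⟨h * a * h⁻¹, ?_, ?_⟩
    · rw [map_mul, map_mul, ha, mul_one, ← map_mul, mul_inv_cancel, map_one]
    · rw [map_mul, map_mul]
  · rw [mul_zero, zero_mul]
    exact (RS D hpM κ).zero_mem
  · rw [mul_one, hinv']
    exact (RS D hpM κ).one_mem
  · intro x y _ _ hx hy
    rw [mul_add, add_mul]
    exact (RS D hpM κ).add_mem hx hy
  · intro x _ hx
    rw [mul_neg, neg_mul]
    exact (RS D hpM κ).neg_mem hx
  · intro x y _ _ hx hy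
    have : eact D hpM h * (x * y) * eact D hpM h⁻¹ =
        (eact D hpM h * x * eact D hpM h⁻¹) * (eact D hpM h * y * eact D hpM h⁻¹) := by
      calc eact D hpM h * (x * y) * eact D hpM h⁻¹ =
          eact D hpM h * x * 1 * y * eact D hpM h⁻¹ := by
            rw [mul_one]; simp only [mul_assoc]
        _ = eact D hpM h * x * (eact D hpM h⁻¹ * eact D hpM h) * y * eact D hpM h⁻¹ := by
          rw [hinv]
        _ = _ := by simp only [mul_assoc]
    rw [this]
    exact (RS D hpM κ).mul_mem hx hy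

theorem RS_eps {r : Module.End ℤ (Ext p M)} (hr : r ∈ RS D hpM κ) :
    ∀ v, (r v).2 = (r ((0 : M), (1 : ZMod p))).2 * v.2 := by
  refine Subring.closure_induction (p := fun r _ => ∀ v, (r v).2 =
    (r ((0 : M), (1 : ZMod p))).2 * v.2) ?_ ?_ ?_ ?_ ?_ ?_ hr
  · rintro _ ⟨a, ha, rfl⟩ v
    rw [eact_apply, eact_apply, one_mul]
  · intro v
    change (0 : ZMod p) = 0 * v.2
    rw [zero_mul]
  · intro v
    change v.2 = 1 * v.2
    rw [one_mul]
  · intro x y _ _ hx hy v
    change (x v).2 + (y v).2 = ((x _).2 + (y _).2) * v.2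
    rw [hx v, hy v, add_mul]
  · intro x _ hx v
    change -(x v).2 = -(x _).2 * v.2
    rw [hx v, neg_mul]
  · intro x y _ _ hx hy v
    change (x (y v)).2 = (x (y _)).2 * v.2
    rw [hx (y v), hy v, hx (y ((0 : M), (1 : ZMod p))), mul_assoc]

end Ring

/-- data for the ring construction -/
structure RData (p : ℕ) [Fact p.Prime] (Q M Γ : Type) [Group Q] [AddCommGroup M] [CommGroup Γ] where
  D : Der Q M
  hpM : ∀ m : M, p • m = 0
  κ : Q →* Γ
  comm : ∀ a b, κ a = 1 → κ b = 1 → ∀ v : Ext p M, eact D hpM (a * b) v = eact D hpM (b * a) v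
  per : ∀ a, κ a = 1 → ∃ n : ℕ, 0 < n ∧ ∀ v : Ext p M, eact D hpM (a ^ n) v = v
  surj : Function.Surjective D.π

namespace RData

variable {p : ℕ} [Fact p.Prime] {Q M Γ : Type} [Group Q] [AddCommGroup M] [CommGroup Γ]
  (X : RData p Q M Γ)

/-- the ring -/
abbrev S : Subring (Module.End ℤ (Ext p M)) := RS X.D X.hpM X.κ

theorem S_comm : ∀ a b : ↥X.S, a * b = b * a := by
  have h : IsMulCommutative (RS X.D X.hpM X.κ) := by
    refine Subring.isMulCommutative_closure ?_
    rintro _ ⟨a, ha, rfl⟩ _ ⟨b, hb, rfl⟩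
    rw [← map_mul, ← map_mul]
    exact LinearMap.ext (X.comm a b ha hb)
  exact h.is_comm.comm

noncomputable instance : CommRing ↥X.S :=
  { (inferInstance : Ring ↥X.S) with mul_comm := X.S_comm }

/-- the augmentation -/
noncomputable def aug : ↥X.S →+* ZMod p where
  toFun r := (r.1 ((0 : M), (1 : ZMod p))).2
  map_one' := rfl
  map_mul' a b := by
    change (a.1 (b.1 _)).2 = _
    rw [RS_eps X.D X.hpM X.κ a.2]
  map_zero' := rfl
  map_add' a b := rfl

theorem integral (r : ↥X.S) : IsIntegral ℤ r := by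
  obtain ⟨r, hr⟩ := r
  refine Subring.closure_induction (p := fun r hr => IsIntegral ℤ (⟨r, hr⟩ : ↥X.S))
    ?_ ?_ ?_ ?_ ?_ ?_ hr
  · rintro _ ⟨a, ha, rfl⟩
    obtain ⟨n, hn, hn'⟩ := X.per a ha
    refine IsIntegral.of_pow hn ?_
    have h1 : (⟨eact X.D X.hpM a, Subring.subset_closure ⟨a, ha, rfl⟩⟩ : ↥X.S) ^ n = 1 := by
      refine Subtype.ext ?_
      rw [Subring.coe_pow]
      change eact X.D X.hpM a ^ n = 1
      rw [← map_pow]
      exact LinearMap.ext hn'
    rw [h1]
    exact isIntegral_one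
  · exact isIntegral_zero
  · exact isIntegral_one
  · intro x y hx hy h1 h2
    exact h1.add h2
  · intro x hx h1
    exact h1.neg
  · intro x y hx hy h1 h2
    exact h1.mul h2

theorem S_char (r : ↥X.S) : p • r = 0 := by
  refine Subtype.ext (LinearMap.ext (fun v => ?_))
  change p • (r.1 v) = 0
  refine Prod.ext ?_ ?_
  · exact X.hpM _
  · change p • (r.1 v).2 = 0
    rw [nsmul_eq_mul, CharP.cast_eq_zero, zero_mul]

theorem S_per (r : ↥X.S) : ∃ i j : ℕ, i < j ∧ r ^ i = r ^ j := by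
  have h1 := (X.integral r).fg_adjoin_singleton
  have h2 : Module.Finite ℤ ↥(Algebra.adjoin ℤ {r}) := Module.Finite.iff_fg.2 h1
  have h3 : Finite ↥(Algebra.adjoin ℤ {r}) := by
    refine Module.finite_of_fg_torsion _ (fun x => ?_)
    refine ⟨⟨(p : ℤ), mem_nonZeroDivisors_of_ne_zero
      (by exact_mod_cast (Fact.out : p.Prime).ne_zero)⟩, ?_⟩
    refine Subtype.ext ?_
    change (p : ℤ) • x.1 = 0
    rw [natCast_zsmul]
    exact X.S_char x.1
  obtain ⟨i, j, hij, h⟩ := Finite.exists_ne_map_eq_of_infinite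
    (fun n : ℕ => (⟨r ^ n, pow_mem (Algebra.self_mem_adjoin_singleton ℤ r) n⟩ :
      ↥(Algebra.adjoin ℤ {r})))
  have h' : r ^ i = r ^ j := congrArg Subtype.val h
  rcases Nat.lt_or_gt_of_ne hij with h4 | h4
  · exact ⟨i, j, h4, h'⟩
  · exact ⟨j, i, h4, h'.symm⟩

theorem smul_def' (r : ↥X.S) (v : Ext p M) : r • v = r.1 v := rfl

/-- the transitive action -/
noncomputable def toTrR : TrR p Q Γ ↥X.S (Ext p M) where
  act := eact X.D X.hpM
  κ := X.κ
  eps := AddMonoidHom.snd M (ZMod p)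
  aug := X.aug
  eps_smul r v := RS_eps X.D X.hpM X.κ r.2 v
  eps_act h v := rfl
  conj h r := by
    refine ⟨⟨_, RS_conj X.D X.hpM X.κ h r.2⟩, fun v => ?_⟩
    change eact X.D X.hpM h (r.1 v) =
      eact X.D X.hpM h (r.1 (eact X.D X.hpM h⁻¹ (eact X.D X.hpM h v)))
    rw [← Module.End.mul_apply (eact X.D X.hpM h⁻¹), ← map_mul, inv_mul_cancel, map_one]
    rfl
  c := (0, 1)
  eps_c := rfl
  trans x hx := by
    obtain ⟨h, hh⟩ := X.surj x.1
    refine ⟨h, ?_⟩
    rw [eact_base, hh]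
    exact Prod.ext rfl hx.symm
  K_act k hk := ⟨⟨_, Subring.subset_closure ⟨k, hk, rfl⟩⟩, fun v => rfl⟩
  per := X.S_per
  faith r hr := Subtype.ext (LinearMap.ext hr)

theorem stc_eq : X.toTrR.stc = X.D.stab X.D.inv_bot := by
  ext h
  rw [TrR.mem_stc]
  change eact X.D X.hpM h ((0 : M), (1 : ZMod p)) = (0, 1) ↔ X.D.π h ∈ (⊥ : Submodule ℤ M)
  rw [eact_base, Submodule.mem_bot]
  constructor
  · intro h1; exact congrArg Prod.fst h1
  · intro h1; rw [h1]

theorem r0_stab [Group.IsSolvable Q] (hr : r0 Q < ℵ₀) (hFR : FR Γ) (hD : DCC p Γ) :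
    r0 ↥(X.D.stab X.D.inv_bot) = r0 Q := by
  rw [← X.stc_eq]
  exact X.toTrR.r0_stc hr hFR hD

end RData

/-- **The rank of the stabiliser** for a surjective derivation into an elementary abelian group,
when the group acts as an extension of a torsion abelian group by an abelian group of finite
torsion-free rank whose `p`-torsion sections are Artinian. -/
theorem der_main {p : ℕ} [Fact p.Prime] {Q M Γ : Type} [Group Q] [AddCommGroup M] [CommGroup Γ]
    [Group.IsSolvable Q] (hr : r0 Q < ℵ₀) (hFR : FR Γ) (hD : DCC p Γ) (D : Der Q M)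
    (hpM : ∀ m : M, p • m = 0) (κ : Q →* Γ)
    (hcomm : ∀ a b, κ a = 1 → κ b = 1 → D.ρ ⁅a, b⁆ = 1)
    (hper : ∀ a, κ a = 1 → ∃ n : ℕ, 0 < n ∧ D.ρ (a ^ n) = 1)
    (hs : Function.Surjective D.π) : r0 Q = r0 ↥(D.stab D.inv_bot) := by
  have htriv : ∀ x, D.ρ x = 1 → (D.quot D.inv_kerVal).ρ x = 1 ∧
      (D.quot D.inv_kerVal).π x = 0 := by
    intro x hx
    constructor
    · refine LinearMap.ext (fun y => ?_)
      obtain ⟨m, rfl⟩ := Submodule.Quotient.mk_surjective _ y
      change Submodule.Quotient.mk (D.ρ x m) = Submodule.Quotient.mk m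
      rw [hx]; rfl
    · change Submodule.Quotient.mk (D.π x) = 0
      rw [Submodule.Quotient.mk_eq_zero]
      exact ⟨x, hx, rfl⟩
  have hpM' : ∀ m : M ⧸ D.kerVal, p • m = 0 := by
    intro m
    obtain ⟨m, rfl⟩ := Submodule.Quotient.mk_surjective _ m
    rw [← Submodule.Quotient.mk_smul, hpM]; rfl
  have hact : ∀ x, D.ρ x = 1 → ∀ v : Ext p (M ⧸ D.kerVal),
      eact (D.quot D.inv_kerVal) hpM' x v = v := by
    intro x hx v
    obtain ⟨h1, h2⟩ := htriv x hx
    rw [eact_apply, h1, h2, sca_zero, add_zero]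
    rfl
  let X : RData p Q (M ⧸ D.kerVal) Γ :=
    { D := D.quot D.inv_kerVal
      hpM := hpM'
      κ := κ
      comm := by
        intro a b ha hb v
        have e : a * b = ⁅a, b⁆ * (b * a) := by rw [commutatorElement_def]; group
        rw [e, map_mul, Module.End.mul_apply, hact _ (hcomm a b ha hb)]
      per := by
        intro a ha
        obtain ⟨n, hn, h⟩ := hper a ha
        exact ⟨n, hn, hact _ h⟩
      surj := D.quot_surj D.inv_kerVal hs }
  have h1 := X.r0_stab hr hFR hD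
  have h2 : X.D.stab X.D.inv_bot = D.stab D.inv_kerVal := D.r0_quot_stab_bot D.inv_kerVal
  rw [h2, D.r0_stab_kerVal] at h1
  have h3 : Module.rank ℤ D.kerVal = 0 := by
    rw [rank_eq_zero_iff]
    intro x
    refine ⟨(p : ℤ), by exact_mod_cast (Fact.out : p.Prime).ne_zero, Subtype.ext ?_⟩
    change (p : ℤ) • x.1 = 0
    rw [natCast_zsmul]
    exact hpM x.1
  rw [h3, add_zero] at h1
  exact h1.symm

end Pool.TFM
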