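import Mathlib
import Pool.Agent.TFM.FromDerB
import Pool.Agent.TFM.Art2
import Pool.Agent.TFR.Main3

/-!
# The product formula: torsion factors with torsion-abelian by abelian action
-/

set_option autoImplicit false

namespace Pool.TFM

open Cardinal Pool.TFR
open scoped commutatorElement

/-- the quotient by a normal subgroup containing the derived subgroup -/
abbrev cgq {G : Type} [Group G] (K : Subgroup G) [K.Normal] (h : commutator G ≤ K) :
    CommGroup (G ⧸ K) :=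
  { (inferInstance : Group (G ⧸ K)) with
    mul_comm := by
      intro a b
      obtain ⟨x, rfl⟩ := QuotientGroup.mk_surjective a
      obtain ⟨y, rfl⟩ := QuotientGroup.mk_surjective b
      have h1 : ⁅x⁻¹, y⁻¹⁆ ∈ K := h (Subgroup.commutator_mem_commutator
        (Subgroup.mem_top _) (Subgroup.mem_top _))
      have h2 : (QuotientGroup.mk (y * x) : G ⧸ K) = QuotientGroup.mk (x * y) := by
        rw [QuotientGroup.eq]
        have : (y * x)⁻¹ * (x * y) = ⁅x⁻¹, y⁻¹⁆ := by rw [commutatorElement_def]; group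
        rw [this]; exact h1
      exact h2.symm }

theorem reduceC {p : ℕ} [Fact p.Prime] {G : Type} [Group G] [Group.IsSolvable G] (hr : r0 G < ℵ₀)
    (N : Subgroup G) [hN : N.Normal] (hc : ∀ x y : N, x * y = y * x) (hp : ∀ x ∈ N, x ^ p = 1)
    (K : Subgroup G) [K.Normal] (hK : commutator G ≤ K) (hFR : @FR (G ⧸ K) (cgq K hK))
    (hD : @DCC p (G ⧸ K) (cgq K hK))
    (hcomm : ∀ a ∈ K, ∀ b ∈ K, ∀ n ∈ N, ⁅a, b⁆ * n = n * ⁅a, b⁆)
    (hper : ∀ a ∈ K, ∃ k : ℕ, 0 < k ∧ ∀ n ∈ N, a ^ k * n = n * a ^ k)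
    (A B : Subgroup G) (hAB : ∀ g : G, ∃ a ∈ A, ∃ b ∈ B, g = a * b) :
    r0 ↥(A ⊓ (N ⊔ B)) = r0 ↥(A ⊓ B) := by
  let _ : CommGroup ↥N := cg ↥N hc
  let B' : Subgroup ↥N := B.subgroupOf N
  let Q : Subgroup G := A ⊓ (N ⊔ B)
  let ρ₁ : ↥Q → (↥N ⧸ B' →* ↥N ⧸ B') := fun q =>
    QuotientGroup.map B' B' (MulAut.conjNormal q.1 : MulAut ↥N).toMonoidHom
      (fun x hx => conj_mem_inf N B hc q.2.2 x hx)
  have hρ₁ : ∀ (q : ↥Q) (x : ↥N), ρ₁ q (x : ↥N ⧸ B') =
      ((MulAut.conjNormal q.1 x : N) : ↥N ⧸ B') := fun q x => rfl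
  let E : Der ↥Q (Additive (↥N ⧸ B')) :=
    { ρ :=
        { toFun := fun q => (MonoidHom.toAdditive (ρ₁ q)).toIntLinearMap
          map_one' := by
            ext x
            obtain ⟨n, hn⟩ := QuotientGroup.mk_surjective (Additive.toMul x)
            have : x = Additive.ofMul ((n : ↥N ⧸ B')) := hn.symm
            rw [this]
            change Additive.ofMul (ρ₁ 1 (n : ↥N ⧸ B')) = Additive.ofMul ((n : ↥N ⧸ B'))
            rw [hρ₁]
            simp
          map_mul' := by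
            intro a b
            ext x
            obtain ⟨n, hn⟩ := QuotientGroup.mk_surjective (Additive.toMul x)
            have : x = Additive.ofMul ((n : ↥N ⧸ B')) := hn.symm
            rw [this]
            change Additive.ofMul (ρ₁ (a * b) (n : ↥N ⧸ B')) =
              Additive.ofMul (ρ₁ a (ρ₁ b (n : ↥N ⧸ B')))
            rw [hρ₁, hρ₁, hρ₁]
            simp }
      π := fun q => Additive.ofMul ((nPart N A B q : N) : ↥N ⧸ B')
      map_mul := by
        intro a b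
        obtain ⟨c, hc1, hc2⟩ := nPart_spec N A B a
        obtain ⟨d, hd1, hd2⟩ := nPart_spec N A B b
        change Additive.ofMul ((nPart N A B (a * b) : N) : ↥N ⧸ B') =
          Additive.ofMul (((nPart N A B a : N) : ↥N ⧸ B') *
            ρ₁ a ((nPart N A B b : N) : ↥N ⧸ B'))
        congr 1
        rw [hρ₁, ← QuotientGroup.mk_mul]
        refine nPart_eq N A B (a * b) _ (c * d) (B.mul_mem hc1 hd1) ?_
        rw [Subgroup.coe_mul, MulAut.conjNormal_apply]
        change _ = a.1 * b.1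
        have h1 : a.1 * (nPart N A B b : G) * a.1⁻¹ ∈ N := hN.conj_mem _ (nPart N A B b).2 a.1
        have h2 : (nPart N A B a : G) * (a.1 * (nPart N A B b : G) * a.1⁻¹) =
            (a.1 * (nPart N A B b : G) * a.1⁻¹) * (nPart N A B a : G) :=
          congrArg Subtype.val (hc (nPart N A B a) ⟨_, h1⟩)
        rw [h2]
        have h3 : a.1⁻¹ * (nPart N A B a : G) * c = 1 := by
          rw [mul_assoc, hc2]; group
        have h4 : (a.1 * (nPart N A B b : G) * a.1⁻¹) * (nPart N A B a : G) * (c * d) =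
            a.1 * (nPart N A B b : G) * (a.1⁻¹ * (nPart N A B a : G) * c) * d := by group
        rw [h4, h3, mul_one, mul_assoc, hd2] }
  have hEπ : ∀ q : ↥Q, E.π q = Additive.ofMul ((nPart N A B q : N) : ↥N ⧸ B') := fun _ => rfl
  have hs : Function.Surjective E.π := by
    intro m
    obtain ⟨n, hn⟩ := QuotientGroup.mk_surjective (Additive.toMul m)
    obtain ⟨a, ha, b, hb, hab⟩ := hAB n.1
    have hq : a ∈ Q := by
      refine ⟨ha, Subgroup.mem_sup_of_normal_left.2 ⟨n.1, n.2, b⁻¹, B.inv_mem hb, ?_⟩⟩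
      rw [hab]; group
    refine ⟨⟨a, hq⟩, ?_⟩
    rw [hEπ]
    have := nPart_eq N A B ⟨a, hq⟩ n b⁻¹ (B.inv_mem hb) (by rw [hab]; group)
    rw [this]
    exact hn
  have hQr : r0 ↥Q < ℵ₀ := lt_of_le_of_lt (r0_subgroup_le Q) hr
  -- elements acting trivially
  have htriv : ∀ q : ↥Q, (∀ n ∈ N, q.1 * n = n * q.1) → E.ρ q = 1 := by
    intro q hq
    refine LinearMap.ext (fun v => ?_)
    obtain ⟨n, hn⟩ := QuotientGroup.mk_surjective (Additive.toMul v)
    have hvn : v = Additive.ofMul ((n : ↥N ⧸ B')) := hn.symm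
    rw [hvn]
    change Additive.ofMul (ρ₁ q (n : ↥N ⧸ B')) = Additive.ofMul ((n : ↥N ⧸ B'))
    rw [hρ₁]
    have h5 : MulAut.conjNormal (q : G) n = n := by
      refine Subtype.ext ?_
      rw [MulAut.conjNormal_apply, hq n.1 n.2]; group
    rw [h5]
  let _ : CommGroup (G ⧸ K) := cgq K hK
  let κ : ↥Q →* G ⧸ K := (QuotientGroup.mk' K).comp Q.subtype
  have hκ : ∀ q : ↥Q, κ q = 1 → q.1 ∈ K := fun q hq => (QuotientGroup.eq_one_iff q.1).1 hq
  have hform : r0 ↥Q = r0 ↥(E.stab E.inv_bot) := by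
    refine der_main (p := p) hQr hFR hD E ?_ κ ?_ ?_ hs
    · intro m
      obtain ⟨n, hn⟩ := QuotientGroup.mk_surjective (Additive.toMul m)
      have hvn : m = Additive.ofMul ((n : ↥N ⧸ B')) := hn.symm
      rw [hvn]
      change Additive.ofMul (((n : ↥N ⧸ B')) ^ p) = 0
      rw [← QuotientGroup.mk_pow]
      have : n ^ p = 1 := Subtype.ext (by rw [Subgroup.coe_pow, hp n.1 n.2]; rfl)
      rw [this]
      rfl
    · intro a b ha hb
      exact htriv _ (fun n hn => hcomm a.1 (hκ a ha) b.1 (hκ b hb) n hn)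
    · intro a ha
      obtain ⟨k, hk, hk'⟩ := hper a.1 (hκ a ha)
      exact ⟨k, hk, htriv _ (fun n hn => by rw [Subgroup.coe_pow]; exact hk' n hn)⟩
  have hst : r0 (E.stab E.inv_bot) = r0 ↥(A ⊓ B) := by
    refine r0_congr ?_
    have hk : ∀ q : ↥Q, q ∈ E.stab E.inv_bot ↔ q.1 ∈ B := by
      intro q
      rw [E.mem_stab, Submodule.mem_bot, hEπ]
      obtain ⟨b, hb, hb'⟩ := nPart_spec N A B q
      constructor
      · intro h
        have h1 : nPart N A B q ∈ B' := (QuotientGroup.eq_one_iff _).1 h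
        rw [← hb']
        exact B.mul_mem h1 hb
      · intro h
        have := nPart_eq N A B q 1 q.1 h (by simp)
        rw [this]; rfl
    exact
      { toFun := fun x => ⟨x.1.1, x.1.2.1, (hk _).1 x.2⟩
        invFun := fun x => ⟨⟨x.1, x.2.1, Subgroup.mem_sup_right x.2.2⟩, (hk _).2 x.2.2⟩
        left_inv := fun x => rfl
        right_inv := fun x => rfl
        map_mul' := fun x y => rfl }
  rw [← hst]
  exact hform

/-- factoring out a torsion normal subgroup step by step -/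
theorem radical_zorn {G : Type} [Group G] [Group.IsSolvable G] (hr : r0 G < ℵ₀)
    (T : Subgroup G) (A B : Subgroup G)
    (hstep : ∀ N : Subgroup G, N.Normal → N < T → ∃ N' : Subgroup G, N'.Normal ∧ N < N' ∧
      N' ≤ T ∧ r0 ↥(A ⊓ (N' ⊔ B)) = r0 ↥(A ⊓ (N ⊔ B))) :
    r0 ↥(A ⊓ (T ⊔ B)) = r0 ↥(A ⊓ B) := by
  classical
  let P : Subgroup G → Prop := fun N => N.Normal ∧ N ≤ T ∧ r0 ↥(A ⊓ (N ⊔ B)) = r0 ↥(A ⊓ B)
  have hzorn : ∃ N, Maximal P N := by
    refine zorn_le₀ {N | P N} (fun c hc hchain => ?_)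
    by_cases hne : c.Nonempty
    · -- union of a chain
      have hdir : DirectedOn (· ≤ ·) c := hchain.directedOn
      let U : Subgroup G := sSup c
      have hmemU : ∀ x, x ∈ U ↔ ∃ N ∈ c, x ∈ N := fun x =>
        Subgroup.mem_sSup_of_directedOn hne hdir
      have hUn : U.Normal := by
        refine ⟨fun x hx g => ?_⟩
        obtain ⟨N, hN, hxN⟩ := (hmemU x).1 hx
        exact (hmemU _).2 ⟨N, hN, (hc hN).1.conj_mem x hxN g⟩
      refine ⟨U, ⟨hUn, fun x hx => ?_, ?_⟩, fun N hN => le_sSup hN⟩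
      · obtain ⟨N, hN, hxN⟩ := (hmemU x).1 hx
        exact (hc hN).2.1 hxN
      · -- continuity of the rank
        let X : Subgroup G := A ⊓ (U ⊔ B)
        obtain ⟨m, hm⟩ := (Group.isSolvable_def ↥X).1 inferInstance
        obtain ⟨S, hS⟩ := exists_witness m ↥X hm (lt_of_le_of_lt (r0_subgroup_le X) hr)
        -- a member of the chain containing all witnesses
        have hfind : ∃ N ∈ c, ∀ s ∈ S, (s : G) ∈ A ⊓ (N ⊔ B) := by
          clear hS
          induction S using Finset.induction_on with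
          | empty =>
            obtain ⟨N, hN⟩ := hne
            exact ⟨N, hN, fun s hs => absurd hs (Finset.notMem_empty s)⟩
          | insert a S _ ihS =>
            obtain ⟨N, hN, hNS⟩ := ihS
            obtain ⟨n, hn, b, hb, hab⟩ := Subgroup.mem_sup_of_normal_left.1 a.2.2
            obtain ⟨N2, hN2, hnN2⟩ := (hmemU n).1 hn
            obtain ⟨N3, hN3, h1, h2⟩ := hdir N hN N2 hN2
            refine ⟨N3, hN3, fun s hs => ?_⟩
            rcases Finset.mem_insert.1 hs with rfl | hs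
            · refine ⟨s.2.1, ?_⟩
              rw [← hab]
              exact (N3 ⊔ B).mul_mem (Subgroup.mem_sup_left (h2 hnN2))
                (Subgroup.mem_sup_right hb)
            · exact ⟨(hNS s hs).1, sup_le_sup_right h1 B (hNS s hs).2⟩
        obtain ⟨N, hN, hNS⟩ := hfind
        have h1 := hS ((A ⊓ (N ⊔ B)).subgroupOf X) (fun s hs => by
          rw [Subgroup.mem_subgroupOf]; exact hNS s hs)
        have h2 : A ⊓ (N ⊔ B) ≤ X := inf_le_inf_left A (sup_le_sup_right (le_sSup hN) B)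
        have h3 : r0 ↥((A ⊓ (N ⊔ B)).subgroupOf X) = r0 ↥(A ⊓ (N ⊔ B)) :=
          r0_congr (Subgroup.subgroupOfEquivOfLe h2)
        change r0 ↥X = _
        rw [← h1, h3]
        exact (hc hN).2.2
    · rw [Set.not_nonempty_iff_eq_empty] at hne
      subst hne
      refine ⟨⊥, ⟨inferInstance, bot_le, ?_⟩, fun N hN => absurd hN (Set.notMem_empty N)⟩
      rw [bot_sup_eq]
  obtain ⟨N, ⟨hNn, hNT, hNr⟩, hmax⟩ := hzorn
  by_cases hNeq : N = T
  · rw [← hNeq]; exact hNr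
  exfalso
  obtain ⟨N', hN'n, hlt, hN'T, hst⟩ := hstep N hNn (lt_of_le_of_ne hNT hNeq)
  have hP : P N' := ⟨hN'n, hN'T, hst.trans hNr⟩
  exact absurd (hmax hP hlt.le) (not_le_of_gt hlt)

/-- the elements of prime order of an abelian factor -/
theorem exists_elementary {G : Type} [Group G] (N N' : Subgroup G) (hN : N.Normal)
    (hN' : N'.Normal) (hlt : N < N') (hab : ∀ x ∈ N', ∀ y ∈ N', ⁅x, y⁆ ∈ N)
    (htor : ∀ x ∈ N', ∃ k : ℕ, 0 < k ∧ x ^ k ∈ N) :
    ∃ (p : ℕ) (N'' : Subgroup G), p.Prime ∧ (∃ x ∈ N', x ∉ N ∧ x ^ p ∈ N) ∧ N''.Normal ∧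
      N < N'' ∧ N'' ≤ N' ∧ ∀ x ∈ N'', x ^ p ∈ N := by
  classical
  let f : G →* G ⧸ N := QuotientGroup.mk' N
  have hker : ∀ x, f x = 1 ↔ x ∈ N := fun x => QuotientGroup.eq_one_iff x
  have hcomm : ∀ x ∈ N', ∀ y ∈ N', f x * f y = f y * f x := by
    intro x hx y hy
    have := hab x hx y hy
    rw [← hker, map_commutatorElement, commutatorElement_eq_one_iff_mul_comm] at this
    exact this
  -- an element of prime order modulo `N`
  obtain ⟨x, hx, hxN⟩ := SetLike.exists_of_lt hlt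
  have hfin : IsOfFinOrder (f x) := by
    obtain ⟨k, hk, hk'⟩ := htor x hx
    exact isOfFinOrder_iff_pow_eq_one.2 ⟨k, hk, by rw [← map_pow]; exact (hker _).2 hk'⟩
  have hord : orderOf (f x) ≠ 1 := by
    intro h
    exact hxN ((hker x).1 (orderOf_eq_one_iff.1 h))
  obtain ⟨p, hp, m, hm⟩ := Nat.exists_prime_and_dvd hord
  have hpos := hfin.orderOf_pos
  have hm0 : 0 < m := by
    rcases Nat.eq_zero_or_pos m with h | h
    · rw [h, mul_zero] at hm; omega
    · exact h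
  let N'' : Subgroup G :=
    { carrier := {y | y ∈ N' ∧ y ^ p ∈ N}
      mul_mem' := by
        rintro a b ⟨ha, ha'⟩ ⟨hb, hb'⟩
        refine ⟨N'.mul_mem ha hb, ?_⟩
        rw [← hker] at ha' hb' ⊢
        rw [map_pow] at ha' hb' ⊢
        rw [map_mul, Commute.mul_pow (hcomm a ha b hb), ha', hb', mul_one]
      one_mem' := ⟨N'.one_mem, by rw [one_pow]; exact N.one_mem⟩
      inv_mem' := by
        rintro a ⟨ha, ha'⟩
        exact ⟨N'.inv_mem ha, by rw [inv_pow]; exact N.inv_mem ha'⟩ }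
  have hmN : x ^ m ∉ N ∧ (x ^ m) ^ p ∈ N := by
    constructor
    · intro h1
      rw [← hker, map_pow] at h1
      have h2 := Nat.le_of_dvd hm0 (orderOf_dvd_of_pow_eq_one h1)
      rw [hm] at h2
      have := hp.two_le
      nlinarith
    · rw [← pow_mul, ← hker, map_pow, mul_comm, ← hm]
      exact pow_orderOf_eq_one _
  refine ⟨p, N'', hp, ⟨x ^ m, N'.pow_mem hx m, hmN.1, hmN.2⟩, ⟨?_⟩, ?_, fun y hy => hy.1,
    fun y hy => hy.2⟩
  · rintro y ⟨hy, hy'⟩ g
    refine ⟨hN'.conj_mem y hy g, ?_⟩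
    rw [conj_pow]
    exact hN.conj_mem _ hy' g
  · refine lt_of_le_of_ne (fun y hy => ⟨hlt.le hy, N.pow_mem hy p⟩) (fun heq => ?_)
    have h1 : x ^ m ∈ N'' := ⟨N'.pow_mem hx m, hmN.2⟩
    rw [← heq] at h1
    exact hmN.1 h1

/-- one step -/
theorem stepC {G : Type} [Group G] [Group.IsSolvable G] (hr : r0 G < ℵ₀)
    (T : Subgroup G) (hTt : IsTor T) (A B : Subgroup G)
    (hAB : ∀ g : G, ∃ a ∈ A, ∃ b ∈ B, g = a * b) (N : Subgroup G) (hN : N.Normal) (hNT : N < T)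
    (N' : Subgroup G) (hN' : N'.Normal) (hlt : N < N') (hN'T : N' ≤ T)
    (hab : ∀ x ∈ N', ∀ y ∈ N', ⁅x, y⁆ ∈ N)
    (K : Subgroup G) (hKn : K.Normal) (hK : commutator G ≤ K)
    (hfin : ∀ p : ℕ, p.Prime → (∃ x ∈ N', x ∉ N ∧ x ^ p ∈ N) → {y : G ⧸ K | y ^ p = 1}.Finite)
    (hcomm : ∀ a ∈ K, ∀ b ∈ K, ∀ x ∈ N', ⁅⁅a, b⁆, x⁆ ∈ N)
    (hper : ∀ a ∈ K, ∃ k : ℕ, 0 < k ∧ ∀ x ∈ N', ⁅a ^ k, x⁆ ∈ N) :
    ∃ N' : Subgroup G, N'.Normal ∧ N < N' ∧
      N' ≤ T ∧ r0 ↥(A ⊓ (N' ⊔ B)) = r0 ↥(A ⊓ (N ⊔ B)) := by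
  obtain ⟨p, N'', hp, hpx, hN''n, hlt'', hle'', hpow⟩ := exists_elementary N N' hN hN' hlt hab
    (fun x hx => by
      obtain ⟨k, hk, hk'⟩ := hTt x (hN'T hx)
      exact ⟨k, hk, by rw [hk']; exact N.one_mem⟩)
  have := Fact.mk hp
  refine ⟨N'', hN''n, hlt'', hle''.trans hN'T, ?_⟩
  let f : G →* G ⧸ N := QuotientGroup.mk' N
  have hf : Function.Surjective f := QuotientGroup.mk'_surjective N
  have hker : f.ker = N := QuotientGroup.ker_mk' N
  have hkt : IsTor f.ker := fun x hx => hTt x (hNT.le (hker ▸ hx))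
  have hmem : ∀ x, f x = 1 ↔ x ∈ N := fun x => QuotientGroup.eq_one_iff x
  let F : Subgroup (G ⧸ N) := N''.map f
  have hFn : F.Normal := hN''n.map f hf
  have hKfn : (K.map f).Normal := hKn.map f hf
  have hcomm' : ∀ u v : G, ⁅u, v⁆ ∈ N → f u * f v = f v * f u := by
    intro u v huv
    rw [← hmem, map_commutatorElement, commutatorElement_eq_one_iff_mul_comm] at huv
    exact huv
  have hKf : commutator (G ⧸ N) ≤ K.map f := by
    have h1 : commutator (G ⧸ N) = (commutator G).map f := by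
      rw [commutator_def, commutator_def, Subgroup.map_commutator,
        Subgroup.map_top_of_surjective f hf]
    rw [h1]
    exact Subgroup.map_mono hK
  let g : G ⧸ K →* (G ⧸ N) ⧸ K.map f :=
    QuotientGroup.lift K ((QuotientGroup.mk' (K.map f)).comp f) (by
      intro x hx
      change (QuotientGroup.mk (f x) : (G ⧸ N) ⧸ K.map f) = 1
      rw [QuotientGroup.eq_one_iff]
      exact ⟨x, hx, rfl⟩)
  have hg : Function.Surjective g := by
    intro y
    obtain ⟨z, rfl⟩ := QuotientGroup.mk_surjective y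
    obtain ⟨w, rfl⟩ := hf z
    exact ⟨(w : G ⧸ K), rfl⟩
  have hra : @ra (G ⧸ K) (cgq K hK) < ℵ₀ := by
    have h1 := @r0_comm (G ⧸ K) (cgq K hK)
    rw [← h1]
    exact lt_of_le_of_lt (r0_le_of_surjective (QuotientGroup.mk' K)
      (QuotientGroup.mk'_surjective K)) hr
  have hFR0 : @FR (G ⧸ K) (cgq K hK) := @FR_of_ra (G ⧸ K) (cgq K hK) hra
  have hD0 : @DCC p (G ⧸ K) (cgq K hK) := @dcc_of (G ⧸ K) (cgq K hK) hFR0 p hp (hfin p hp hpx)
  have hFR1 : @FR ((G ⧸ N) ⧸ K.map f) (cgq (K.map f) hKf) :=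
    @FR.of_surjective (G ⧸ K) ((G ⧸ N) ⧸ K.map f) (cgq K hK) (cgq (K.map f) hKf) g hg hFR0
  have hD1 : @DCC p ((G ⧸ N) ⧸ K.map f) (cgq (K.map f) hKf) :=
    @DCC.of_surjective p (G ⧸ K) ((G ⧸ N) ⧸ K.map f) (cgq K hK) (cgq (K.map f) hKf) g hg hD0
  have hred := reduceC (p := p) (lt_of_le_of_lt (r0_le_of_surjective f hf) hr) F
    (by
      rintro ⟨_, x, hx, rfl⟩ ⟨_, y, hy, rfl⟩
      exact Subtype.ext (hcomm' x y (hab x (hle'' hx) y (hle'' hy))))
    (by
      rintro _ ⟨x, hx, rfl⟩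
      rw [← map_pow]
      exact (hmem _).2 (hpow x hx))
    (K.map f) hKf hFR1 hD1
    (by
      rintro _ ⟨a, ha, rfl⟩ _ ⟨b, hb, rfl⟩ _ ⟨x, hx, rfl⟩
      rw [← map_commutatorElement]
      exact hcomm' _ _ (hcomm a ha b hb x (hle'' hx)))
    (by
      rintro _ ⟨a, ha, rfl⟩
      obtain ⟨k, hk, hk'⟩ := hper a ha
      refine ⟨k, hk, ?_⟩
      rintro _ ⟨x, hx, rfl⟩
      rw [← map_pow]
      exact hcomm' _ _ (hk' x (hle'' hx)))
    (A.map f) (B.map f) (by
      intro y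
      obtain ⟨g, rfl⟩ := hf y
      obtain ⟨a, ha, b, hb, rfl⟩ := hAB g
      exact ⟨f a, ⟨a, ha, rfl⟩, f b, ⟨b, hb, rfl⟩, by rw [map_mul]⟩)
  rw [r0_map_tor f hkt (A ⊓ (N'' ⊔ B)), map_inf_sup f N'' A B (by rw [hker]; exact hlt''.le),
    hred, ← map_inf_ker f A B N hker, ← r0_map_tor f hkt]

/-- the formula lifts from the quotient by a torsion normal subgroup -/
theorem formula_of_quotient {G : Type} [Group G] [Group.IsSolvable G]
    (T : Subgroup G) [T.Normal] (hTt : IsTor T) (h2 : ProdFormula (G ⧸ T))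
    (h1 : ∀ A B : Subgroup G, (∀ g : G, ∃ a ∈ A, ∃ b ∈ B, g = a * b) →
      r0 ↥(A ⊓ (T ⊔ B)) = r0 ↥(A ⊓ B)) : ProdFormula G := by
  intro A B hAB
  let f : G →* G ⧸ T := QuotientGroup.mk' T
  have hf : Function.Surjective f := QuotientGroup.mk'_surjective T
  have hker : f.ker = T := QuotientGroup.ker_mk' T
  have hkt : IsTor f.ker := fun x hx => hTt x (hker ▸ hx)
  have h3 := h2 (A.map f) (B.map f) (by
      intro y
      obtain ⟨g, rfl⟩ := hf y
      obtain ⟨a, ha, b, hb, rfl⟩ := hAB g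
      exact ⟨f a, ⟨a, ha, rfl⟩, f b, ⟨b, hb, rfl⟩, by rw [map_mul]⟩)
  have hG : r0 G = r0 (G ⧸ T) := by
    rw [r0_add_quotient T, r0_of_isTor T hTt, zero_add]
  rw [hG, r0_map_tor f hkt A, r0_map_tor f hkt B, ← h1 A B hAB,
    r0_map_tor f hkt (A ⊓ (T ⊔ B)), map_inf_ker f A B T hker]
  exact h3

/-- **Main theorem.** -/
theorem mainC (G : Type) [Group G] [Group.IsSolvable G] (hr : r0 G < ℵ₀)
    (T : Subgroup G) (hTn : T.Normal) (hTt : IsTor T)
    (hTmax : ∀ S : Subgroup G, S.Normal → IsTor S → S ≤ T)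
    (hstar : ∀ N : Subgroup G, N.Normal → N < T → ∃ N' : Subgroup G, N'.Normal ∧ N < N' ∧
      N' ≤ T ∧ (∀ x ∈ N', ∀ y ∈ N', ⁅x, y⁆ ∈ N) ∧
      ∃ (K : Subgroup G) (_ : K.Normal), commutator G ≤ K ∧
        (∀ p : ℕ, p.Prime → (∃ x ∈ N', x ∉ N ∧ x ^ p ∈ N) → {y : G ⧸ K | y ^ p = 1}.Finite) ∧
        (∀ a ∈ K, ∀ b ∈ K, ∀ x ∈ N', ⁅⁅a, b⁆, x⁆ ∈ N) ∧
        ∀ a ∈ K, ∃ k : ℕ, 0 < k ∧ ∀ x ∈ N', ⁅a ^ k, x⁆ ∈ N) :
    ProdFormula G := by
  refine formula_of_quotient T hTt ?_ (fun A B hAB => radical_zorn hr T A B (fun N hN hNT => ?_))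
  · have hno : NoTor (G ⧸ T) := by
      refine noTor_of_surj (QuotientGroup.mk' T) (QuotientGroup.mk'_surjective T) ?_ ?_
      · rw [QuotientGroup.ker_mk']; exact hTt
      · rintro x ⟨S, hS, hSt, hx⟩
        rw [QuotientGroup.ker_mk']
        exact hTmax S hS hSt hx
    obtain ⟨m, hm⟩ := (Group.isSolvable_def (G ⧸ T)).1 inferInstance
    exact formula_noTor m (G ⧸ T) hm (lt_of_le_of_lt
      (r0_le_of_surjective (QuotientGroup.mk' T) (QuotientGroup.mk'_surjective T)) hr) hno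
  · obtain ⟨N', hN', hlt, hN'T, hab, K, hKn, hK, hfg, hcomm, hper⟩ := hstar N hN hNT
    exact stepC hr T hTt A B hAB N hN hNT N' hN' hlt hN'T hab K hKn hK hfg hcomm hper

end Pool.TFM
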